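import Pool.Agent.Strip051.LB.Fc.R
import Pool.Agent.Strip051.Box.C2
import Pool.Agent.Strip051.Box.S30
import Pool.Agent.Strip051.LB.Fn.F2

/-! # LINE functions for the tight charts: enclosures in 2 variable(s) -/

namespace Pool.Agent.Strip051.LB.Fc.F2

open Pool.Agent.Strip051.Box Pool.Agent.Strip051.Box2 Pool.Agent.Strip051.LB.Fc Pool.Agent.Strip051.LB.Fn Pool.Agent.Strip051.LB.Fn.F2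

variable {E : Pt} {A1 A2 A3 A4 A5 A6 A7 A8 : TM} {a1 a2 a3 a4 a5 a6 a7 a8 : ℝ}

def sgq0_t1 (A1 : TM) : TM := v2q0_t (A1)

theorem sgq0_h1 (h1 : Enc S E A1 a1) : Enc S E (sgq0_t1 A1) (sgq0_v1 a1) := v2q0_enc (h1)

def sgq0_t2 (A1 : TM) : TM := v1q0_t (A1)

theorem sgq0_h2 (h1 : Enc S E A1 a1) : Enc S E (sgq0_t2 A1) (sgq0_v2 a1) := v1q0_enc (h1)

def sgq0_t3 (A1 : TM) : TM := tsub (sgq0_t1 A1) (sgq0_t2 A1)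

theorem sgq0_h3 (h1 : Enc S E A1 a1) : Enc S E (sgq0_t3 A1) (sgq0_v3 a1) := enc_sub (sgq0_h1 h1) (sgq0_h2 h1)

def sgq0_t5 (A1 : TM) : TM := f1m_t (A1)

theorem sgq0_h5 (h1 : Enc S E A1 a1) : Enc S E (sgq0_t5 A1) (sgq0_v5 a1) := f1m_enc (h1)

def sgq0_t6 (A1 : TM) : TM := f2m_t (A1)

theorem sgq0_h6 (h1 : Enc S E A1 a1) : Enc S E (sgq0_t6 A1) (sgq0_v6 a1) := f2m_enc (h1)

def sgq0_t8 (A1 : TM) : TM := tsub (sgq0_t6 A1) (sgq0_t5 A1)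

theorem sgq0_h8 (h1 : Enc S E A1 a1) : Enc S E (sgq0_t8 A1) (sgq0_v8 a1) := enc_sub (sgq0_h6 h1) (sgq0_h5 h1)

def sgq0_t9 (A1 : TM) : TM := tinv S (sgq0_t8 A1)

theorem sgq0_h9 (h1 : Enc S E A1 a1) : Enc S E (sgq0_t9 A1) (sgq0_v9 a1) := enc_inv hS (sgq0_h8 h1)

def sgq0_t10 (A1 : TM) : TM := tmul S (sgq0_t3 A1) (sgq0_t9 A1)

theorem sgq0_h10 (h1 : Enc S E A1 a1) : Enc S E (sgq0_t10 A1) (sgq0_v10 a1) := enc_mul hS (sgq0_h3 h1) (sgq0_h9 h1)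

def sgq0_t (A1 : TM) : TM := sgq0_t10 A1

theorem sgq0_enc (h1 : Enc S E A1 a1) : Enc S E (sgq0_t A1) (sgq0_v a1) := sgq0_h10 h1

def sgq1_t1 (A1 : TM) : TM := v2q1_t (A1)

theorem sgq1_h1 (h1 : Enc S E A1 a1) : Enc S E (sgq1_t1 A1) (sgq1_v1 a1) := v2q1_enc (h1)

def sgq1_t2 (A1 : TM) : TM := v1q1_t (A1)

theorem sgq1_h2 (h1 : Enc S E A1 a1) : Enc S E (sgq1_t2 A1) (sgq1_v2 a1) := v1q1_enc (h1)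

def sgq1_t3 (A1 : TM) : TM := tsub (sgq1_t1 A1) (sgq1_t2 A1)

theorem sgq1_h3 (h1 : Enc S E A1 a1) : Enc S E (sgq1_t3 A1) (sgq1_v3 a1) := enc_sub (sgq1_h1 h1) (sgq1_h2 h1)

def sgq1_t5 (A1 : TM) : TM := f1m_t (A1)

theorem sgq1_h5 (h1 : Enc S E A1 a1) : Enc S E (sgq1_t5 A1) (sgq1_v5 a1) := f1m_enc (h1)

def sgq1_t6 (A1 : TM) : TM := f2m_t (A1)

theorem sgq1_h6 (h1 : Enc S E A1 a1) : Enc S E (sgq1_t6 A1) (sgq1_v6 a1) := f2m_enc (h1)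

def sgq1_t8 (A1 : TM) : TM := tsub (sgq1_t6 A1) (sgq1_t5 A1)

theorem sgq1_h8 (h1 : Enc S E A1 a1) : Enc S E (sgq1_t8 A1) (sgq1_v8 a1) := enc_sub (sgq1_h6 h1) (sgq1_h5 h1)

def sgq1_t9 (A1 : TM) : TM := tinv S (sgq1_t8 A1)

theorem sgq1_h9 (h1 : Enc S E A1 a1) : Enc S E (sgq1_t9 A1) (sgq1_v9 a1) := enc_inv hS (sgq1_h8 h1)

def sgq1_t10 (A1 : TM) : TM := tmul S (sgq1_t3 A1) (sgq1_t9 A1)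

theorem sgq1_h10 (h1 : Enc S E A1 a1) : Enc S E (sgq1_t10 A1) (sgq1_v10 a1) := enc_mul hS (sgq1_h3 h1) (sgq1_h9 h1)

def sgq1_t (A1 : TM) : TM := sgq1_t10 A1

theorem sgq1_enc (h1 : Enc S E A1 a1) : Enc S E (sgq1_t A1) (sgq1_v a1) := sgq1_h10 h1

def sgq2_t1 (A1 : TM) : TM := v2q2_t (A1)

theorem sgq2_h1 (h1 : Enc S E A1 a1) : Enc S E (sgq2_t1 A1) (sgq2_v1 a1) := v2q2_enc (h1)

def sgq2_t2 (A1 : TM) : TM := v1q2_t (A1)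

theorem sgq2_h2 (h1 : Enc S E A1 a1) : Enc S E (sgq2_t2 A1) (sgq2_v2 a1) := v1q2_enc (h1)

def sgq2_t3 (A1 : TM) : TM := tsub (sgq2_t1 A1) (sgq2_t2 A1)

theorem sgq2_h3 (h1 : Enc S E A1 a1) : Enc S E (sgq2_t3 A1) (sgq2_v3 a1) := enc_sub (sgq2_h1 h1) (sgq2_h2 h1)

def sgq2_t5 (A1 : TM) : TM := f1p_t (A1)

theorem sgq2_h5 (h1 : Enc S E A1 a1) : Enc S E (sgq2_t5 A1) (sgq2_v5 a1) := f1p_enc (h1)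

def sgq2_t6 (A1 : TM) : TM := f2p_t (A1)

theorem sgq2_h6 (h1 : Enc S E A1 a1) : Enc S E (sgq2_t6 A1) (sgq2_v6 a1) := f2p_enc (h1)

def sgq2_t8 (A1 : TM) : TM := tsub (sgq2_t6 A1) (sgq2_t5 A1)

theorem sgq2_h8 (h1 : Enc S E A1 a1) : Enc S E (sgq2_t8 A1) (sgq2_v8 a1) := enc_sub (sgq2_h6 h1) (sgq2_h5 h1)

def sgq2_t9 (A1 : TM) : TM := tinv S (sgq2_t8 A1)

theorem sgq2_h9 (h1 : Enc S E A1 a1) : Enc S E (sgq2_t9 A1) (sgq2_v9 a1) := enc_inv hS (sgq2_h8 h1)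

def sgq2_t10 (A1 : TM) : TM := tmul S (sgq2_t3 A1) (sgq2_t9 A1)

theorem sgq2_h10 (h1 : Enc S E A1 a1) : Enc S E (sgq2_t10 A1) (sgq2_v10 a1) := enc_mul hS (sgq2_h3 h1) (sgq2_h9 h1)

def sgq2_t (A1 : TM) : TM := sgq2_t10 A1

theorem sgq2_enc (h1 : Enc S E A1 a1) : Enc S E (sgq2_t A1) (sgq2_v a1) := sgq2_h10 h1

def sgq3_t1 (A1 : TM) : TM := v2q3_t (A1)

theorem sgq3_h1 (h1 : Enc S E A1 a1) : Enc S E (sgq3_t1 A1) (sgq3_v1 a1) := v2q3_enc (h1)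

def sgq3_t2 (A1 : TM) : TM := v1q3_t (A1)

theorem sgq3_h2 (h1 : Enc S E A1 a1) : Enc S E (sgq3_t2 A1) (sgq3_v2 a1) := v1q3_enc (h1)

def sgq3_t3 (A1 : TM) : TM := tsub (sgq3_t1 A1) (sgq3_t2 A1)

theorem sgq3_h3 (h1 : Enc S E A1 a1) : Enc S E (sgq3_t3 A1) (sgq3_v3 a1) := enc_sub (sgq3_h1 h1) (sgq3_h2 h1)

def sgq3_t5 (A1 : TM) : TM := f1p_t (A1)

theorem sgq3_h5 (h1 : Enc S E A1 a1) : Enc S E (sgq3_t5 A1) (sgq3_v5 a1) := f1p_enc (h1)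

def sgq3_t6 (A1 : TM) : TM := f2p_t (A1)

theorem sgq3_h6 (h1 : Enc S E A1 a1) : Enc S E (sgq3_t6 A1) (sgq3_v6 a1) := f2p_enc (h1)

def sgq3_t8 (A1 : TM) : TM := tsub (sgq3_t6 A1) (sgq3_t5 A1)

theorem sgq3_h8 (h1 : Enc S E A1 a1) : Enc S E (sgq3_t8 A1) (sgq3_v8 a1) := enc_sub (sgq3_h6 h1) (sgq3_h5 h1)

def sgq3_t9 (A1 : TM) : TM := tinv S (sgq3_t8 A1)

theorem sgq3_h9 (h1 : Enc S E A1 a1) : Enc S E (sgq3_t9 A1) (sgq3_v9 a1) := enc_inv hS (sgq3_h8 h1)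

def sgq3_t10 (A1 : TM) : TM := tmul S (sgq3_t3 A1) (sgq3_t9 A1)

theorem sgq3_h10 (h1 : Enc S E A1 a1) : Enc S E (sgq3_t10 A1) (sgq3_v10 a1) := enc_mul hS (sgq3_h3 h1) (sgq3_h9 h1)

def sgq3_t (A1 : TM) : TM := sgq3_t10 A1

theorem sgq3_enc (h1 : Enc S E A1 a1) : Enc S E (sgq3_t A1) (sgq3_v a1) := sgq3_h10 h1

def rho0_t1 (A1 : TM) : TM := c1f_t (A1)

theorem rho0_h1 (h1 : Enc S E A1 a1) : Enc S E (rho0_t1 A1) (rho0_v1 a1) := c1f_enc (h1)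

def rho0_t5 (A1 : TM) : TM := b1q0_t (A1)

theorem rho0_h5 (h1 : Enc S E A1 a1) : Enc S E (rho0_t5 A1) (rho0_v5 a1) := b1q0_enc (h1)

def rho0_t6 (A1 : TM) : TM := tnat 4 (A1)

theorem rho0_h6 (h1 : Enc S E A1 a1) : Enc S E (rho0_t6 A1) (rho0_v6 a1) := enc_nat 4 (h1)

def rho0_t7 (_A1 : TM) : TM := tconst 1859775393 0 1

theorem rho0_h7 (_h1 : Enc S E A1 a1) : Enc S E (rho0_t7 A1) (rho0_v7 a1) := enc_sqrtn E (by decide) (by decide)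

def rho0_t8 (A1 : TM) : TM := tscale 1 2 (rho0_t7 A1)

theorem rho0_h8 (h1 : Enc S E A1 a1) : Enc S E (rho0_t8 A1) (rho0_v8 a1) := enc_scale 1 (by norm_num) (rho0_h7 h1)

def rho0_t9 (A1 : TM) : TM := tsub (rho0_t6 A1) (rho0_t8 A1)

theorem rho0_h9 (h1 : Enc S E A1 a1) : Enc S E (rho0_t9 A1) (rho0_v9 a1) := enc_sub (rho0_h6 h1) (rho0_h8 h1)

def rho0_t12 (A1 : TM) : TM := tscale 298 375 (rho0_t7 A1)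

theorem rho0_h12 (h1 : Enc S E A1 a1) : Enc S E (rho0_t12 A1) (rho0_v12 a1) := enc_scale 298 (by norm_num) (rho0_h7 h1)

def rho0_t13 (A1 : TM) : TM := tneg (rho0_t12 A1)

theorem rho0_h13 (h1 : Enc S E A1 a1) : Enc S E (rho0_t13 A1) (rho0_v13 a1) := enc_neg (rho0_h12 h1)

def rho0_t14 (_A1 : TM) : TM := tconst (Nat.mul 1 S) 0 0

theorem rho0_h14 (_h1 : Enc S E A1 a1) : Enc S E (rho0_t14 A1) (rho0_v14 a1) := enc_nc E 1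

def rho0_t15 (A1 : TM) : TM := tsub (rho0_t5 A1) (rho0_t14 A1)

theorem rho0_h15 (h1 : Enc S E A1 a1) : Enc S E (rho0_t15 A1) (rho0_v15 a1) := enc_sub (rho0_h5 h1) (rho0_h14 h1)

def rho0_t16 (A1 : TM) : TM := tinv S (A1)

theorem rho0_h16 (h1 : Enc S E A1 a1) : Enc S E (rho0_t16 A1) (rho0_v16 a1) := enc_inv hS (h1)

def rho0_t17 (A1 : TM) : TM := tmul S (rho0_t15 A1) (rho0_t16 A1)

theorem rho0_h17 (h1 : Enc S E A1 a1) : Enc S E (rho0_t17 A1) (rho0_v17 a1) := enc_mul hS (rho0_h15 h1) (rho0_h16 h1)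

def rho0_t18 (A1 : TM) : TM := tcase (rho0_t9 A1) (rho0_t13 A1) (rho0_t17 A1)

theorem rho0_h18 (h1 : Enc S E A1 a1) : Enc S E (rho0_t18 A1) (rho0_v18 a1) := enc_case hS (rho0_h9 h1) (rho0_h13 h1) (rho0_h17 h1)

def rho0_t19 (A1 : TM) : TM := tsub (rho0_t7 A1) (A1)

theorem rho0_h19 (h1 : Enc S E A1 a1) : Enc S E (rho0_t19 A1) (rho0_v19 a1) := enc_sub (rho0_h7 h1) (h1)

def rho0_t20 (A1 : TM) : TM := sw_t (A1)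

theorem rho0_h20 (h1 : Enc S E A1 a1) : Enc S E (rho0_t20 A1) (rho0_v20 a1) := sw_enc (h1)

def rho0_t21 (_A1 : TM) : TM := tconst (Nat.div (Nat.mul 1 S) 2) 0 1

theorem rho0_h21 (_h1 : Enc S E A1 a1) : Enc S E (rho0_t21 A1) (rho0_v21 a1) := enc_rat E 1 (by norm_num)

def rho0_t22 (A1 : TM) : TM := tadd (rho0_t20 A1) (rho0_t21 A1)

theorem rho0_h22 (h1 : Enc S E A1 a1) : Enc S E (rho0_t22 A1) (rho0_v22 a1) := enc_add (rho0_h20 h1) (rho0_h21 h1)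

def rho0_t23 (A1 : TM) : TM := tinv S (rho0_t22 A1)

theorem rho0_h23 (h1 : Enc S E A1 a1) : Enc S E (rho0_t23 A1) (rho0_v23 a1) := enc_inv hS (rho0_h22 h1)

def rho0_t24 (A1 : TM) : TM := tmul S (rho0_t19 A1) (rho0_t23 A1)

theorem rho0_h24 (h1 : Enc S E A1 a1) : Enc S E (rho0_t24 A1) (rho0_v24 a1) := enc_mul hS (rho0_h19 h1) (rho0_h23 h1)

def rho0_t25 (A1 : TM) : TM := tadd (rho0_t14 A1) (rho0_t1 A1)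

theorem rho0_h25 (h1 : Enc S E A1 a1) : Enc S E (rho0_t25 A1) (rho0_v25 a1) := enc_add (rho0_h14 h1) (rho0_h1 h1)

def rho0_t26 (A1 : TM) : TM := tinv S (rho0_t25 A1)

theorem rho0_h26 (h1 : Enc S E A1 a1) : Enc S E (rho0_t26 A1) (rho0_v26 a1) := enc_inv hS (rho0_h25 h1)

def rho0_t27 (A1 : TM) : TM := tmul S (A1) (rho0_t26 A1)

theorem rho0_h27 (h1 : Enc S E A1 a1) : Enc S E (rho0_t27 A1) (rho0_v27 a1) := enc_mul hS (h1) (rho0_h26 h1)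

def rho0_t28 (A1 : TM) : TM := tadd (rho0_t24 A1) (rho0_t27 A1)

theorem rho0_h28 (h1 : Enc S E A1 a1) : Enc S E (rho0_t28 A1) (rho0_v28 a1) := enc_add (rho0_h24 h1) (rho0_h27 h1)

def rho0_t29 (A1 : TM) : TM := tscale 1 2 (rho0_t28 A1)

theorem rho0_h29 (h1 : Enc S E A1 a1) : Enc S E (rho0_t29 A1) (rho0_v29 a1) := enc_scale 1 (by norm_num) (rho0_h28 h1)

def rho0_t30 (A1 : TM) : TM := tmul S (rho0_t1 A1) (rho0_t18 A1)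

theorem rho0_h30 (h1 : Enc S E A1 a1) : Enc S E (rho0_t30 A1) (rho0_v30 a1) := enc_mul hS (rho0_h1 h1) (rho0_h18 h1)

def rho0_t31 (A1 : TM) : TM := tmul S (rho0_t7 A1) (A1)

theorem rho0_h31 (h1 : Enc S E A1 a1) : Enc S E (rho0_t31 A1) (rho0_v31 a1) := enc_mul hS (rho0_h7 h1) (h1)

def rho0_t32 (A1 : TM) : TM := tsub (rho0_t25 A1) (rho0_t31 A1)

theorem rho0_h32 (h1 : Enc S E A1 a1) : Enc S E (rho0_t32 A1) (rho0_v32 a1) := enc_sub (rho0_h25 h1) (rho0_h31 h1)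

def rho0_t33 (A1 : TM) : TM := tinv S (rho0_t32 A1)

theorem rho0_h33 (h1 : Enc S E A1 a1) : Enc S E (rho0_t33 A1) (rho0_v33 a1) := enc_inv hS (rho0_h32 h1)

def rho0_t34 (A1 : TM) : TM := tmul S (rho0_t7 A1) (rho0_t33 A1)

theorem rho0_h34 (h1 : Enc S E A1 a1) : Enc S E (rho0_t34 A1) (rho0_v34 a1) := enc_mul hS (rho0_h7 h1) (rho0_h33 h1)

def rho0_t35 (A1 : TM) : TM := tadd (rho0_t30 A1) (rho0_t34 A1)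

theorem rho0_h35 (h1 : Enc S E A1 a1) : Enc S E (rho0_t35 A1) (rho0_v35 a1) := enc_add (rho0_h30 h1) (rho0_h34 h1)

def rho0_t36 (A1 : TM) : TM := tinv S (rho0_t29 A1)

theorem rho0_h36 (h1 : Enc S E A1 a1) : Enc S E (rho0_t36 A1) (rho0_v36 a1) := enc_inv hS (rho0_h29 h1)

def rho0_t37 (A1 : TM) : TM := tmul S (rho0_t35 A1) (rho0_t36 A1)

theorem rho0_h37 (h1 : Enc S E A1 a1) : Enc S E (rho0_t37 A1) (rho0_v37 a1) := enc_mul hS (rho0_h35 h1) (rho0_h36 h1)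

def rho0_t38 (A1 : TM) : TM := tadd (rho0_t5 A1) (rho0_t37 A1)

theorem rho0_h38 (h1 : Enc S E A1 a1) : Enc S E (rho0_t38 A1) (rho0_v38 a1) := enc_add (rho0_h5 h1) (rho0_h37 h1)

def rho0_t (A1 : TM) : TM := rho0_t38 A1

theorem rho0_enc (h1 : Enc S E A1 a1) : Enc S E (rho0_t A1) (rho0_v a1) := rho0_h38 h1

def rho1_t1 (A1 : TM) : TM := v1q1_t (A1)

theorem rho1_h1 (h1 : Enc S E A1 a1) : Enc S E (rho1_t1 A1) (rho1_v1 a1) := v1q1_enc (h1)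

def rho1_t2 (A1 : TM) : TM := a1q1_t (A1)

theorem rho1_h2 (h1 : Enc S E A1 a1) : Enc S E (rho1_t2 A1) (rho1_v2 a1) := a1q1_enc (h1)

def rho1_t3 (A1 : TM) : TM := tsub (rho1_t1 A1) (rho1_t2 A1)

theorem rho1_h3 (h1 : Enc S E A1 a1) : Enc S E (rho1_t3 A1) (rho1_v3 a1) := enc_sub (rho1_h1 h1) (rho1_h2 h1)

def rho1_t4 (A1 : TM) : TM := c1f_t (A1)

theorem rho1_h4 (h1 : Enc S E A1 a1) : Enc S E (rho1_t4 A1) (rho1_v4 a1) := c1f_enc (h1)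

def rho1_t5 (A1 : TM) : TM := f1m_t (A1)

theorem rho1_h5 (h1 : Enc S E A1 a1) : Enc S E (rho1_t5 A1) (rho1_v5 a1) := f1m_enc (h1)

def rho1_t8 (A1 : TM) : TM := tsub (rho1_t5 A1) (rho1_t4 A1)

theorem rho1_h8 (h1 : Enc S E A1 a1) : Enc S E (rho1_t8 A1) (rho1_v8 a1) := enc_sub (rho1_h5 h1) (rho1_h4 h1)

def rho1_t9 (A1 : TM) : TM := tinv S (rho1_t8 A1)

theorem rho1_h9 (h1 : Enc S E A1 a1) : Enc S E (rho1_t9 A1) (rho1_v9 a1) := enc_inv hS (rho1_h8 h1)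

def rho1_t10 (A1 : TM) : TM := tmul S (rho1_t3 A1) (rho1_t9 A1)

theorem rho1_h10 (h1 : Enc S E A1 a1) : Enc S E (rho1_t10 A1) (rho1_v10 a1) := enc_mul hS (rho1_h3 h1) (rho1_h9 h1)

def rho1_t (A1 : TM) : TM := rho1_t10 A1

theorem rho1_enc (h1 : Enc S E A1 a1) : Enc S E (rho1_t A1) (rho1_v a1) := rho1_h10 h1

def kxq0_t2 (_A1 A2 : TM) : TM := c1f_t (A2)

theorem kxq0_h2 (_h1 : Enc S E A1 a1) (h2 : Enc S E A2 a2) : Enc S E (kxq0_t2 A1 A2) (kxq0_v2 a1 a2) := c1f_enc (h2)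

def kxq0_t3 (_A1 A2 : TM) : TM := f1m_t (A2)

theorem kxq0_h3 (_h1 : Enc S E A1 a1) (h2 : Enc S E A2 a2) : Enc S E (kxq0_t3 A1 A2) (kxq0_v3 a1 a2) := f1m_enc (h2)

def kxq0_t6 (_A1 A2 : TM) : TM := rho0_t (A2)

theorem kxq0_h6 (_h1 : Enc S E A1 a1) (h2 : Enc S E A2 a2) : Enc S E (kxq0_t6 A1 A2) (kxq0_v6 a1 a2) := rho0_enc (h2)

def kxq0_t7 (_A1 A2 : TM) : TM := sgq0_t (A2)

theorem kxq0_h7 (_h1 : Enc S E A1 a1) (h2 : Enc S E A2 a2) : Enc S E (kxq0_t7 A1 A2) (kxq0_v7 a1 a2) := sgq0_enc (h2)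

def kxq0_t8 (A1 A2 : TM) : TM := tsub (A1) (kxq0_t3 A1 A2)

theorem kxq0_h8 (h1 : Enc S E A1 a1) (h2 : Enc S E A2 a2) : Enc S E (kxq0_t8 A1 A2) (kxq0_v8 a1 a2) := enc_sub (h1) (kxq0_h3 h1 h2)

def kxq0_t9 (A1 A2 : TM) : TM := tsub (kxq0_t3 A1 A2) (kxq0_t2 A1 A2)

theorem kxq0_h9 (h1 : Enc S E A1 a1) (h2 : Enc S E A2 a2) : Enc S E (kxq0_t9 A1 A2) (kxq0_v9 a1 a2) := enc_sub (kxq0_h3 h1 h2) (kxq0_h2 h1 h2)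

def kxq0_t10 (A1 A2 : TM) : TM := tsub (A1) (kxq0_t2 A1 A2)

theorem kxq0_h10 (h1 : Enc S E A1 a1) (h2 : Enc S E A2 a2) : Enc S E (kxq0_t10 A1 A2) (kxq0_v10 a1 a2) := enc_sub (h1) (kxq0_h2 h1 h2)

def kxq0_t11 (A1 A2 : TM) : TM := tlam S (kxq0_t9 A1 A2) (kxq0_t10 A1 A2)

theorem kxq0_h11 (h1 : Enc S E A1 a1) (h2 : Enc S E A2 a2) : Enc S E (kxq0_t11 A1 A2) (kxq0_v11 a1 a2) := enc_lam hS (kxq0_h9 h1 h2) (kxq0_h10 h1 h2)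

def kxq0_t12 (A1 A2 : TM) : TM := tsub (kxq0_t6 A1 A2) (kxq0_t7 A1 A2)

theorem kxq0_h12 (h1 : Enc S E A1 a1) (h2 : Enc S E A2 a2) : Enc S E (kxq0_t12 A1 A2) (kxq0_v12 a1 a2) := enc_sub (kxq0_h6 h1 h2) (kxq0_h7 h1 h2)

def kxq0_t13 (A1 A2 : TM) : TM := tmul S (kxq0_t11 A1 A2) (kxq0_t12 A1 A2)

theorem kxq0_h13 (h1 : Enc S E A1 a1) (h2 : Enc S E A2 a2) : Enc S E (kxq0_t13 A1 A2) (kxq0_v13 a1 a2) := enc_mul hS (kxq0_h11 h1 h2) (kxq0_h12 h1 h2)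

def kxq0_t14 (A1 A2 : TM) : TM := tadd (kxq0_t7 A1 A2) (kxq0_t13 A1 A2)

theorem kxq0_h14 (h1 : Enc S E A1 a1) (h2 : Enc S E A2 a2) : Enc S E (kxq0_t14 A1 A2) (kxq0_v14 a1 a2) := enc_add (kxq0_h7 h1 h2) (kxq0_h13 h1 h2)

def kxq0_t15 (A1 A2 : TM) : TM := tcase (kxq0_t8 A1 A2) (kxq0_t6 A1 A2) (kxq0_t14 A1 A2)

theorem kxq0_h15 (h1 : Enc S E A1 a1) (h2 : Enc S E A2 a2) : Enc S E (kxq0_t15 A1 A2) (kxq0_v15 a1 a2) := enc_case hS (kxq0_h8 h1 h2) (kxq0_h6 h1 h2) (kxq0_h14 h1 h2)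

def kxq0_t (A1 A2 : TM) : TM := kxq0_t15 A1 A2

theorem kxq0_enc (h1 : Enc S E A1 a1) (h2 : Enc S E A2 a2) : Enc S E (kxq0_t A1 A2) (kxq0_v a1 a2) := kxq0_h15 h1 h2

def kxq1_t2 (_A1 A2 : TM) : TM := c1f_t (A2)

theorem kxq1_h2 (_h1 : Enc S E A1 a1) (h2 : Enc S E A2 a2) : Enc S E (kxq1_t2 A1 A2) (kxq1_v2 a1 a2) := c1f_enc (h2)

def kxq1_t3 (_A1 A2 : TM) : TM := f1m_t (A2)

theorem kxq1_h3 (_h1 : Enc S E A1 a1) (h2 : Enc S E A2 a2) : Enc S E (kxq1_t3 A1 A2) (kxq1_v3 a1 a2) := f1m_enc (h2)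

def kxq1_t6 (_A1 A2 : TM) : TM := rho1_t (A2)

theorem kxq1_h6 (_h1 : Enc S E A1 a1) (h2 : Enc S E A2 a2) : Enc S E (kxq1_t6 A1 A2) (kxq1_v6 a1 a2) := rho1_enc (h2)

def kxq1_t7 (_A1 A2 : TM) : TM := sgq1_t (A2)

theorem kxq1_h7 (_h1 : Enc S E A1 a1) (h2 : Enc S E A2 a2) : Enc S E (kxq1_t7 A1 A2) (kxq1_v7 a1 a2) := sgq1_enc (h2)

def kxq1_t8 (A1 A2 : TM) : TM := tsub (A1) (kxq1_t3 A1 A2)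

theorem kxq1_h8 (h1 : Enc S E A1 a1) (h2 : Enc S E A2 a2) : Enc S E (kxq1_t8 A1 A2) (kxq1_v8 a1 a2) := enc_sub (h1) (kxq1_h3 h1 h2)

def kxq1_t9 (A1 A2 : TM) : TM := tsub (kxq1_t3 A1 A2) (kxq1_t2 A1 A2)

theorem kxq1_h9 (h1 : Enc S E A1 a1) (h2 : Enc S E A2 a2) : Enc S E (kxq1_t9 A1 A2) (kxq1_v9 a1 a2) := enc_sub (kxq1_h3 h1 h2) (kxq1_h2 h1 h2)

def kxq1_t10 (A1 A2 : TM) : TM := tsub (A1) (kxq1_t2 A1 A2)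

theorem kxq1_h10 (h1 : Enc S E A1 a1) (h2 : Enc S E A2 a2) : Enc S E (kxq1_t10 A1 A2) (kxq1_v10 a1 a2) := enc_sub (h1) (kxq1_h2 h1 h2)

def kxq1_t11 (A1 A2 : TM) : TM := tlam S (kxq1_t9 A1 A2) (kxq1_t10 A1 A2)

theorem kxq1_h11 (h1 : Enc S E A1 a1) (h2 : Enc S E A2 a2) : Enc S E (kxq1_t11 A1 A2) (kxq1_v11 a1 a2) := enc_lam hS (kxq1_h9 h1 h2) (kxq1_h10 h1 h2)

def kxq1_t12 (A1 A2 : TM) : TM := tsub (kxq1_t6 A1 A2) (kxq1_t7 A1 A2)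

theorem kxq1_h12 (h1 : Enc S E A1 a1) (h2 : Enc S E A2 a2) : Enc S E (kxq1_t12 A1 A2) (kxq1_v12 a1 a2) := enc_sub (kxq1_h6 h1 h2) (kxq1_h7 h1 h2)

def kxq1_t13 (A1 A2 : TM) : TM := tmul S (kxq1_t11 A1 A2) (kxq1_t12 A1 A2)

theorem kxq1_h13 (h1 : Enc S E A1 a1) (h2 : Enc S E A2 a2) : Enc S E (kxq1_t13 A1 A2) (kxq1_v13 a1 a2) := enc_mul hS (kxq1_h11 h1 h2) (kxq1_h12 h1 h2)

def kxq1_t14 (A1 A2 : TM) : TM := tadd (kxq1_t7 A1 A2) (kxq1_t13 A1 A2)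

theorem kxq1_h14 (h1 : Enc S E A1 a1) (h2 : Enc S E A2 a2) : Enc S E (kxq1_t14 A1 A2) (kxq1_v14 a1 a2) := enc_add (kxq1_h7 h1 h2) (kxq1_h13 h1 h2)

def kxq1_t15 (A1 A2 : TM) : TM := tcase (kxq1_t8 A1 A2) (kxq1_t6 A1 A2) (kxq1_t14 A1 A2)

theorem kxq1_h15 (h1 : Enc S E A1 a1) (h2 : Enc S E A2 a2) : Enc S E (kxq1_t15 A1 A2) (kxq1_v15 a1 a2) := enc_case hS (kxq1_h8 h1 h2) (kxq1_h6 h1 h2) (kxq1_h14 h1 h2)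

def kxq1_t (A1 A2 : TM) : TM := kxq1_t15 A1 A2

theorem kxq1_enc (h1 : Enc S E A1 a1) (h2 : Enc S E A2 a2) : Enc S E (kxq1_t A1 A2) (kxq1_v a1 a2) := kxq1_h15 h1 h2

def kx2p_t2 (_A1 A2 : TM) : TM := c1f_t (A2)

theorem kx2p_h2 (_h1 : Enc S E A1 a1) (h2 : Enc S E A2 a2) : Enc S E (kx2p_t2 A1 A2) (kx2p_v2 a1 a2) := c1f_enc (h2)

def kx2p_t3 (_A1 A2 : TM) : TM := f1p_t (A2)

theorem kx2p_h3 (_h1 : Enc S E A1 a1) (h2 : Enc S E A2 a2) : Enc S E (kx2p_t3 A1 A2) (kx2p_v3 a1 a2) := f1p_enc (h2)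

def kx2p_t6 (_A1 A2 : TM) : TM := sgq2_t (A2)

theorem kx2p_h6 (_h1 : Enc S E A1 a1) (h2 : Enc S E A2 a2) : Enc S E (kx2p_t6 A1 A2) (kx2p_v6 a1 a2) := sgq2_enc (h2)

def kx2p_t7 (_A1 _A2 : TM) : TM := tconst (Nat.mul 1 S) 0 0

theorem kx2p_h7 (_h1 : Enc S E A1 a1) (_h2 : Enc S E A2 a2) : Enc S E (kx2p_t7 A1 A2) (kx2p_v7 a1 a2) := enc_nc E 1

def kx2p_t8 (A1 A2 : TM) : TM := tsub (kx2p_t6 A1 A2) (kx2p_t7 A1 A2)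

theorem kx2p_h8 (h1 : Enc S E A1 a1) (h2 : Enc S E A2 a2) : Enc S E (kx2p_t8 A1 A2) (kx2p_v8 a1 a2) := enc_sub (kx2p_h6 h1 h2) (kx2p_h7 h1 h2)

def kx2p_t9 (_A1 _A2 : TM) : TM := tconst 1859775393 0 1

theorem kx2p_h9 (_h1 : Enc S E A1 a1) (_h2 : Enc S E A2 a2) : Enc S E (kx2p_t9 A1 A2) (kx2p_v9 a1 a2) := enc_sqrtn E (by decide) (by decide)

def kx2p_t10 (A1 A2 : TM) : TM := tscale 1 2 (kx2p_t9 A1 A2)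

theorem kx2p_h10 (h1 : Enc S E A1 a1) (h2 : Enc S E A2 a2) : Enc S E (kx2p_t10 A1 A2) (kx2p_v10 a1 a2) := enc_scale 1 (by norm_num) (kx2p_h9 h1 h2)

def kx2p_t11 (A1 A2 : TM) : TM := tadd (A2) (kx2p_t10 A1 A2)

theorem kx2p_h11 (h1 : Enc S E A1 a1) (h2 : Enc S E A2 a2) : Enc S E (kx2p_t11 A1 A2) (kx2p_v11 a1 a2) := enc_add (h2) (kx2p_h10 h1 h2)

def kx2p_t12 (_A1 _A2 : TM) : TM := tconst (Nat.div (Nat.mul 1 S) 2) 0 1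

theorem kx2p_h12 (_h1 : Enc S E A1 a1) (_h2 : Enc S E A2 a2) : Enc S E (kx2p_t12 A1 A2) (kx2p_v12 a1 a2) := enc_rat E 1 (by norm_num)

def kx2p_t13 (A1 A2 : TM) : TM := tadd (kx2p_t12 A1 A2) (kx2p_t2 A1 A2)

theorem kx2p_h13 (h1 : Enc S E A1 a1) (h2 : Enc S E A2 a2) : Enc S E (kx2p_t13 A1 A2) (kx2p_v13 a1 a2) := enc_add (kx2p_h12 h1 h2) (kx2p_h2 h1 h2)

def kx2p_t14 (A1 A2 : TM) : TM := tinv S (kx2p_t13 A1 A2)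

theorem kx2p_h14 (h1 : Enc S E A1 a1) (h2 : Enc S E A2 a2) : Enc S E (kx2p_t14 A1 A2) (kx2p_v14 a1 a2) := enc_inv hS (kx2p_h13 h1 h2)

def kx2p_t15 (A1 A2 : TM) : TM := tmul S (kx2p_t11 A1 A2) (kx2p_t14 A1 A2)

theorem kx2p_h15 (h1 : Enc S E A1 a1) (h2 : Enc S E A2 a2) : Enc S E (kx2p_t15 A1 A2) (kx2p_v15 a1 a2) := enc_mul hS (kx2p_h11 h1 h2) (kx2p_h14 h1 h2)

def kx2p_t16 (A1 A2 : TM) : TM := tsub (A2) (kx2p_t10 A1 A2)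

theorem kx2p_h16 (h1 : Enc S E A1 a1) (h2 : Enc S E A2 a2) : Enc S E (kx2p_t16 A1 A2) (kx2p_v16 a1 a2) := enc_sub (h2) (kx2p_h10 h1 h2)

def kx2p_t17 (_A1 A2 : TM) : TM := sw_t (A2)

theorem kx2p_h17 (_h1 : Enc S E A1 a1) (h2 : Enc S E A2 a2) : Enc S E (kx2p_t17 A1 A2) (kx2p_v17 a1 a2) := sw_enc (h2)

def kx2p_t18 (A1 A2 : TM) : TM := tadd (kx2p_t7 A1 A2) (kx2p_t17 A1 A2)

theorem kx2p_h18 (h1 : Enc S E A1 a1) (h2 : Enc S E A2 a2) : Enc S E (kx2p_t18 A1 A2) (kx2p_v18 a1 a2) := enc_add (kx2p_h7 h1 h2) (kx2p_h17 h1 h2)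

def kx2p_t19 (A1 A2 : TM) : TM := tinv S (kx2p_t18 A1 A2)

theorem kx2p_h19 (h1 : Enc S E A1 a1) (h2 : Enc S E A2 a2) : Enc S E (kx2p_t19 A1 A2) (kx2p_v19 a1 a2) := enc_inv hS (kx2p_h18 h1 h2)

def kx2p_t20 (A1 A2 : TM) : TM := tmul S (kx2p_t16 A1 A2) (kx2p_t19 A1 A2)

theorem kx2p_h20 (h1 : Enc S E A1 a1) (h2 : Enc S E A2 a2) : Enc S E (kx2p_t20 A1 A2) (kx2p_v20 a1 a2) := enc_mul hS (kx2p_h16 h1 h2) (kx2p_h19 h1 h2)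

def kx2p_t21 (A1 A2 : TM) : TM := tsub (kx2p_t15 A1 A2) (kx2p_t20 A1 A2)

theorem kx2p_h21 (h1 : Enc S E A1 a1) (h2 : Enc S E A2 a2) : Enc S E (kx2p_t21 A1 A2) (kx2p_v21 a1 a2) := enc_sub (kx2p_h15 h1 h2) (kx2p_h20 h1 h2)

def kx2p_t22 (A1 A2 : TM) : TM := tscale 1 2 (kx2p_t21 A1 A2)

theorem kx2p_h22 (h1 : Enc S E A1 a1) (h2 : Enc S E A2 a2) : Enc S E (kx2p_t22 A1 A2) (kx2p_v22 a1 a2) := enc_scale 1 (by norm_num) (kx2p_h21 h1 h2)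

def kx2p_t24 (A1 A2 : TM) : TM := tscale 98 375 (kx2p_t9 A1 A2)

theorem kx2p_h24 (h1 : Enc S E A1 a1) (h2 : Enc S E A2 a2) : Enc S E (kx2p_t24 A1 A2) (kx2p_v24 a1 a2) := enc_scale 98 (by norm_num) (kx2p_h9 h1 h2)

def kx2p_t26 (A1 A2 : TM) : TM := tmul S (kx2p_t24 A1 A2) (kx2p_t3 A1 A2)

theorem kx2p_h26 (h1 : Enc S E A1 a1) (h2 : Enc S E A2 a2) : Enc S E (kx2p_t26 A1 A2) (kx2p_v26 a1 a2) := enc_mul hS (kx2p_h24 h1 h2) (kx2p_h3 h1 h2)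

def kx2p_t28 (A1 A2 : TM) : TM := tinv S (kx2p_t22 A1 A2)

theorem kx2p_h28 (h1 : Enc S E A1 a1) (h2 : Enc S E A2 a2) : Enc S E (kx2p_t28 A1 A2) (kx2p_v28 a1 a2) := enc_inv hS (kx2p_h22 h1 h2)

def kx2p_t29 (A1 A2 : TM) : TM := tmul S (kx2p_t26 A1 A2) (kx2p_t28 A1 A2)

theorem kx2p_h29 (h1 : Enc S E A1 a1) (h2 : Enc S E A2 a2) : Enc S E (kx2p_t29 A1 A2) (kx2p_v29 a1 a2) := enc_mul hS (kx2p_h26 h1 h2) (kx2p_h28 h1 h2)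

def kx2p_t30 (A1 A2 : TM) : TM := tneg (kx2p_t29 A1 A2)

theorem kx2p_h30 (h1 : Enc S E A1 a1) (h2 : Enc S E A2 a2) : Enc S E (kx2p_t30 A1 A2) (kx2p_v30 a1 a2) := enc_neg (kx2p_h29 h1 h2)

def kx2p_t31 (A1 A2 : TM) : TM := tsub (A1) (kx2p_t3 A1 A2)

theorem kx2p_h31 (h1 : Enc S E A1 a1) (h2 : Enc S E A2 a2) : Enc S E (kx2p_t31 A1 A2) (kx2p_v31 a1 a2) := enc_sub (h1) (kx2p_h3 h1 h2)

def kx2p_t32 (A1 A2 : TM) : TM := tsub (kx2p_t3 A1 A2) (kx2p_t2 A1 A2)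

theorem kx2p_h32 (h1 : Enc S E A1 a1) (h2 : Enc S E A2 a2) : Enc S E (kx2p_t32 A1 A2) (kx2p_v32 a1 a2) := enc_sub (kx2p_h3 h1 h2) (kx2p_h2 h1 h2)

def kx2p_t33 (A1 A2 : TM) : TM := tsub (A1) (kx2p_t2 A1 A2)

theorem kx2p_h33 (h1 : Enc S E A1 a1) (h2 : Enc S E A2 a2) : Enc S E (kx2p_t33 A1 A2) (kx2p_v33 a1 a2) := enc_sub (h1) (kx2p_h2 h1 h2)

def kx2p_t34 (A1 A2 : TM) : TM := tlam S (kx2p_t32 A1 A2) (kx2p_t33 A1 A2)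

theorem kx2p_h34 (h1 : Enc S E A1 a1) (h2 : Enc S E A2 a2) : Enc S E (kx2p_t34 A1 A2) (kx2p_v34 a1 a2) := enc_lam hS (kx2p_h32 h1 h2) (kx2p_h33 h1 h2)

def kx2p_t35 (A1 A2 : TM) : TM := tsub (kx2p_t30 A1 A2) (kx2p_t8 A1 A2)

theorem kx2p_h35 (h1 : Enc S E A1 a1) (h2 : Enc S E A2 a2) : Enc S E (kx2p_t35 A1 A2) (kx2p_v35 a1 a2) := enc_sub (kx2p_h30 h1 h2) (kx2p_h8 h1 h2)

def kx2p_t36 (A1 A2 : TM) : TM := tmul S (kx2p_t34 A1 A2) (kx2p_t35 A1 A2)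

theorem kx2p_h36 (h1 : Enc S E A1 a1) (h2 : Enc S E A2 a2) : Enc S E (kx2p_t36 A1 A2) (kx2p_v36 a1 a2) := enc_mul hS (kx2p_h34 h1 h2) (kx2p_h35 h1 h2)

def kx2p_t37 (A1 A2 : TM) : TM := tadd (kx2p_t8 A1 A2) (kx2p_t36 A1 A2)

theorem kx2p_h37 (h1 : Enc S E A1 a1) (h2 : Enc S E A2 a2) : Enc S E (kx2p_t37 A1 A2) (kx2p_v37 a1 a2) := enc_add (kx2p_h8 h1 h2) (kx2p_h36 h1 h2)

def kx2p_t38 (A1 A2 : TM) : TM := tcase (kx2p_t31 A1 A2) (kx2p_t30 A1 A2) (kx2p_t37 A1 A2)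

theorem kx2p_h38 (h1 : Enc S E A1 a1) (h2 : Enc S E A2 a2) : Enc S E (kx2p_t38 A1 A2) (kx2p_v38 a1 a2) := enc_case hS (kx2p_h31 h1 h2) (kx2p_h30 h1 h2) (kx2p_h37 h1 h2)

def kx2p_t39 (A1 A2 : TM) : TM := tadd (A1) (kx2p_t2 A1 A2)

theorem kx2p_h39 (h1 : Enc S E A1 a1) (h2 : Enc S E A2 a2) : Enc S E (kx2p_t39 A1 A2) (kx2p_v39 a1 a2) := enc_add (h1) (kx2p_h2 h1 h2)

def kx2p_t40 (A1 A2 : TM) : TM := tinv S (kx2p_t39 A1 A2)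

theorem kx2p_h40 (h1 : Enc S E A1 a1) (h2 : Enc S E A2 a2) : Enc S E (kx2p_t40 A1 A2) (kx2p_v40 a1 a2) := enc_inv hS (kx2p_h39 h1 h2)

def kx2p_t41 (A1 A2 : TM) : TM := tmul S (kx2p_t38 A1 A2) (kx2p_t40 A1 A2)

theorem kx2p_h41 (h1 : Enc S E A1 a1) (h2 : Enc S E A2 a2) : Enc S E (kx2p_t41 A1 A2) (kx2p_v41 a1 a2) := enc_mul hS (kx2p_h38 h1 h2) (kx2p_h40 h1 h2)

def kx2p_t42 (_A1 A2 : TM) : TM := b1q2_t (A2)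

theorem kx2p_h42 (_h1 : Enc S E A1 a1) (h2 : Enc S E A2 a2) : Enc S E (kx2p_t42 A1 A2) (kx2p_v42 a1 a2) := b1q2_enc (h2)

def kx2p_t43 (A1 A2 : TM) : TM := tsub (kx2p_t42 A1 A2) (kx2p_t7 A1 A2)

theorem kx2p_h43 (h1 : Enc S E A1 a1) (h2 : Enc S E A2 a2) : Enc S E (kx2p_t43 A1 A2) (kx2p_v43 a1 a2) := enc_sub (kx2p_h42 h1 h2) (kx2p_h7 h1 h2)

def kx2p_t44 (A1 A2 : TM) : TM := tmul S (kx2p_t3 A1 A2) (kx2p_t43 A1 A2)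

theorem kx2p_h44 (h1 : Enc S E A1 a1) (h2 : Enc S E A2 a2) : Enc S E (kx2p_t44 A1 A2) (kx2p_v44 a1 a2) := enc_mul hS (kx2p_h3 h1 h2) (kx2p_h43 h1 h2)

def kx2p_t45 (A1 A2 : TM) : TM := tinv S (kx2p_t32 A1 A2)

theorem kx2p_h45 (h1 : Enc S E A1 a1) (h2 : Enc S E A2 a2) : Enc S E (kx2p_t45 A1 A2) (kx2p_v45 a1 a2) := enc_inv hS (kx2p_h32 h1 h2)

def kx2p_t46 (A1 A2 : TM) : TM := tmul S (kx2p_t44 A1 A2) (kx2p_t45 A1 A2)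

theorem kx2p_h46 (h1 : Enc S E A1 a1) (h2 : Enc S E A2 a2) : Enc S E (kx2p_t46 A1 A2) (kx2p_v46 a1 a2) := enc_mul hS (kx2p_h44 h1 h2) (kx2p_h45 h1 h2)

def kx2p_t47 (A1 A2 : TM) : TM := tscale 9 16 (kx2p_t9 A1 A2)

theorem kx2p_h47 (h1 : Enc S E A1 a1) (h2 : Enc S E A2 a2) : Enc S E (kx2p_t47 A1 A2) (kx2p_v47 a1 a2) := enc_scale 9 (by norm_num) (kx2p_h9 h1 h2)

def kx2p_t48 (A1 A2 : TM) : TM := tsub (kx2p_t7 A1 A2) (kx2p_t47 A1 A2)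

theorem kx2p_h48 (h1 : Enc S E A1 a1) (h2 : Enc S E A2 a2) : Enc S E (kx2p_t48 A1 A2) (kx2p_v48 a1 a2) := enc_sub (kx2p_h7 h1 h2) (kx2p_h47 h1 h2)

def kx2p_t50 (A1 A2 : TM) : TM := tinv S (kx2p_t48 A1 A2)

theorem kx2p_h50 (h1 : Enc S E A1 a1) (h2 : Enc S E A2 a2) : Enc S E (kx2p_t50 A1 A2) (kx2p_v50 a1 a2) := enc_inv hS (kx2p_h48 h1 h2)

def kx2p_t51 (A1 A2 : TM) : TM := tscale 49 1000 (kx2p_t50 A1 A2)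

theorem kx2p_h51 (h1 : Enc S E A1 a1) (h2 : Enc S E A2 a2) : Enc S E (kx2p_t51 A1 A2) (kx2p_v51 a1 a2) := enc_scale 49 (by norm_num) (kx2p_h50 h1 h2)

def kx2p_t52 (A1 A2 : TM) : TM := tmul S (kx2p_t51 A1 A2) (kx2p_t2 A1 A2)

theorem kx2p_h52 (h1 : Enc S E A1 a1) (h2 : Enc S E A2 a2) : Enc S E (kx2p_t52 A1 A2) (kx2p_v52 a1 a2) := enc_mul hS (kx2p_h51 h1 h2) (kx2p_h2 h1 h2)

def kx2p_t53 (A1 A2 : TM) : TM := tlam S (kx2p_t2 A1 A2) (kx2p_t39 A1 A2)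

theorem kx2p_h53 (h1 : Enc S E A1 a1) (h2 : Enc S E A2 a2) : Enc S E (kx2p_t53 A1 A2) (kx2p_v53 a1 a2) := enc_lam hS (kx2p_h2 h1 h2) (kx2p_h39 h1 h2)

def kx2p_t54 (A1 A2 : TM) : TM := tmul S (kx2p_t52 A1 A2) (kx2p_t53 A1 A2)

theorem kx2p_h54 (h1 : Enc S E A1 a1) (h2 : Enc S E A2 a2) : Enc S E (kx2p_t54 A1 A2) (kx2p_v54 a1 a2) := enc_mul hS (kx2p_h52 h1 h2) (kx2p_h53 h1 h2)

def kx2p_t55 (A1 A2 : TM) : TM := tmul S (kx2p_t54 A1 A2) (kx2p_t3 A1 A2)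

theorem kx2p_h55 (h1 : Enc S E A1 a1) (h2 : Enc S E A2 a2) : Enc S E (kx2p_t55 A1 A2) (kx2p_v55 a1 a2) := enc_mul hS (kx2p_h54 h1 h2) (kx2p_h3 h1 h2)

def kx2p_t57 (A1 A2 : TM) : TM := tadd (kx2p_t7 A1 A2) (A2)

theorem kx2p_h57 (h1 : Enc S E A1 a1) (h2 : Enc S E A2 a2) : Enc S E (kx2p_t57 A1 A2) (kx2p_v57 a1 a2) := enc_add (kx2p_h7 h1 h2) (h2)

def kx2p_t58 (A1 A2 : TM) : TM := tmul S (kx2p_t57 A1 A2) (kx2p_t32 A1 A2)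

theorem kx2p_h58 (h1 : Enc S E A1 a1) (h2 : Enc S E A2 a2) : Enc S E (kx2p_t58 A1 A2) (kx2p_v58 a1 a2) := enc_mul hS (kx2p_h57 h1 h2) (kx2p_h32 h1 h2)

def kx2p_t59 (A1 A2 : TM) : TM := tinv S (kx2p_t58 A1 A2)

theorem kx2p_h59 (h1 : Enc S E A1 a1) (h2 : Enc S E A2 a2) : Enc S E (kx2p_t59 A1 A2) (kx2p_v59 a1 a2) := enc_inv hS (kx2p_h58 h1 h2)

def kx2p_t60 (A1 A2 : TM) : TM := tmul S (kx2p_t55 A1 A2) (kx2p_t59 A1 A2)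

theorem kx2p_h60 (h1 : Enc S E A1 a1) (h2 : Enc S E A2 a2) : Enc S E (kx2p_t60 A1 A2) (kx2p_v60 a1 a2) := enc_mul hS (kx2p_h55 h1 h2) (kx2p_h59 h1 h2)

def kx2p_t61 (A1 A2 : TM) : TM := tneg (kx2p_t60 A1 A2)

theorem kx2p_h61 (h1 : Enc S E A1 a1) (h2 : Enc S E A2 a2) : Enc S E (kx2p_t61 A1 A2) (kx2p_v61 a1 a2) := enc_neg (kx2p_h60 h1 h2)

def kx2p_t62 (A1 A2 : TM) : TM := tsub (kx2p_t46 A1 A2) (kx2p_t8 A1 A2)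

theorem kx2p_h62 (h1 : Enc S E A1 a1) (h2 : Enc S E A2 a2) : Enc S E (kx2p_t62 A1 A2) (kx2p_v62 a1 a2) := enc_sub (kx2p_h46 h1 h2) (kx2p_h8 h1 h2)

def kx2p_t63 (A1 A2 : TM) : TM := tmul S (kx2p_t34 A1 A2) (kx2p_t62 A1 A2)

theorem kx2p_h63 (h1 : Enc S E A1 a1) (h2 : Enc S E A2 a2) : Enc S E (kx2p_t63 A1 A2) (kx2p_v63 a1 a2) := enc_mul hS (kx2p_h34 h1 h2) (kx2p_h62 h1 h2)

def kx2p_t64 (A1 A2 : TM) : TM := tadd (kx2p_t8 A1 A2) (kx2p_t63 A1 A2)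

theorem kx2p_h64 (h1 : Enc S E A1 a1) (h2 : Enc S E A2 a2) : Enc S E (kx2p_t64 A1 A2) (kx2p_v64 a1 a2) := enc_add (kx2p_h8 h1 h2) (kx2p_h63 h1 h2)

def kx2p_t65 (A1 A2 : TM) : TM := tmul S (kx2p_t64 A1 A2) (kx2p_t40 A1 A2)

theorem kx2p_h65 (h1 : Enc S E A1 a1) (h2 : Enc S E A2 a2) : Enc S E (kx2p_t65 A1 A2) (kx2p_v65 a1 a2) := enc_mul hS (kx2p_h64 h1 h2) (kx2p_h40 h1 h2)

def kx2p_t66 (A1 A2 : TM) : TM := tcase (kx2p_t31 A1 A2) (kx2p_t61 A1 A2) (kx2p_t65 A1 A2)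

theorem kx2p_h66 (h1 : Enc S E A1 a1) (h2 : Enc S E A2 a2) : Enc S E (kx2p_t66 A1 A2) (kx2p_v66 a1 a2) := enc_case hS (kx2p_h31 h1 h2) (kx2p_h61 h1 h2) (kx2p_h65 h1 h2)

def kx2p_t67 (A1 A2 : TM) : TM := tscale 3 4 (kx2p_t9 A1 A2)

theorem kx2p_h67 (h1 : Enc S E A1 a1) (h2 : Enc S E A2 a2) : Enc S E (kx2p_t67 A1 A2) (kx2p_v67 a1 a2) := enc_scale 3 (by norm_num) (kx2p_h9 h1 h2)

def kx2p_t68 (A1 A2 : TM) : TM := tsub (kx2p_t67 A1 A2) (kx2p_t7 A1 A2)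

theorem kx2p_h68 (h1 : Enc S E A1 a1) (h2 : Enc S E A2 a2) : Enc S E (kx2p_t68 A1 A2) (kx2p_v68 a1 a2) := enc_sub (kx2p_h67 h1 h2) (kx2p_h7 h1 h2)

def kx2p_t70 (A1 A2 : TM) : TM := tinv S (kx2p_t68 A1 A2)

theorem kx2p_h70 (h1 : Enc S E A1 a1) (h2 : Enc S E A2 a2) : Enc S E (kx2p_t70 A1 A2) (kx2p_v70 a1 a2) := enc_inv hS (kx2p_h68 h1 h2)

def kx2p_t71 (A1 A2 : TM) : TM := tscale 1033 1000 (kx2p_t70 A1 A2)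

theorem kx2p_h71 (h1 : Enc S E A1 a1) (h2 : Enc S E A2 a2) : Enc S E (kx2p_t71 A1 A2) (kx2p_v71 a1 a2) := enc_scale 1033 (by norm_num) (kx2p_h70 h1 h2)

def kx2p_t72 (A1 _A2 : TM) : TM := tsq S (A1)

theorem kx2p_h72 (h1 : Enc S E A1 a1) (_h2 : Enc S E A2 a2) : Enc S E (kx2p_t72 A1 A2) (kx2p_v72 a1 a2) := enc_sq hS (h1)

def kx2p_t73 (_A1 A2 : TM) : TM := tsq S (A2)

theorem kx2p_h73 (_h1 : Enc S E A1 a1) (h2 : Enc S E A2 a2) : Enc S E (kx2p_t73 A1 A2) (kx2p_v73 a1 a2) := enc_sq hS (h2)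

def kx2p_t74 (A1 A2 : TM) : TM := tadd (kx2p_t72 A1 A2) (kx2p_t73 A1 A2)

theorem kx2p_h74 (h1 : Enc S E A1 a1) (h2 : Enc S E A2 a2) : Enc S E (kx2p_t74 A1 A2) (kx2p_v74 a1 a2) := enc_add (kx2p_h72 h1 h2) (kx2p_h73 h1 h2)

def kx2p_t75 (A1 A2 : TM) : TM := tsub (kx2p_t74 A1 A2) (kx2p_t7 A1 A2)

theorem kx2p_h75 (h1 : Enc S E A1 a1) (h2 : Enc S E A2 a2) : Enc S E (kx2p_t75 A1 A2) (kx2p_v75 a1 a2) := enc_sub (kx2p_h74 h1 h2) (kx2p_h7 h1 h2)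

def kx2p_t76 (A1 A2 : TM) : TM := tmul S (kx2p_t71 A1 A2) (A1)

theorem kx2p_h76 (h1 : Enc S E A1 a1) (h2 : Enc S E A2 a2) : Enc S E (kx2p_t76 A1 A2) (kx2p_v76 a1 a2) := enc_mul hS (kx2p_h71 h1 h2) (h1)

def kx2p_t77 (A1 A2 : TM) : TM := tsub (kx2p_t73 A1 A2) (kx2p_t7 A1 A2)

theorem kx2p_h77 (h1 : Enc S E A1 a1) (h2 : Enc S E A2 a2) : Enc S E (kx2p_t77 A1 A2) (kx2p_v77 a1 a2) := enc_sub (kx2p_h73 h1 h2) (kx2p_h7 h1 h2)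

def kx2p_t78 (A1 A2 : TM) : TM := tlam S (kx2p_t77 A1 A2) (kx2p_t75 A1 A2)

theorem kx2p_h78 (h1 : Enc S E A1 a1) (h2 : Enc S E A2 a2) : Enc S E (kx2p_t78 A1 A2) (kx2p_v78 a1 a2) := enc_lam hS (kx2p_h77 h1 h2) (kx2p_h75 h1 h2)

def kx2p_t79 (A1 A2 : TM) : TM := tmul S (kx2p_t76 A1 A2) (kx2p_t78 A1 A2)

theorem kx2p_h79 (h1 : Enc S E A1 a1) (h2 : Enc S E A2 a2) : Enc S E (kx2p_t79 A1 A2) (kx2p_v79 a1 a2) := enc_mul hS (kx2p_h76 h1 h2) (kx2p_h78 h1 h2)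

def kx2p_t81 (A1 A2 : TM) : TM := tinv S (kx2p_t57 A1 A2)

theorem kx2p_h81 (h1 : Enc S E A1 a1) (h2 : Enc S E A2 a2) : Enc S E (kx2p_t81 A1 A2) (kx2p_v81 a1 a2) := enc_inv hS (kx2p_h57 h1 h2)

def kx2p_t82 (A1 A2 : TM) : TM := tmul S (kx2p_t79 A1 A2) (kx2p_t81 A1 A2)

theorem kx2p_h82 (h1 : Enc S E A1 a1) (h2 : Enc S E A2 a2) : Enc S E (kx2p_t82 A1 A2) (kx2p_v82 a1 a2) := enc_mul hS (kx2p_h79 h1 h2) (kx2p_h81 h1 h2)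

def kx2p_t83 (A1 A2 : TM) : TM := tneg (kx2p_t82 A1 A2)

theorem kx2p_h83 (h1 : Enc S E A1 a1) (h2 : Enc S E A2 a2) : Enc S E (kx2p_t83 A1 A2) (kx2p_v83 a1 a2) := enc_neg (kx2p_h82 h1 h2)

def kx2p_t84 (A1 A2 : TM) : TM := tmul S (kx2p_t3 A1 A2) (kx2p_t42 A1 A2)

theorem kx2p_h84 (h1 : Enc S E A1 a1) (h2 : Enc S E A2 a2) : Enc S E (kx2p_t84 A1 A2) (kx2p_v84 a1 a2) := enc_mul hS (kx2p_h3 h1 h2) (kx2p_h42 h1 h2)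

def kx2p_t85 (A1 A2 : TM) : TM := tadd (kx2p_t8 A1 A2) (kx2p_t7 A1 A2)

theorem kx2p_h85 (h1 : Enc S E A1 a1) (h2 : Enc S E A2 a2) : Enc S E (kx2p_t85 A1 A2) (kx2p_v85 a1 a2) := enc_add (kx2p_h8 h1 h2) (kx2p_h7 h1 h2)

def kx2p_t86 (A1 A2 : TM) : TM := tmul S (kx2p_t31 A1 A2) (kx2p_t85 A1 A2)

theorem kx2p_h86 (h1 : Enc S E A1 a1) (h2 : Enc S E A2 a2) : Enc S E (kx2p_t86 A1 A2) (kx2p_v86 a1 a2) := enc_mul hS (kx2p_h31 h1 h2) (kx2p_h85 h1 h2)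

def kx2p_t87 (A1 A2 : TM) : TM := tadd (kx2p_t84 A1 A2) (kx2p_t86 A1 A2)

theorem kx2p_h87 (h1 : Enc S E A1 a1) (h2 : Enc S E A2 a2) : Enc S E (kx2p_t87 A1 A2) (kx2p_v87 a1 a2) := enc_add (kx2p_h84 h1 h2) (kx2p_h86 h1 h2)

def kx2p_t88 (A1 A2 : TM) : TM := tsub (kx2p_t87 A1 A2) (A1)

theorem kx2p_h88 (h1 : Enc S E A1 a1) (h2 : Enc S E A2 a2) : Enc S E (kx2p_t88 A1 A2) (kx2p_v88 a1 a2) := enc_sub (kx2p_h87 h1 h2) (h1)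

def kx2p_t89 (A1 A2 : TM) : TM := tinv S (kx2p_t75 A1 A2)

theorem kx2p_h89 (h1 : Enc S E A1 a1) (h2 : Enc S E A2 a2) : Enc S E (kx2p_t89 A1 A2) (kx2p_v89 a1 a2) := enc_inv hS (kx2p_h75 h1 h2)

def kx2p_t90 (A1 A2 : TM) : TM := tmul S (kx2p_t88 A1 A2) (kx2p_t89 A1 A2)

theorem kx2p_h90 (h1 : Enc S E A1 a1) (h2 : Enc S E A2 a2) : Enc S E (kx2p_t90 A1 A2) (kx2p_v90 a1 a2) := enc_mul hS (kx2p_h88 h1 h2) (kx2p_h89 h1 h2)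

def kx2p_t91 (A1 A2 : TM) : TM := tcase (kx2p_t31 A1 A2) (kx2p_t83 A1 A2) (kx2p_t90 A1 A2)

theorem kx2p_h91 (h1 : Enc S E A1 a1) (h2 : Enc S E A2 a2) : Enc S E (kx2p_t91 A1 A2) (kx2p_v91 a1 a2) := enc_case hS (kx2p_h31 h1 h2) (kx2p_h83 h1 h2) (kx2p_h90 h1 h2)

def kx2p_t92 (A1 A2 : TM) : TM := tsub (A2) (kx2p_t7 A1 A2)

theorem kx2p_h92 (h1 : Enc S E A1 a1) (h2 : Enc S E A2 a2) : Enc S E (kx2p_t92 A1 A2) (kx2p_v92 a1 a2) := enc_sub (h2) (kx2p_h7 h1 h2)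

def kx2p_t93 (A1 A2 : TM) : TM := tsub (A2) (kx2p_t47 A1 A2)

theorem kx2p_h93 (h1 : Enc S E A1 a1) (h2 : Enc S E A2 a2) : Enc S E (kx2p_t93 A1 A2) (kx2p_v93 a1 a2) := enc_sub (h2) (kx2p_h47 h1 h2)

def kx2p_t94 (A1 A2 : TM) : TM := tcase (kx2p_t93 A1 A2) (kx2p_t41 A1 A2) (kx2p_t66 A1 A2)

theorem kx2p_h94 (h1 : Enc S E A1 a1) (h2 : Enc S E A2 a2) : Enc S E (kx2p_t94 A1 A2) (kx2p_v94 a1 a2) := enc_case hS (kx2p_h93 h1 h2) (kx2p_h41 h1 h2) (kx2p_h66 h1 h2)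

def kx2p_t95 (A1 A2 : TM) : TM := tcase (kx2p_t92 A1 A2) (kx2p_t94 A1 A2) (kx2p_t91 A1 A2)

theorem kx2p_h95 (h1 : Enc S E A1 a1) (h2 : Enc S E A2 a2) : Enc S E (kx2p_t95 A1 A2) (kx2p_v95 a1 a2) := enc_case hS (kx2p_h92 h1 h2) (kx2p_h94 h1 h2) (kx2p_h91 h1 h2)

def kx2p_t (A1 A2 : TM) : TM := kx2p_t95 A1 A2

theorem kx2p_enc (h1 : Enc S E A1 a1) (h2 : Enc S E A2 a2) : Enc S E (kx2p_t A1 A2) (kx2p_v a1 a2) := kx2p_h95 h1 h2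

def kx2_t2 (A1 _A2 : TM) : TM := tneg (A1)

theorem kx2_h2 (h1 : Enc S E A1 a1) (_h2 : Enc S E A2 a2) : Enc S E (kx2_t2 A1 A2) (kx2_v2 a1 a2) := enc_neg (h1)

def kx2_t3 (A1 A2 : TM) : TM := kx2p_t (kx2_t2 A1 A2) (A2)

theorem kx2_h3 (h1 : Enc S E A1 a1) (h2 : Enc S E A2 a2) : Enc S E (kx2_t3 A1 A2) (kx2_v3 a1 a2) := kx2p_enc (kx2_h2 h1 h2) (h2)

def kx2_t4 (A1 A2 : TM) : TM := tneg (kx2_t3 A1 A2)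

theorem kx2_h4 (h1 : Enc S E A1 a1) (h2 : Enc S E A2 a2) : Enc S E (kx2_t4 A1 A2) (kx2_v4 a1 a2) := enc_neg (kx2_h3 h1 h2)

def kx2_t5 (A1 A2 : TM) : TM := kx2p_t (A1) (A2)

theorem kx2_h5 (h1 : Enc S E A1 a1) (h2 : Enc S E A2 a2) : Enc S E (kx2_t5 A1 A2) (kx2_v5 a1 a2) := kx2p_enc (h1) (h2)

def kx2_t6 (A1 A2 : TM) : TM := tcase (A1) (kx2_t4 A1 A2) (kx2_t5 A1 A2)

theorem kx2_h6 (h1 : Enc S E A1 a1) (h2 : Enc S E A2 a2) : Enc S E (kx2_t6 A1 A2) (kx2_v6 a1 a2) := enc_case hS (h1) (kx2_h4 h1 h2) (kx2_h5 h1 h2)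

def kx2_t (A1 A2 : TM) : TM := kx2_t6 A1 A2

theorem kx2_enc (h1 : Enc S E A1 a1) (h2 : Enc S E A2 a2) : Enc S E (kx2_t A1 A2) (kx2_v a1 a2) := kx2_h6 h1 h2

def s3q0_t1 (A1 : TM) : TM := a3q0_t (A1)

theorem s3q0_h1 (h1 : Enc S E A1 a1) : Enc S E (s3q0_t1 A1) (s3q0_v1 a1) := a3q0_enc (h1)

def s3q0_t2 (A1 : TM) : TM := v2q0_t (A1)

theorem s3q0_h2 (h1 : Enc S E A1 a1) : Enc S E (s3q0_t2 A1) (s3q0_v2 a1) := v2q0_enc (h1)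

def s3q0_t3 (A1 : TM) : TM := tsub (s3q0_t1 A1) (s3q0_t2 A1)

theorem s3q0_h3 (h1 : Enc S E A1 a1) : Enc S E (s3q0_t3 A1) (s3q0_v3 a1) := enc_sub (s3q0_h1 h1) (s3q0_h2 h1)

def s3q0_t6 (A1 : TM) : TM := f2m_t (A1)

theorem s3q0_h6 (h1 : Enc S E A1 a1) : Enc S E (s3q0_t6 A1) (s3q0_v6 a1) := f2m_enc (h1)

def s3q0_t7 (A1 : TM) : TM := c3f_t (A1)

theorem s3q0_h7 (h1 : Enc S E A1 a1) : Enc S E (s3q0_t7 A1) (s3q0_v7 a1) := c3f_enc (h1)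

def s3q0_t8 (A1 : TM) : TM := tsub (s3q0_t7 A1) (s3q0_t6 A1)

theorem s3q0_h8 (h1 : Enc S E A1 a1) : Enc S E (s3q0_t8 A1) (s3q0_v8 a1) := enc_sub (s3q0_h7 h1) (s3q0_h6 h1)

def s3q0_t9 (A1 : TM) : TM := tinv S (s3q0_t8 A1)

theorem s3q0_h9 (h1 : Enc S E A1 a1) : Enc S E (s3q0_t9 A1) (s3q0_v9 a1) := enc_inv hS (s3q0_h8 h1)

def s3q0_t10 (A1 : TM) : TM := tmul S (s3q0_t3 A1) (s3q0_t9 A1)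

theorem s3q0_h10 (h1 : Enc S E A1 a1) : Enc S E (s3q0_t10 A1) (s3q0_v10 a1) := enc_mul hS (s3q0_h3 h1) (s3q0_h9 h1)

def s3q0_t (A1 : TM) : TM := s3q0_t10 A1

theorem s3q0_enc (h1 : Enc S E A1 a1) : Enc S E (s3q0_t A1) (s3q0_v a1) := s3q0_h10 h1

def s3q1_t4 (A1 : TM) : TM := c3f_t (A1)

theorem s3q1_h4 (h1 : Enc S E A1 a1) : Enc S E (s3q1_t4 A1) (s3q1_v4 a1) := c3f_enc (h1)

def s3q1_t5 (_A1 : TM) : TM := tconst 1859775393 0 1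

theorem s3q1_h5 (_h1 : Enc S E A1 a1) : Enc S E (s3q1_t5 A1) (s3q1_v5 a1) := enc_sqrtn E (by decide) (by decide)

def s3q1_t6 (A1 : TM) : TM := tscale 1 2 (s3q1_t5 A1)

theorem s3q1_h6 (h1 : Enc S E A1 a1) : Enc S E (s3q1_t6 A1) (s3q1_v6 a1) := enc_scale 1 (by norm_num) (s3q1_h5 h1)

def s3q1_t7 (A1 : TM) : TM := b2q1_t (A1)

theorem s3q1_h7 (h1 : Enc S E A1 a1) : Enc S E (s3q1_t7 A1) (s3q1_v7 a1) := b2q1_enc (h1)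

def s3q1_t8 (A1 : TM) : TM := tadd (s3q1_t6 A1) (A1)

theorem s3q1_h8 (h1 : Enc S E A1 a1) : Enc S E (s3q1_t8 A1) (s3q1_v8 a1) := enc_add (s3q1_h6 h1) (h1)

def s3q1_t9 (_A1 : TM) : TM := tconst (Nat.div (Nat.mul 3 S) 2) 0 1

theorem s3q1_h9 (_h1 : Enc S E A1 a1) : Enc S E (s3q1_t9 A1) (s3q1_v9 a1) := enc_rat E 3 (by norm_num)

def s3q1_t10 (A1 : TM) : TM := tadd (s3q1_t4 A1) (s3q1_t9 A1)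

theorem s3q1_h10 (h1 : Enc S E A1 a1) : Enc S E (s3q1_t10 A1) (s3q1_v10 a1) := enc_add (s3q1_h4 h1) (s3q1_h9 h1)

def s3q1_t11 (A1 : TM) : TM := tinv S (s3q1_t10 A1)

theorem s3q1_h11 (h1 : Enc S E A1 a1) : Enc S E (s3q1_t11 A1) (s3q1_v11 a1) := enc_inv hS (s3q1_h10 h1)

def s3q1_t12 (A1 : TM) : TM := tmul S (s3q1_t8 A1) (s3q1_t11 A1)

theorem s3q1_h12 (h1 : Enc S E A1 a1) : Enc S E (s3q1_t12 A1) (s3q1_v12 a1) := enc_mul hS (s3q1_h8 h1) (s3q1_h11 h1)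

def s3q1_t13 (A1 : TM) : TM := tsub (s3q1_t6 A1) (A1)

theorem s3q1_h13 (h1 : Enc S E A1 a1) : Enc S E (s3q1_t13 A1) (s3q1_v13 a1) := enc_sub (s3q1_h6 h1) (h1)

def s3q1_t14 (A1 : TM) : TM := sw_t (A1)

theorem s3q1_h14 (h1 : Enc S E A1 a1) : Enc S E (s3q1_t14 A1) (s3q1_v14 a1) := sw_enc (h1)

def s3q1_t15 (_A1 : TM) : TM := tconst (Nat.mul 1 S) 0 0

theorem s3q1_h15 (_h1 : Enc S E A1 a1) : Enc S E (s3q1_t15 A1) (s3q1_v15 a1) := enc_nc E 1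

def s3q1_t16 (A1 : TM) : TM := tadd (s3q1_t15 A1) (s3q1_t14 A1)

theorem s3q1_h16 (h1 : Enc S E A1 a1) : Enc S E (s3q1_t16 A1) (s3q1_v16 a1) := enc_add (s3q1_h15 h1) (s3q1_h14 h1)

def s3q1_t17 (A1 : TM) : TM := tinv S (s3q1_t16 A1)

theorem s3q1_h17 (h1 : Enc S E A1 a1) : Enc S E (s3q1_t17 A1) (s3q1_v17 a1) := enc_inv hS (s3q1_h16 h1)

def s3q1_t18 (A1 : TM) : TM := tmul S (s3q1_t13 A1) (s3q1_t17 A1)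

theorem s3q1_h18 (h1 : Enc S E A1 a1) : Enc S E (s3q1_t18 A1) (s3q1_v18 a1) := enc_mul hS (s3q1_h13 h1) (s3q1_h17 h1)

def s3q1_t19 (A1 : TM) : TM := tadd (s3q1_t12 A1) (s3q1_t18 A1)

theorem s3q1_h19 (h1 : Enc S E A1 a1) : Enc S E (s3q1_t19 A1) (s3q1_v19 a1) := enc_add (s3q1_h12 h1) (s3q1_h18 h1)

def s3q1_t20 (A1 : TM) : TM := tscale 1 2 (s3q1_t19 A1)

theorem s3q1_h20 (h1 : Enc S E A1 a1) : Enc S E (s3q1_t20 A1) (s3q1_v20 a1) := enc_scale 1 (by norm_num) (s3q1_h19 h1)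

def s3q1_t21 (A1 : TM) : TM := tmul S (s3q1_t6 A1) (s3q1_t8 A1)

theorem s3q1_h21 (h1 : Enc S E A1 a1) : Enc S E (s3q1_t21 A1) (s3q1_v21 a1) := enc_mul hS (s3q1_h6 h1) (s3q1_h8 h1)

def s3q1_t22 (A1 : TM) : TM := tmul S (s3q1_t21 A1) (s3q1_t11 A1)

theorem s3q1_h22 (h1 : Enc S E A1 a1) : Enc S E (s3q1_t22 A1) (s3q1_v22 a1) := enc_mul hS (s3q1_h21 h1) (s3q1_h11 h1)

def s3q1_t23 (A1 : TM) : TM := tadd (s3q1_t9 A1) (s3q1_t22 A1)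

theorem s3q1_h23 (h1 : Enc S E A1 a1) : Enc S E (s3q1_t23 A1) (s3q1_v23 a1) := enc_add (s3q1_h9 h1) (s3q1_h22 h1)

def s3q1_t24 (A1 : TM) : TM := tadd (A1) (s3q1_t6 A1)

theorem s3q1_h24 (h1 : Enc S E A1 a1) : Enc S E (s3q1_t24 A1) (s3q1_v24 a1) := enc_add (h1) (s3q1_h6 h1)

def s3q1_t25 (A1 : TM) : TM := tinv S (s3q1_t24 A1)

theorem s3q1_h25 (h1 : Enc S E A1 a1) : Enc S E (s3q1_t25 A1) (s3q1_v25 a1) := enc_inv hS (s3q1_h24 h1)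

def s3q1_t26 (A1 : TM) : TM := tmul S (s3q1_t23 A1) (s3q1_t25 A1)

theorem s3q1_h26 (h1 : Enc S E A1 a1) : Enc S E (s3q1_t26 A1) (s3q1_v26 a1) := enc_mul hS (s3q1_h23 h1) (s3q1_h25 h1)

def s3q1_t28 (A1 : TM) : TM := tscale 167 250 (s3q1_t4 A1)

theorem s3q1_h28 (h1 : Enc S E A1 a1) : Enc S E (s3q1_t28 A1) (s3q1_v28 a1) := enc_scale 167 (by norm_num) (s3q1_h4 h1)

def s3q1_t29 (A1 : TM) : TM := tinv S (s3q1_t6 A1)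

theorem s3q1_h29 (h1 : Enc S E A1 a1) : Enc S E (s3q1_t29 A1) (s3q1_v29 a1) := enc_inv hS (s3q1_h6 h1)

def s3q1_t30 (A1 : TM) : TM := tmul S (s3q1_t28 A1) (s3q1_t29 A1)

theorem s3q1_h30 (h1 : Enc S E A1 a1) : Enc S E (s3q1_t30 A1) (s3q1_v30 a1) := enc_mul hS (s3q1_h28 h1) (s3q1_h29 h1)

def s3q1_t31 (A1 : TM) : TM := tsub (s3q1_t30 A1) (s3q1_t26 A1)

theorem s3q1_h31 (h1 : Enc S E A1 a1) : Enc S E (s3q1_t31 A1) (s3q1_v31 a1) := enc_sub (s3q1_h30 h1) (s3q1_h26 h1)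

def s3q1_t32 (A1 : TM) : TM := tinv S (s3q1_t20 A1)

theorem s3q1_h32 (h1 : Enc S E A1 a1) : Enc S E (s3q1_t32 A1) (s3q1_v32 a1) := enc_inv hS (s3q1_h20 h1)

def s3q1_t33 (A1 : TM) : TM := tmul S (s3q1_t31 A1) (s3q1_t32 A1)

theorem s3q1_h33 (h1 : Enc S E A1 a1) : Enc S E (s3q1_t33 A1) (s3q1_v33 a1) := enc_mul hS (s3q1_h31 h1) (s3q1_h32 h1)

def s3q1_t34 (A1 : TM) : TM := tadd (s3q1_t7 A1) (s3q1_t33 A1)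

theorem s3q1_h34 (h1 : Enc S E A1 a1) : Enc S E (s3q1_t34 A1) (s3q1_v34 a1) := enc_add (s3q1_h7 h1) (s3q1_h33 h1)

def s3q1_t (A1 : TM) : TM := s3q1_t34 A1

theorem s3q1_enc (h1 : Enc S E A1 a1) : Enc S E (s3q1_t A1) (s3q1_v a1) := s3q1_h34 h1

def s3q2_t1 (A1 : TM) : TM := a3q2_t (A1)

theorem s3q2_h1 (h1 : Enc S E A1 a1) : Enc S E (s3q2_t1 A1) (s3q2_v1 a1) := a3q2_enc (h1)

def s3q2_t2 (A1 : TM) : TM := v2q2_t (A1)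

theorem s3q2_h2 (h1 : Enc S E A1 a1) : Enc S E (s3q2_t2 A1) (s3q2_v2 a1) := v2q2_enc (h1)

def s3q2_t3 (A1 : TM) : TM := tsub (s3q2_t1 A1) (s3q2_t2 A1)

theorem s3q2_h3 (h1 : Enc S E A1 a1) : Enc S E (s3q2_t3 A1) (s3q2_v3 a1) := enc_sub (s3q2_h1 h1) (s3q2_h2 h1)

def s3q2_t6 (A1 : TM) : TM := f2p_t (A1)

theorem s3q2_h6 (h1 : Enc S E A1 a1) : Enc S E (s3q2_t6 A1) (s3q2_v6 a1) := f2p_enc (h1)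

def s3q2_t7 (A1 : TM) : TM := c3f_t (A1)

theorem s3q2_h7 (h1 : Enc S E A1 a1) : Enc S E (s3q2_t7 A1) (s3q2_v7 a1) := c3f_enc (h1)

def s3q2_t8 (A1 : TM) : TM := tsub (s3q2_t7 A1) (s3q2_t6 A1)

theorem s3q2_h8 (h1 : Enc S E A1 a1) : Enc S E (s3q2_t8 A1) (s3q2_v8 a1) := enc_sub (s3q2_h7 h1) (s3q2_h6 h1)

def s3q2_t9 (A1 : TM) : TM := tinv S (s3q2_t8 A1)

theorem s3q2_h9 (h1 : Enc S E A1 a1) : Enc S E (s3q2_t9 A1) (s3q2_v9 a1) := enc_inv hS (s3q2_h8 h1)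

def s3q2_t10 (A1 : TM) : TM := tmul S (s3q2_t3 A1) (s3q2_t9 A1)

theorem s3q2_h10 (h1 : Enc S E A1 a1) : Enc S E (s3q2_t10 A1) (s3q2_v10 a1) := enc_mul hS (s3q2_h3 h1) (s3q2_h9 h1)

def s3q2_t (A1 : TM) : TM := s3q2_t10 A1

theorem s3q2_enc (h1 : Enc S E A1 a1) : Enc S E (s3q2_t A1) (s3q2_v a1) := s3q2_h10 h1

def s3q3_t1 (A1 : TM) : TM := a3q3_t (A1)

theorem s3q3_h1 (h1 : Enc S E A1 a1) : Enc S E (s3q3_t1 A1) (s3q3_v1 a1) := a3q3_enc (h1)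

def s3q3_t2 (A1 : TM) : TM := v2q3_t (A1)

theorem s3q3_h2 (h1 : Enc S E A1 a1) : Enc S E (s3q3_t2 A1) (s3q3_v2 a1) := v2q3_enc (h1)

def s3q3_t3 (A1 : TM) : TM := tsub (s3q3_t1 A1) (s3q3_t2 A1)

theorem s3q3_h3 (h1 : Enc S E A1 a1) : Enc S E (s3q3_t3 A1) (s3q3_v3 a1) := enc_sub (s3q3_h1 h1) (s3q3_h2 h1)

def s3q3_t6 (A1 : TM) : TM := f2p_t (A1)

theorem s3q3_h6 (h1 : Enc S E A1 a1) : Enc S E (s3q3_t6 A1) (s3q3_v6 a1) := f2p_enc (h1)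

def s3q3_t7 (A1 : TM) : TM := c3f_t (A1)

theorem s3q3_h7 (h1 : Enc S E A1 a1) : Enc S E (s3q3_t7 A1) (s3q3_v7 a1) := c3f_enc (h1)

def s3q3_t8 (A1 : TM) : TM := tsub (s3q3_t7 A1) (s3q3_t6 A1)

theorem s3q3_h8 (h1 : Enc S E A1 a1) : Enc S E (s3q3_t8 A1) (s3q3_v8 a1) := enc_sub (s3q3_h7 h1) (s3q3_h6 h1)

def s3q3_t9 (A1 : TM) : TM := tinv S (s3q3_t8 A1)

theorem s3q3_h9 (h1 : Enc S E A1 a1) : Enc S E (s3q3_t9 A1) (s3q3_v9 a1) := enc_inv hS (s3q3_h8 h1)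

def s3q3_t10 (A1 : TM) : TM := tmul S (s3q3_t3 A1) (s3q3_t9 A1)

theorem s3q3_h10 (h1 : Enc S E A1 a1) : Enc S E (s3q3_t10 A1) (s3q3_v10 a1) := enc_mul hS (s3q3_h3 h1) (s3q3_h9 h1)

def s3q3_t (A1 : TM) : TM := s3q3_t10 A1

theorem s3q3_enc (h1 : Enc S E A1 a1) : Enc S E (s3q3_t A1) (s3q3_v a1) := s3q3_h10 h1

def kyq0_t4 (_A1 A2 : TM) : TM := f2m_t (A2)

theorem kyq0_h4 (_h1 : Enc S E A1 a1) (h2 : Enc S E A2 a2) : Enc S E (kyq0_t4 A1 A2) (kyq0_v4 a1 a2) := f2m_enc (h2)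

def kyq0_t5 (_A1 A2 : TM) : TM := c3f_t (A2)

theorem kyq0_h5 (_h1 : Enc S E A1 a1) (h2 : Enc S E A2 a2) : Enc S E (kyq0_t5 A1 A2) (kyq0_v5 a1 a2) := c3f_enc (h2)

def kyq0_t6 (_A1 A2 : TM) : TM := s3q0_t (A2)

theorem kyq0_h6 (_h1 : Enc S E A1 a1) (h2 : Enc S E A2 a2) : Enc S E (kyq0_t6 A1 A2) (kyq0_v6 a1 a2) := s3q0_enc (h2)

def kyq0_t7 (_A1 A2 : TM) : TM := sgq0_t (A2)

theorem kyq0_h7 (_h1 : Enc S E A1 a1) (h2 : Enc S E A2 a2) : Enc S E (kyq0_t7 A1 A2) (kyq0_v7 a1 a2) := sgq0_enc (h2)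

def kyq0_t8 (A1 A2 : TM) : TM := tsub (kyq0_t4 A1 A2) (A1)

theorem kyq0_h8 (h1 : Enc S E A1 a1) (h2 : Enc S E A2 a2) : Enc S E (kyq0_t8 A1 A2) (kyq0_v8 a1 a2) := enc_sub (kyq0_h4 h1 h2) (h1)

def kyq0_t9 (A1 A2 : TM) : TM := tsub (kyq0_t5 A1 A2) (kyq0_t4 A1 A2)

theorem kyq0_h9 (h1 : Enc S E A1 a1) (h2 : Enc S E A2 a2) : Enc S E (kyq0_t9 A1 A2) (kyq0_v9 a1 a2) := enc_sub (kyq0_h5 h1 h2) (kyq0_h4 h1 h2)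

def kyq0_t10 (A1 A2 : TM) : TM := tsub (kyq0_t5 A1 A2) (A1)

theorem kyq0_h10 (h1 : Enc S E A1 a1) (h2 : Enc S E A2 a2) : Enc S E (kyq0_t10 A1 A2) (kyq0_v10 a1 a2) := enc_sub (kyq0_h5 h1 h2) (h1)

def kyq0_t11 (A1 A2 : TM) : TM := tlam S (kyq0_t9 A1 A2) (kyq0_t10 A1 A2)

theorem kyq0_h11 (h1 : Enc S E A1 a1) (h2 : Enc S E A2 a2) : Enc S E (kyq0_t11 A1 A2) (kyq0_v11 a1 a2) := enc_lam hS (kyq0_h9 h1 h2) (kyq0_h10 h1 h2)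

def kyq0_t12 (A1 A2 : TM) : TM := tsub (kyq0_t6 A1 A2) (kyq0_t7 A1 A2)

theorem kyq0_h12 (h1 : Enc S E A1 a1) (h2 : Enc S E A2 a2) : Enc S E (kyq0_t12 A1 A2) (kyq0_v12 a1 a2) := enc_sub (kyq0_h6 h1 h2) (kyq0_h7 h1 h2)

def kyq0_t13 (A1 A2 : TM) : TM := tmul S (kyq0_t11 A1 A2) (kyq0_t12 A1 A2)

theorem kyq0_h13 (h1 : Enc S E A1 a1) (h2 : Enc S E A2 a2) : Enc S E (kyq0_t13 A1 A2) (kyq0_v13 a1 a2) := enc_mul hS (kyq0_h11 h1 h2) (kyq0_h12 h1 h2)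

def kyq0_t14 (A1 A2 : TM) : TM := tadd (kyq0_t7 A1 A2) (kyq0_t13 A1 A2)

theorem kyq0_h14 (h1 : Enc S E A1 a1) (h2 : Enc S E A2 a2) : Enc S E (kyq0_t14 A1 A2) (kyq0_v14 a1 a2) := enc_add (kyq0_h7 h1 h2) (kyq0_h13 h1 h2)

def kyq0_t15 (A1 A2 : TM) : TM := tcase (kyq0_t8 A1 A2) (kyq0_t6 A1 A2) (kyq0_t14 A1 A2)

theorem kyq0_h15 (h1 : Enc S E A1 a1) (h2 : Enc S E A2 a2) : Enc S E (kyq0_t15 A1 A2) (kyq0_v15 a1 a2) := enc_case hS (kyq0_h8 h1 h2) (kyq0_h6 h1 h2) (kyq0_h14 h1 h2)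

def kyq0_t (A1 A2 : TM) : TM := kyq0_t15 A1 A2

theorem kyq0_enc (h1 : Enc S E A1 a1) (h2 : Enc S E A2 a2) : Enc S E (kyq0_t A1 A2) (kyq0_v a1 a2) := kyq0_h15 h1 h2

def kyq1_t4 (_A1 A2 : TM) : TM := f2m_t (A2)

theorem kyq1_h4 (_h1 : Enc S E A1 a1) (h2 : Enc S E A2 a2) : Enc S E (kyq1_t4 A1 A2) (kyq1_v4 a1 a2) := f2m_enc (h2)

def kyq1_t5 (_A1 A2 : TM) : TM := c3f_t (A2)

theorem kyq1_h5 (_h1 : Enc S E A1 a1) (h2 : Enc S E A2 a2) : Enc S E (kyq1_t5 A1 A2) (kyq1_v5 a1 a2) := c3f_enc (h2)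

def kyq1_t6 (_A1 A2 : TM) : TM := s3q1_t (A2)

theorem kyq1_h6 (_h1 : Enc S E A1 a1) (h2 : Enc S E A2 a2) : Enc S E (kyq1_t6 A1 A2) (kyq1_v6 a1 a2) := s3q1_enc (h2)

def kyq1_t7 (_A1 A2 : TM) : TM := sgq1_t (A2)

theorem kyq1_h7 (_h1 : Enc S E A1 a1) (h2 : Enc S E A2 a2) : Enc S E (kyq1_t7 A1 A2) (kyq1_v7 a1 a2) := sgq1_enc (h2)

def kyq1_t8 (A1 A2 : TM) : TM := tsub (kyq1_t4 A1 A2) (A1)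

theorem kyq1_h8 (h1 : Enc S E A1 a1) (h2 : Enc S E A2 a2) : Enc S E (kyq1_t8 A1 A2) (kyq1_v8 a1 a2) := enc_sub (kyq1_h4 h1 h2) (h1)

def kyq1_t9 (A1 A2 : TM) : TM := tsub (kyq1_t5 A1 A2) (kyq1_t4 A1 A2)

theorem kyq1_h9 (h1 : Enc S E A1 a1) (h2 : Enc S E A2 a2) : Enc S E (kyq1_t9 A1 A2) (kyq1_v9 a1 a2) := enc_sub (kyq1_h5 h1 h2) (kyq1_h4 h1 h2)

def kyq1_t10 (A1 A2 : TM) : TM := tsub (kyq1_t5 A1 A2) (A1)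

theorem kyq1_h10 (h1 : Enc S E A1 a1) (h2 : Enc S E A2 a2) : Enc S E (kyq1_t10 A1 A2) (kyq1_v10 a1 a2) := enc_sub (kyq1_h5 h1 h2) (h1)

def kyq1_t11 (A1 A2 : TM) : TM := tlam S (kyq1_t9 A1 A2) (kyq1_t10 A1 A2)

theorem kyq1_h11 (h1 : Enc S E A1 a1) (h2 : Enc S E A2 a2) : Enc S E (kyq1_t11 A1 A2) (kyq1_v11 a1 a2) := enc_lam hS (kyq1_h9 h1 h2) (kyq1_h10 h1 h2)

def kyq1_t12 (A1 A2 : TM) : TM := tsub (kyq1_t6 A1 A2) (kyq1_t7 A1 A2)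

theorem kyq1_h12 (h1 : Enc S E A1 a1) (h2 : Enc S E A2 a2) : Enc S E (kyq1_t12 A1 A2) (kyq1_v12 a1 a2) := enc_sub (kyq1_h6 h1 h2) (kyq1_h7 h1 h2)

def kyq1_t13 (A1 A2 : TM) : TM := tmul S (kyq1_t11 A1 A2) (kyq1_t12 A1 A2)

theorem kyq1_h13 (h1 : Enc S E A1 a1) (h2 : Enc S E A2 a2) : Enc S E (kyq1_t13 A1 A2) (kyq1_v13 a1 a2) := enc_mul hS (kyq1_h11 h1 h2) (kyq1_h12 h1 h2)

def kyq1_t14 (A1 A2 : TM) : TM := tadd (kyq1_t7 A1 A2) (kyq1_t13 A1 A2)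

theorem kyq1_h14 (h1 : Enc S E A1 a1) (h2 : Enc S E A2 a2) : Enc S E (kyq1_t14 A1 A2) (kyq1_v14 a1 a2) := enc_add (kyq1_h7 h1 h2) (kyq1_h13 h1 h2)

def kyq1_t15 (A1 A2 : TM) : TM := tcase (kyq1_t8 A1 A2) (kyq1_t6 A1 A2) (kyq1_t14 A1 A2)

theorem kyq1_h15 (h1 : Enc S E A1 a1) (h2 : Enc S E A2 a2) : Enc S E (kyq1_t15 A1 A2) (kyq1_v15 a1 a2) := enc_case hS (kyq1_h8 h1 h2) (kyq1_h6 h1 h2) (kyq1_h14 h1 h2)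

def kyq1_t (A1 A2 : TM) : TM := kyq1_t15 A1 A2

theorem kyq1_enc (h1 : Enc S E A1 a1) (h2 : Enc S E A2 a2) : Enc S E (kyq1_t A1 A2) (kyq1_v a1 a2) := kyq1_h15 h1 h2

def kyq2_t4 (_A1 A2 : TM) : TM := f2p_t (A2)

theorem kyq2_h4 (_h1 : Enc S E A1 a1) (h2 : Enc S E A2 a2) : Enc S E (kyq2_t4 A1 A2) (kyq2_v4 a1 a2) := f2p_enc (h2)

def kyq2_t5 (_A1 A2 : TM) : TM := c3f_t (A2)

theorem kyq2_h5 (_h1 : Enc S E A1 a1) (h2 : Enc S E A2 a2) : Enc S E (kyq2_t5 A1 A2) (kyq2_v5 a1 a2) := c3f_enc (h2)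

def kyq2_t6 (_A1 A2 : TM) : TM := s3q2_t (A2)

theorem kyq2_h6 (_h1 : Enc S E A1 a1) (h2 : Enc S E A2 a2) : Enc S E (kyq2_t6 A1 A2) (kyq2_v6 a1 a2) := s3q2_enc (h2)

def kyq2_t7 (_A1 A2 : TM) : TM := sgq2_t (A2)

theorem kyq2_h7 (_h1 : Enc S E A1 a1) (h2 : Enc S E A2 a2) : Enc S E (kyq2_t7 A1 A2) (kyq2_v7 a1 a2) := sgq2_enc (h2)

def kyq2_t8 (A1 A2 : TM) : TM := tsub (kyq2_t4 A1 A2) (A1)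

theorem kyq2_h8 (h1 : Enc S E A1 a1) (h2 : Enc S E A2 a2) : Enc S E (kyq2_t8 A1 A2) (kyq2_v8 a1 a2) := enc_sub (kyq2_h4 h1 h2) (h1)

def kyq2_t9 (A1 A2 : TM) : TM := tsub (kyq2_t5 A1 A2) (kyq2_t4 A1 A2)

theorem kyq2_h9 (h1 : Enc S E A1 a1) (h2 : Enc S E A2 a2) : Enc S E (kyq2_t9 A1 A2) (kyq2_v9 a1 a2) := enc_sub (kyq2_h5 h1 h2) (kyq2_h4 h1 h2)

def kyq2_t10 (A1 A2 : TM) : TM := tsub (kyq2_t5 A1 A2) (A1)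

theorem kyq2_h10 (h1 : Enc S E A1 a1) (h2 : Enc S E A2 a2) : Enc S E (kyq2_t10 A1 A2) (kyq2_v10 a1 a2) := enc_sub (kyq2_h5 h1 h2) (h1)

def kyq2_t11 (A1 A2 : TM) : TM := tlam S (kyq2_t9 A1 A2) (kyq2_t10 A1 A2)

theorem kyq2_h11 (h1 : Enc S E A1 a1) (h2 : Enc S E A2 a2) : Enc S E (kyq2_t11 A1 A2) (kyq2_v11 a1 a2) := enc_lam hS (kyq2_h9 h1 h2) (kyq2_h10 h1 h2)

def kyq2_t12 (A1 A2 : TM) : TM := tsub (kyq2_t6 A1 A2) (kyq2_t7 A1 A2)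

theorem kyq2_h12 (h1 : Enc S E A1 a1) (h2 : Enc S E A2 a2) : Enc S E (kyq2_t12 A1 A2) (kyq2_v12 a1 a2) := enc_sub (kyq2_h6 h1 h2) (kyq2_h7 h1 h2)

def kyq2_t13 (A1 A2 : TM) : TM := tmul S (kyq2_t11 A1 A2) (kyq2_t12 A1 A2)

theorem kyq2_h13 (h1 : Enc S E A1 a1) (h2 : Enc S E A2 a2) : Enc S E (kyq2_t13 A1 A2) (kyq2_v13 a1 a2) := enc_mul hS (kyq2_h11 h1 h2) (kyq2_h12 h1 h2)

def kyq2_t14 (A1 A2 : TM) : TM := tadd (kyq2_t7 A1 A2) (kyq2_t13 A1 A2)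

theorem kyq2_h14 (h1 : Enc S E A1 a1) (h2 : Enc S E A2 a2) : Enc S E (kyq2_t14 A1 A2) (kyq2_v14 a1 a2) := enc_add (kyq2_h7 h1 h2) (kyq2_h13 h1 h2)

def kyq2_t15 (A1 A2 : TM) : TM := tcase (kyq2_t8 A1 A2) (kyq2_t6 A1 A2) (kyq2_t14 A1 A2)

theorem kyq2_h15 (h1 : Enc S E A1 a1) (h2 : Enc S E A2 a2) : Enc S E (kyq2_t15 A1 A2) (kyq2_v15 a1 a2) := enc_case hS (kyq2_h8 h1 h2) (kyq2_h6 h1 h2) (kyq2_h14 h1 h2)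

def kyq2_t (A1 A2 : TM) : TM := kyq2_t15 A1 A2

theorem kyq2_enc (h1 : Enc S E A1 a1) (h2 : Enc S E A2 a2) : Enc S E (kyq2_t A1 A2) (kyq2_v a1 a2) := kyq2_h15 h1 h2

def kyq3_t4 (_A1 A2 : TM) : TM := f2p_t (A2)

theorem kyq3_h4 (_h1 : Enc S E A1 a1) (h2 : Enc S E A2 a2) : Enc S E (kyq3_t4 A1 A2) (kyq3_v4 a1 a2) := f2p_enc (h2)

def kyq3_t5 (_A1 A2 : TM) : TM := c3f_t (A2)

theorem kyq3_h5 (_h1 : Enc S E A1 a1) (h2 : Enc S E A2 a2) : Enc S E (kyq3_t5 A1 A2) (kyq3_v5 a1 a2) := c3f_enc (h2)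

def kyq3_t6 (_A1 A2 : TM) : TM := s3q3_t (A2)

theorem kyq3_h6 (_h1 : Enc S E A1 a1) (h2 : Enc S E A2 a2) : Enc S E (kyq3_t6 A1 A2) (kyq3_v6 a1 a2) := s3q3_enc (h2)

def kyq3_t7 (_A1 A2 : TM) : TM := sgq3_t (A2)

theorem kyq3_h7 (_h1 : Enc S E A1 a1) (h2 : Enc S E A2 a2) : Enc S E (kyq3_t7 A1 A2) (kyq3_v7 a1 a2) := sgq3_enc (h2)

def kyq3_t8 (A1 A2 : TM) : TM := tsub (kyq3_t4 A1 A2) (A1)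

theorem kyq3_h8 (h1 : Enc S E A1 a1) (h2 : Enc S E A2 a2) : Enc S E (kyq3_t8 A1 A2) (kyq3_v8 a1 a2) := enc_sub (kyq3_h4 h1 h2) (h1)

def kyq3_t9 (A1 A2 : TM) : TM := tsub (kyq3_t5 A1 A2) (kyq3_t4 A1 A2)

theorem kyq3_h9 (h1 : Enc S E A1 a1) (h2 : Enc S E A2 a2) : Enc S E (kyq3_t9 A1 A2) (kyq3_v9 a1 a2) := enc_sub (kyq3_h5 h1 h2) (kyq3_h4 h1 h2)

def kyq3_t10 (A1 A2 : TM) : TM := tsub (kyq3_t5 A1 A2) (A1)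

theorem kyq3_h10 (h1 : Enc S E A1 a1) (h2 : Enc S E A2 a2) : Enc S E (kyq3_t10 A1 A2) (kyq3_v10 a1 a2) := enc_sub (kyq3_h5 h1 h2) (h1)

def kyq3_t11 (A1 A2 : TM) : TM := tlam S (kyq3_t9 A1 A2) (kyq3_t10 A1 A2)

theorem kyq3_h11 (h1 : Enc S E A1 a1) (h2 : Enc S E A2 a2) : Enc S E (kyq3_t11 A1 A2) (kyq3_v11 a1 a2) := enc_lam hS (kyq3_h9 h1 h2) (kyq3_h10 h1 h2)

def kyq3_t12 (A1 A2 : TM) : TM := tsub (kyq3_t6 A1 A2) (kyq3_t7 A1 A2)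

theorem kyq3_h12 (h1 : Enc S E A1 a1) (h2 : Enc S E A2 a2) : Enc S E (kyq3_t12 A1 A2) (kyq3_v12 a1 a2) := enc_sub (kyq3_h6 h1 h2) (kyq3_h7 h1 h2)

def kyq3_t13 (A1 A2 : TM) : TM := tmul S (kyq3_t11 A1 A2) (kyq3_t12 A1 A2)

theorem kyq3_h13 (h1 : Enc S E A1 a1) (h2 : Enc S E A2 a2) : Enc S E (kyq3_t13 A1 A2) (kyq3_v13 a1 a2) := enc_mul hS (kyq3_h11 h1 h2) (kyq3_h12 h1 h2)

def kyq3_t14 (A1 A2 : TM) : TM := tadd (kyq3_t7 A1 A2) (kyq3_t13 A1 A2)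

theorem kyq3_h14 (h1 : Enc S E A1 a1) (h2 : Enc S E A2 a2) : Enc S E (kyq3_t14 A1 A2) (kyq3_v14 a1 a2) := enc_add (kyq3_h7 h1 h2) (kyq3_h13 h1 h2)

def kyq3_t15 (A1 A2 : TM) : TM := tcase (kyq3_t8 A1 A2) (kyq3_t6 A1 A2) (kyq3_t14 A1 A2)

theorem kyq3_h15 (h1 : Enc S E A1 a1) (h2 : Enc S E A2 a2) : Enc S E (kyq3_t15 A1 A2) (kyq3_v15 a1 a2) := enc_case hS (kyq3_h8 h1 h2) (kyq3_h6 h1 h2) (kyq3_h14 h1 h2)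

def kyq3_t (A1 A2 : TM) : TM := kyq3_t15 A1 A2

theorem kyq3_enc (h1 : Enc S E A1 a1) (h2 : Enc S E A2 a2) : Enc S E (kyq3_t A1 A2) (kyq3_v a1 a2) := kyq3_h15 h1 h2

def kx3_t4 (_A1 A2 : TM) : TM := f2p_t (A2)

theorem kx3_h4 (_h1 : Enc S E A1 a1) (h2 : Enc S E A2 a2) : Enc S E (kx3_t4 A1 A2) (kx3_v4 a1 a2) := f2p_enc (h2)

def kx3_t5 (_A1 A2 : TM) : TM := c3f_t (A2)

theorem kx3_h5 (_h1 : Enc S E A1 a1) (h2 : Enc S E A2 a2) : Enc S E (kx3_t5 A1 A2) (kx3_v5 a1 a2) := c3f_enc (h2)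

def kx3_t6 (_A1 _A2 : TM) : TM := tconst 1859775393 0 1

theorem kx3_h6 (_h1 : Enc S E A1 a1) (_h2 : Enc S E A2 a2) : Enc S E (kx3_t6 A1 A2) (kx3_v6 a1 a2) := enc_sqrtn E (by decide) (by decide)

def kx3_t7 (A1 A2 : TM) : TM := tscale 1 2 (kx3_t6 A1 A2)

theorem kx3_h7 (h1 : Enc S E A1 a1) (h2 : Enc S E A2 a2) : Enc S E (kx3_t7 A1 A2) (kx3_v7 a1 a2) := enc_scale 1 (by norm_num) (kx3_h6 h1 h2)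

def kx3_t8 (A1 A2 : TM) : TM := tinv S (kx3_t6 A1 A2)

theorem kx3_h8 (h1 : Enc S E A1 a1) (h2 : Enc S E A2 a2) : Enc S E (kx3_t8 A1 A2) (kx3_v8 a1 a2) := enc_inv hS (kx3_h6 h1 h2)

def kx3_t9 (A1 A2 : TM) : TM := tmul S (A2) (kx3_t8 A1 A2)

theorem kx3_h9 (h1 : Enc S E A1 a1) (h2 : Enc S E A2 a2) : Enc S E (kx3_t9 A1 A2) (kx3_v9 a1 a2) := enc_mul hS (h2) (kx3_h8 h1 h2)

def kx3_t10 (_A1 _A2 : TM) : TM := tconst (Nat.mul 1 S) 0 0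

theorem kx3_h10 (_h1 : Enc S E A1 a1) (_h2 : Enc S E A2 a2) : Enc S E (kx3_t10 A1 A2) (kx3_v10 a1 a2) := enc_nc E 1

def kx3_t11 (A1 A2 : TM) : TM := tadd (kx3_t10 A1 A2) (kx3_t9 A1 A2)

theorem kx3_h11 (h1 : Enc S E A1 a1) (h2 : Enc S E A2 a2) : Enc S E (kx3_t11 A1 A2) (kx3_v11 a1 a2) := enc_add (kx3_h10 h1 h2) (kx3_h9 h1 h2)

def kx3_t12 (A1 A2 : TM) : TM := tadd (kx3_t5 A1 A2) (A1)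

theorem kx3_h12 (h1 : Enc S E A1 a1) (h2 : Enc S E A2 a2) : Enc S E (kx3_t12 A1 A2) (kx3_v12 a1 a2) := enc_add (kx3_h5 h1 h2) (h1)

def kx3_t13 (A1 A2 : TM) : TM := tlam S (A1) (kx3_t12 A1 A2)

theorem kx3_h13 (h1 : Enc S E A1 a1) (h2 : Enc S E A2 a2) : Enc S E (kx3_t13 A1 A2) (kx3_v13 a1 a2) := enc_lam hS (h1) (kx3_h12 h1 h2)

def kx3_t14 (A1 A2 : TM) : TM := tsub (kx3_t10 A1 A2) (kx3_t13 A1 A2)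

theorem kx3_h14 (h1 : Enc S E A1 a1) (h2 : Enc S E A2 a2) : Enc S E (kx3_t14 A1 A2) (kx3_v14 a1 a2) := enc_sub (kx3_h10 h1 h2) (kx3_h13 h1 h2)

def kx3_t15 (A1 A2 : TM) : TM := tadd (kx3_t6 A1 A2) (A2)

theorem kx3_h15 (h1 : Enc S E A1 a1) (h2 : Enc S E A2 a2) : Enc S E (kx3_t15 A1 A2) (kx3_v15 a1 a2) := enc_add (kx3_h6 h1 h2) (h2)

def kx3_t16 (_A1 A2 : TM) : TM := sw_t (A2)

theorem kx3_h16 (_h1 : Enc S E A1 a1) (h2 : Enc S E A2 a2) : Enc S E (kx3_t16 A1 A2) (kx3_v16 a1 a2) := sw_enc (h2)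

def kx3_t17 (_A1 _A2 : TM) : TM := tconst (Nat.div (Nat.mul 1 S) 2) 0 1

theorem kx3_h17 (_h1 : Enc S E A1 a1) (_h2 : Enc S E A2 a2) : Enc S E (kx3_t17 A1 A2) (kx3_v17 a1 a2) := enc_rat E 1 (by norm_num)

def kx3_t18 (A1 A2 : TM) : TM := tadd (kx3_t16 A1 A2) (kx3_t17 A1 A2)

theorem kx3_h18 (h1 : Enc S E A1 a1) (h2 : Enc S E A2 a2) : Enc S E (kx3_t18 A1 A2) (kx3_v18 a1 a2) := enc_add (kx3_h16 h1 h2) (kx3_h17 h1 h2)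

def kx3_t19 (A1 A2 : TM) : TM := tmul S (kx3_t15 A1 A2) (kx3_t18 A1 A2)

theorem kx3_h19 (h1 : Enc S E A1 a1) (h2 : Enc S E A2 a2) : Enc S E (kx3_t19 A1 A2) (kx3_v19 a1 a2) := enc_mul hS (kx3_h15 h1 h2) (kx3_h18 h1 h2)

def kx3_t20 (A1 A2 : TM) : TM := tinv S (kx3_t19 A1 A2)

theorem kx3_h20 (h1 : Enc S E A1 a1) (h2 : Enc S E A2 a2) : Enc S E (kx3_t20 A1 A2) (kx3_v20 a1 a2) := enc_inv hS (kx3_h19 h1 h2)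

def kx3_t21 (A1 A2 : TM) : TM := tmul S (A2) (kx3_t20 A1 A2)

theorem kx3_h21 (h1 : Enc S E A1 a1) (h2 : Enc S E A2 a2) : Enc S E (kx3_t21 A1 A2) (kx3_v21 a1 a2) := enc_mul hS (h2) (kx3_h20 h1 h2)

def kx3_t22 (A1 A2 : TM) : TM := tmul S (kx3_t6 A1 A2) (kx3_t15 A1 A2)

theorem kx3_h22 (h1 : Enc S E A1 a1) (h2 : Enc S E A2 a2) : Enc S E (kx3_t22 A1 A2) (kx3_v22 a1 a2) := enc_mul hS (kx3_h6 h1 h2) (kx3_h15 h1 h2)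

def kx3_t23 (A1 A2 : TM) : TM := tinv S (kx3_t22 A1 A2)

theorem kx3_h23 (h1 : Enc S E A1 a1) (h2 : Enc S E A2 a2) : Enc S E (kx3_t23 A1 A2) (kx3_v23 a1 a2) := enc_inv hS (kx3_h22 h1 h2)

def kx3_t24 (A1 A2 : TM) : TM := tmul S (kx3_t5 A1 A2) (kx3_t23 A1 A2)

theorem kx3_h24 (h1 : Enc S E A1 a1) (h2 : Enc S E A2 a2) : Enc S E (kx3_t24 A1 A2) (kx3_v24 a1 a2) := enc_mul hS (kx3_h5 h1 h2) (kx3_h23 h1 h2)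

def kx3_t25 (A1 A2 : TM) : TM := tadd (kx3_t10 A1 A2) (kx3_t24 A1 A2)

theorem kx3_h25 (h1 : Enc S E A1 a1) (h2 : Enc S E A2 a2) : Enc S E (kx3_t25 A1 A2) (kx3_v25 a1 a2) := enc_add (kx3_h10 h1 h2) (kx3_h24 h1 h2)

def kx3_t26 (A1 A2 : TM) : TM := tsub (kx3_t11 A1 A2) (kx3_t5 A1 A2)

theorem kx3_h26 (h1 : Enc S E A1 a1) (h2 : Enc S E A2 a2) : Enc S E (kx3_t26 A1 A2) (kx3_v26 a1 a2) := enc_sub (kx3_h11 h1 h2) (kx3_h5 h1 h2)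

def kx3_t27 (A1 A2 : TM) : TM := tnat 2 (kx3_t26 A1 A2)

theorem kx3_h27 (h1 : Enc S E A1 a1) (h2 : Enc S E A2 a2) : Enc S E (kx3_t27 A1 A2) (kx3_v27 a1 a2) := enc_nat 2 (kx3_h26 h1 h2)

def kx3_t28 (A1 A2 : TM) : TM := tinv S (kx3_t27 A1 A2)

theorem kx3_h28 (h1 : Enc S E A1 a1) (h2 : Enc S E A2 a2) : Enc S E (kx3_t28 A1 A2) (kx3_v28 a1 a2) := enc_inv hS (kx3_h27 h1 h2)

def kx3_t29 (A1 A2 : TM) : TM := tmul S (kx3_t25 A1 A2) (kx3_t28 A1 A2)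

theorem kx3_h29 (h1 : Enc S E A1 a1) (h2 : Enc S E A2 a2) : Enc S E (kx3_t29 A1 A2) (kx3_v29 a1 a2) := enc_mul hS (kx3_h25 h1 h2) (kx3_h28 h1 h2)

def kx3_t30 (A1 A2 : TM) : TM := tscale 489 250 (kx3_t5 A1 A2)

theorem kx3_h30 (h1 : Enc S E A1 a1) (h2 : Enc S E A2 a2) : Enc S E (kx3_t30 A1 A2) (kx3_v30 a1 a2) := enc_scale 489 (by norm_num) (kx3_h5 h1 h2)

def kx3_t31 (A1 A2 : TM) : TM := tmul S (kx3_t7 A1 A2) (kx3_t15 A1 A2)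

theorem kx3_h31 (h1 : Enc S E A1 a1) (h2 : Enc S E A2 a2) : Enc S E (kx3_t31 A1 A2) (kx3_v31 a1 a2) := enc_mul hS (kx3_h7 h1 h2) (kx3_h15 h1 h2)

def kx3_t32 (A1 A2 : TM) : TM := tinv S (kx3_t31 A1 A2)

theorem kx3_h32 (h1 : Enc S E A1 a1) (h2 : Enc S E A2 a2) : Enc S E (kx3_t32 A1 A2) (kx3_v32 a1 a2) := enc_inv hS (kx3_h31 h1 h2)

def kx3_t33 (A1 A2 : TM) : TM := tmul S (kx3_t30 A1 A2) (kx3_t32 A1 A2)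

theorem kx3_h33 (h1 : Enc S E A1 a1) (h2 : Enc S E A2 a2) : Enc S E (kx3_t33 A1 A2) (kx3_v33 a1 a2) := enc_mul hS (kx3_h30 h1 h2) (kx3_h32 h1 h2)

def kx3_t34 (A1 A2 : TM) : TM := tsub (kx3_t29 A1 A2) (kx3_t33 A1 A2)

theorem kx3_h34 (h1 : Enc S E A1 a1) (h2 : Enc S E A2 a2) : Enc S E (kx3_t34 A1 A2) (kx3_v34 a1 a2) := enc_sub (kx3_h29 h1 h2) (kx3_h33 h1 h2)

def kx3_t35 (A1 A2 : TM) : TM := tsub (kx3_t11 A1 A2) (A1)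

theorem kx3_h35 (h1 : Enc S E A1 a1) (h2 : Enc S E A2 a2) : Enc S E (kx3_t35 A1 A2) (kx3_v35 a1 a2) := enc_sub (kx3_h11 h1 h2) (h1)

def kx3_t36 (A1 A2 : TM) : TM := tmul S (kx3_t26 A1 A2) (kx3_t35 A1 A2)

theorem kx3_h36 (h1 : Enc S E A1 a1) (h2 : Enc S E A2 a2) : Enc S E (kx3_t36 A1 A2) (kx3_v36 a1 a2) := enc_mul hS (kx3_h26 h1 h2) (kx3_h35 h1 h2)

def kx3_t37 (A1 A2 : TM) : TM := tinv S (kx3_t36 A1 A2)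

theorem kx3_h37 (h1 : Enc S E A1 a1) (h2 : Enc S E A2 a2) : Enc S E (kx3_t37 A1 A2) (kx3_v37 a1 a2) := enc_inv hS (kx3_h36 h1 h2)

def kx3_t38 (A1 A2 : TM) : TM := tmul S (kx3_t13 A1 A2) (kx3_t37 A1 A2)

theorem kx3_h38 (h1 : Enc S E A1 a1) (h2 : Enc S E A2 a2) : Enc S E (kx3_t38 A1 A2) (kx3_v38 a1 a2) := enc_mul hS (kx3_h13 h1 h2) (kx3_h37 h1 h2)

def kx3_t40 (A1 A2 : TM) : TM := tmul S (kx3_t14 A1 A2) (kx3_t34 A1 A2)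

theorem kx3_h40 (h1 : Enc S E A1 a1) (h2 : Enc S E A2 a2) : Enc S E (kx3_t40 A1 A2) (kx3_v40 a1 a2) := enc_mul hS (kx3_h14 h1 h2) (kx3_h34 h1 h2)

def kx3_t41 (A1 A2 : TM) : TM := tmul S (kx3_t5 A1 A2) (kx3_t21 A1 A2)

theorem kx3_h41 (h1 : Enc S E A1 a1) (h2 : Enc S E A2 a2) : Enc S E (kx3_t41 A1 A2) (kx3_v41 a1 a2) := enc_mul hS (kx3_h5 h1 h2) (kx3_h21 h1 h2)

def kx3_t42 (A1 A2 : TM) : TM := tadd (kx3_t10 A1 A2) (kx3_t41 A1 A2)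

theorem kx3_h42 (h1 : Enc S E A1 a1) (h2 : Enc S E A2 a2) : Enc S E (kx3_t42 A1 A2) (kx3_v42 a1 a2) := enc_add (kx3_h10 h1 h2) (kx3_h41 h1 h2)

def kx3_t43 (A1 A2 : TM) : TM := tmul S (kx3_t40 A1 A2) (kx3_t42 A1 A2)

theorem kx3_h43 (h1 : Enc S E A1 a1) (h2 : Enc S E A2 a2) : Enc S E (kx3_t43 A1 A2) (kx3_v43 a1 a2) := enc_mul hS (kx3_h40 h1 h2) (kx3_h42 h1 h2)

def kx3_t44 (A1 A2 : TM) : TM := tsub (kx3_t10 A1 A2) (kx3_t41 A1 A2)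

theorem kx3_h44 (h1 : Enc S E A1 a1) (h2 : Enc S E A2 a2) : Enc S E (kx3_t44 A1 A2) (kx3_v44 a1 a2) := enc_sub (kx3_h10 h1 h2) (kx3_h41 h1 h2)

def kx3_t45 (A1 A2 : TM) : TM := tinv S (kx3_t44 A1 A2)

theorem kx3_h45 (h1 : Enc S E A1 a1) (h2 : Enc S E A2 a2) : Enc S E (kx3_t45 A1 A2) (kx3_v45 a1 a2) := enc_inv hS (kx3_h44 h1 h2)

def kx3_t46 (A1 A2 : TM) : TM := tmul S (kx3_t43 A1 A2) (kx3_t45 A1 A2)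

theorem kx3_h46 (h1 : Enc S E A1 a1) (h2 : Enc S E A2 a2) : Enc S E (kx3_t46 A1 A2) (kx3_v46 a1 a2) := enc_mul hS (kx3_h43 h1 h2) (kx3_h45 h1 h2)

def kx3_t47 (A1 A2 : TM) : TM := tsub (kx3_t46 A1 A2) (kx3_t38 A1 A2)

theorem kx3_h47 (h1 : Enc S E A1 a1) (h2 : Enc S E A2 a2) : Enc S E (kx3_t47 A1 A2) (kx3_v47 a1 a2) := enc_sub (kx3_h46 h1 h2) (kx3_h38 h1 h2)

def kx3_t48 (_A1 A2 : TM) : TM := b1q3_t (A2)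

theorem kx3_h48 (_h1 : Enc S E A1 a1) (h2 : Enc S E A2 a2) : Enc S E (kx3_t48 A1 A2) (kx3_v48 a1 a2) := b1q3_enc (h2)

def kx3_t49 (_A1 A2 : TM) : TM := b2q3_t (A2)

theorem kx3_h49 (_h1 : Enc S E A1 a1) (h2 : Enc S E A2 a2) : Enc S E (kx3_t49 A1 A2) (kx3_v49 a1 a2) := b2q3_enc (h2)

def kx3_t50 (A1 A2 : TM) : TM := tmul S (kx3_t11 A1 A2) (kx3_t5 A1 A2)

theorem kx3_h50 (h1 : Enc S E A1 a1) (h2 : Enc S E A2 a2) : Enc S E (kx3_t50 A1 A2) (kx3_v50 a1 a2) := enc_mul hS (kx3_h11 h1 h2) (kx3_h5 h1 h2)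

def kx3_t51 (A1 A2 : TM) : TM := tmul S (kx3_t50 A1 A2) (kx3_t14 A1 A2)

theorem kx3_h51 (h1 : Enc S E A1 a1) (h2 : Enc S E A2 a2) : Enc S E (kx3_t51 A1 A2) (kx3_v51 a1 a2) := enc_mul hS (kx3_h50 h1 h2) (kx3_h14 h1 h2)

def kx3_t52 (A1 A2 : TM) : TM := tmul S (kx3_t51 A1 A2) (kx3_t23 A1 A2)

theorem kx3_h52 (h1 : Enc S E A1 a1) (h2 : Enc S E A2 a2) : Enc S E (kx3_t52 A1 A2) (kx3_v52 a1 a2) := enc_mul hS (kx3_h51 h1 h2) (kx3_h23 h1 h2)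

def kx3_t53 (A1 A2 : TM) : TM := tadd (kx3_t52 A1 A2) (kx3_t11 A1 A2)

theorem kx3_h53 (h1 : Enc S E A1 a1) (h2 : Enc S E A2 a2) : Enc S E (kx3_t53 A1 A2) (kx3_v53 a1 a2) := enc_add (kx3_h52 h1 h2) (kx3_h11 h1 h2)

def kx3_t54 (A1 A2 : TM) : TM := tmul S (kx3_t5 A1 A2) (kx3_t13 A1 A2)

theorem kx3_h54 (h1 : Enc S E A1 a1) (h2 : Enc S E A2 a2) : Enc S E (kx3_t54 A1 A2) (kx3_v54 a1 a2) := enc_mul hS (kx3_h5 h1 h2) (kx3_h13 h1 h2)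

def kx3_t55 (A1 A2 : TM) : TM := tsub (kx3_t53 A1 A2) (kx3_t54 A1 A2)

theorem kx3_h55 (h1 : Enc S E A1 a1) (h2 : Enc S E A2 a2) : Enc S E (kx3_t55 A1 A2) (kx3_v55 a1 a2) := enc_sub (kx3_h53 h1 h2) (kx3_h54 h1 h2)

def kx3_t56 (A1 A2 : TM) : TM := tmul S (kx3_t27 A1 A2) (kx3_t35 A1 A2)

theorem kx3_h56 (h1 : Enc S E A1 a1) (h2 : Enc S E A2 a2) : Enc S E (kx3_t56 A1 A2) (kx3_v56 a1 a2) := enc_mul hS (kx3_h27 h1 h2) (kx3_h35 h1 h2)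

def kx3_t57 (A1 A2 : TM) : TM := tinv S (kx3_t56 A1 A2)

theorem kx3_h57 (h1 : Enc S E A1 a1) (h2 : Enc S E A2 a2) : Enc S E (kx3_t57 A1 A2) (kx3_v57 a1 a2) := enc_inv hS (kx3_h56 h1 h2)

def kx3_t58 (A1 A2 : TM) : TM := tmul S (kx3_t55 A1 A2) (kx3_t57 A1 A2)

theorem kx3_h58 (h1 : Enc S E A1 a1) (h2 : Enc S E A2 a2) : Enc S E (kx3_t58 A1 A2) (kx3_v58 a1 a2) := enc_mul hS (kx3_h55 h1 h2) (kx3_h57 h1 h2)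

def kx3_t60 (A1 A2 : TM) : TM := tmul S (kx3_t30 A1 A2) (kx3_t14 A1 A2)

theorem kx3_h60 (h1 : Enc S E A1 a1) (h2 : Enc S E A2 a2) : Enc S E (kx3_t60 A1 A2) (kx3_v60 a1 a2) := enc_mul hS (kx3_h30 h1 h2) (kx3_h14 h1 h2)

def kx3_t61 (A1 A2 : TM) : TM := tmul S (kx3_t60 A1 A2) (kx3_t32 A1 A2)

theorem kx3_h61 (h1 : Enc S E A1 a1) (h2 : Enc S E A2 a2) : Enc S E (kx3_t61 A1 A2) (kx3_v61 a1 a2) := enc_mul hS (kx3_h60 h1 h2) (kx3_h32 h1 h2)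

def kx3_t62 (A1 A2 : TM) : TM := tsub (kx3_t61 A1 A2) (kx3_t58 A1 A2)

theorem kx3_h62 (h1 : Enc S E A1 a1) (h2 : Enc S E A2 a2) : Enc S E (kx3_t62 A1 A2) (kx3_v62 a1 a2) := enc_sub (kx3_h61 h1 h2) (kx3_h58 h1 h2)

def kx3_t63 (A1 A2 : TM) : TM := tmul S (kx3_t14 A1 A2) (kx3_t21 A1 A2)

theorem kx3_h63 (h1 : Enc S E A1 a1) (h2 : Enc S E A2 a2) : Enc S E (kx3_t63 A1 A2) (kx3_v63 a1 a2) := enc_mul hS (kx3_h14 h1 h2) (kx3_h21 h1 h2)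

def kx3_t64 (A1 A2 : TM) : TM := tsub (kx3_t49 A1 A2) (kx3_t48 A1 A2)

theorem kx3_h64 (h1 : Enc S E A1 a1) (h2 : Enc S E A2 a2) : Enc S E (kx3_t64 A1 A2) (kx3_v64 a1 a2) := enc_sub (kx3_h49 h1 h2) (kx3_h48 h1 h2)

def kx3_t65 (A1 A2 : TM) : TM := tmul S (kx3_t63 A1 A2) (kx3_t64 A1 A2)

theorem kx3_h65 (h1 : Enc S E A1 a1) (h2 : Enc S E A2 a2) : Enc S E (kx3_t65 A1 A2) (kx3_v65 a1 a2) := enc_mul hS (kx3_h63 h1 h2) (kx3_h64 h1 h2)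

def kx3_t66 (A1 A2 : TM) : TM := tsub (kx3_t62 A1 A2) (kx3_t65 A1 A2)

theorem kx3_h66 (h1 : Enc S E A1 a1) (h2 : Enc S E A2 a2) : Enc S E (kx3_t66 A1 A2) (kx3_v66 a1 a2) := enc_sub (kx3_h62 h1 h2) (kx3_h65 h1 h2)

def kx3_t67 (A1 A2 : TM) : TM := tsub (kx3_t5 A1 A2) (kx3_t4 A1 A2)

theorem kx3_h67 (h1 : Enc S E A1 a1) (h2 : Enc S E A2 a2) : Enc S E (kx3_t67 A1 A2) (kx3_v67 a1 a2) := enc_sub (kx3_h5 h1 h2) (kx3_h4 h1 h2)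

def kx3_t68 (A1 A2 : TM) : TM := tsub (kx3_t5 A1 A2) (A1)

theorem kx3_h68 (h1 : Enc S E A1 a1) (h2 : Enc S E A2 a2) : Enc S E (kx3_t68 A1 A2) (kx3_v68 a1 a2) := enc_sub (kx3_h5 h1 h2) (h1)

def kx3_t69 (A1 A2 : TM) : TM := tlam S (kx3_t67 A1 A2) (kx3_t68 A1 A2)

theorem kx3_h69 (h1 : Enc S E A1 a1) (h2 : Enc S E A2 a2) : Enc S E (kx3_t69 A1 A2) (kx3_v69 a1 a2) := enc_lam hS (kx3_h67 h1 h2) (kx3_h68 h1 h2)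

def kx3_t70 (A1 A2 : TM) : TM := tsub (kx3_t4 A1 A2) (A1)

theorem kx3_h70 (h1 : Enc S E A1 a1) (h2 : Enc S E A2 a2) : Enc S E (kx3_t70 A1 A2) (kx3_v70 a1 a2) := enc_sub (kx3_h4 h1 h2) (h1)

def kx3_t71 (A1 A2 : TM) : TM := tsub (kx3_t10 A1 A2) (kx3_t69 A1 A2)

theorem kx3_h71 (h1 : Enc S E A1 a1) (h2 : Enc S E A2 a2) : Enc S E (kx3_t71 A1 A2) (kx3_v71 a1 a2) := enc_sub (kx3_h10 h1 h2) (kx3_h69 h1 h2)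

def kx3_t72 (A1 A2 : TM) : TM := tmul S (kx3_t71 A1 A2) (kx3_t66 A1 A2)

theorem kx3_h72 (h1 : Enc S E A1 a1) (h2 : Enc S E A2 a2) : Enc S E (kx3_t72 A1 A2) (kx3_v72 a1 a2) := enc_mul hS (kx3_h71 h1 h2) (kx3_h66 h1 h2)

def kx3_t73 (A1 A2 : TM) : TM := tmul S (kx3_t69 A1 A2) (kx3_t47 A1 A2)

theorem kx3_h73 (h1 : Enc S E A1 a1) (h2 : Enc S E A2 a2) : Enc S E (kx3_t73 A1 A2) (kx3_v73 a1 a2) := enc_mul hS (kx3_h69 h1 h2) (kx3_h47 h1 h2)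

def kx3_t74 (A1 A2 : TM) : TM := tadd (kx3_t72 A1 A2) (kx3_t73 A1 A2)

theorem kx3_h74 (h1 : Enc S E A1 a1) (h2 : Enc S E A2 a2) : Enc S E (kx3_t74 A1 A2) (kx3_v74 a1 a2) := enc_add (kx3_h72 h1 h2) (kx3_h73 h1 h2)

def kx3_t75 (A1 A2 : TM) : TM := tcase (kx3_t70 A1 A2) (kx3_t47 A1 A2) (kx3_t74 A1 A2)

theorem kx3_h75 (h1 : Enc S E A1 a1) (h2 : Enc S E A2 a2) : Enc S E (kx3_t75 A1 A2) (kx3_v75 a1 a2) := enc_case hS (kx3_h70 h1 h2) (kx3_h47 h1 h2) (kx3_h74 h1 h2)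

def kx3_t (A1 A2 : TM) : TM := kx3_t75 A1 A2

theorem kx3_enc (h1 : Enc S E A1 a1) (h2 : Enc S E A2 a2) : Enc S E (kx3_t A1 A2) (kx3_v a1 a2) := kx3_h75 h1 h2

def qn_t5 (_A1 _A2 _A3 _A4 _A5 : TM) : TM := tconst 1859775393 0 1

theorem qn_h5 (_h1 : Enc S E A1 a1) (_h2 : Enc S E A2 a2) (_h3 : Enc S E A3 a3) (_h4 : Enc S E A4 a4) (_h5 : Enc S E A5 a5) : Enc S E (qn_t5 A1 A2 A3 A4 A5) (qn_v5 a1 a2 a3 a4 a5) := enc_sqrtn E (by decide) (by decide)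

def qn_t6 (A1 A2 A3 A4 A5 : TM) : TM := tscale 1 2 (qn_t5 A1 A2 A3 A4 A5)

theorem qn_h6 (h1 : Enc S E A1 a1) (h2 : Enc S E A2 a2) (h3 : Enc S E A3 a3) (h4 : Enc S E A4 a4) (h5 : Enc S E A5 a5) : Enc S E (qn_t6 A1 A2 A3 A4 A5) (qn_v6 a1 a2 a3 a4 a5) := enc_scale 1 (by norm_num) (qn_h5 h1 h2 h3 h4 h5)

def qn_t7 (A1 A2 _A3 _A4 _A5 : TM) : TM := tadd (A1) (A2)

theorem qn_h7 (h1 : Enc S E A1 a1) (h2 : Enc S E A2 a2) (_h3 : Enc S E A3 a3) (_h4 : Enc S E A4 a4) (_h5 : Enc S E A5 a5) : Enc S E (qn_t7 A1 A2 A3 A4 A5) (qn_v7 a1 a2 a3 a4 a5) := enc_add (h1) (h2)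

def qn_t8 (A1 A2 A3 A4 A5 : TM) : TM := tlam S (A1) (qn_t7 A1 A2 A3 A4 A5)

theorem qn_h8 (h1 : Enc S E A1 a1) (h2 : Enc S E A2 a2) (h3 : Enc S E A3 a3) (h4 : Enc S E A4 a4) (h5 : Enc S E A5 a5) : Enc S E (qn_t8 A1 A2 A3 A4 A5) (qn_v8 a1 a2 a3 a4 a5) := enc_lam hS (h1) (qn_h7 h1 h2 h3 h4 h5)

def qn_t9 (_A1 _A2 _A3 _A4 _A5 : TM) : TM := tconst (Nat.mul 1 S) 0 0

theorem qn_h9 (_h1 : Enc S E A1 a1) (_h2 : Enc S E A2 a2) (_h3 : Enc S E A3 a3) (_h4 : Enc S E A4 a4) (_h5 : Enc S E A5 a5) : Enc S E (qn_t9 A1 A2 A3 A4 A5) (qn_v9 a1 a2 a3 a4 a5) := enc_nc E 1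

def qn_t10 (A1 A2 A3 A4 A5 : TM) : TM := tsub (qn_t9 A1 A2 A3 A4 A5) (qn_t8 A1 A2 A3 A4 A5)

theorem qn_h10 (h1 : Enc S E A1 a1) (h2 : Enc S E A2 a2) (h3 : Enc S E A3 a3) (h4 : Enc S E A4 a4) (h5 : Enc S E A5 a5) : Enc S E (qn_t10 A1 A2 A3 A4 A5) (qn_v10 a1 a2 a3 a4 a5) := enc_sub (qn_h9 h1 h2 h3 h4 h5) (qn_h8 h1 h2 h3 h4 h5)

def qn_t11 (A1 A2 A3 A4 A5 : TM) : TM := tsub (qn_t9 A1 A2 A3 A4 A5) (qn_t10 A1 A2 A3 A4 A5)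

theorem qn_h11 (h1 : Enc S E A1 a1) (h2 : Enc S E A2 a2) (h3 : Enc S E A3 a3) (h4 : Enc S E A4 a4) (h5 : Enc S E A5 a5) : Enc S E (qn_t11 A1 A2 A3 A4 A5) (qn_v11 a1 a2 a3 a4 a5) := enc_sub (qn_h9 h1 h2 h3 h4 h5) (qn_h10 h1 h2 h3 h4 h5)

def qn_t12 (_A1 _A2 A3 _A4 _A5 : TM) : TM := tscale 10 19 (A3)

theorem qn_h12 (_h1 : Enc S E A1 a1) (_h2 : Enc S E A2 a2) (h3 : Enc S E A3 a3) (_h4 : Enc S E A4 a4) (_h5 : Enc S E A5 a5) : Enc S E (qn_t12 A1 A2 A3 A4 A5) (qn_v12 a1 a2 a3 a4 a5) := enc_scale 10 (by norm_num) (h3)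

def qn_t13 (A1 A2 A3 A4 A5 : TM) : TM := tsub (qn_t6 A1 A2 A3 A4 A5) (qn_t7 A1 A2 A3 A4 A5)

theorem qn_h13 (h1 : Enc S E A1 a1) (h2 : Enc S E A2 a2) (h3 : Enc S E A3 a3) (h4 : Enc S E A4 a4) (h5 : Enc S E A5 a5) : Enc S E (qn_t13 A1 A2 A3 A4 A5) (qn_v13 a1 a2 a3 a4 a5) := enc_sub (qn_h6 h1 h2 h3 h4 h5) (qn_h7 h1 h2 h3 h4 h5)

def qn_t14 (A1 A2 A3 A4 A5 : TM) : TM := tmul S (qn_t13 A1 A2 A3 A4 A5) (A5)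

theorem qn_h14 (h1 : Enc S E A1 a1) (h2 : Enc S E A2 a2) (h3 : Enc S E A3 a3) (h4 : Enc S E A4 a4) (h5 : Enc S E A5 a5) : Enc S E (qn_t14 A1 A2 A3 A4 A5) (qn_v14 a1 a2 a3 a4 a5) := enc_mul hS (qn_h13 h1 h2 h3 h4 h5) (h5)

def qn_t15 (A1 A2 A3 A4 A5 : TM) : TM := tadd (A4) (qn_t14 A1 A2 A3 A4 A5)

theorem qn_h15 (h1 : Enc S E A1 a1) (h2 : Enc S E A2 a2) (h3 : Enc S E A3 a3) (h4 : Enc S E A4 a4) (h5 : Enc S E A5 a5) : Enc S E (qn_t15 A1 A2 A3 A4 A5) (qn_v15 a1 a2 a3 a4 a5) := enc_add (h4) (qn_h14 h1 h2 h3 h4 h5)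

def qn_t16 (A1 A2 A3 A4 A5 : TM) : TM := tinv S (qn_t5 A1 A2 A3 A4 A5)

theorem qn_h16 (h1 : Enc S E A1 a1) (h2 : Enc S E A2 a2) (h3 : Enc S E A3 a3) (h4 : Enc S E A4 a4) (h5 : Enc S E A5 a5) : Enc S E (qn_t16 A1 A2 A3 A4 A5) (qn_v16 a1 a2 a3 a4 a5) := enc_inv hS (qn_h5 h1 h2 h3 h4 h5)

def qn_t17 (A1 A2 A3 A4 A5 : TM) : TM := tmul S (qn_t15 A1 A2 A3 A4 A5) (qn_t16 A1 A2 A3 A4 A5)

theorem qn_h17 (h1 : Enc S E A1 a1) (h2 : Enc S E A2 a2) (h3 : Enc S E A3 a3) (h4 : Enc S E A4 a4) (h5 : Enc S E A5 a5) : Enc S E (qn_t17 A1 A2 A3 A4 A5) (qn_v17 a1 a2 a3 a4 a5) := enc_mul hS (qn_h15 h1 h2 h3 h4 h5) (qn_h16 h1 h2 h3 h4 h5)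

def qn_t18 (A1 A2 A3 A4 A5 : TM) : TM := tsub (A4) (qn_t14 A1 A2 A3 A4 A5)

theorem qn_h18 (h1 : Enc S E A1 a1) (h2 : Enc S E A2 a2) (h3 : Enc S E A3 a3) (h4 : Enc S E A4 a4) (h5 : Enc S E A5 a5) : Enc S E (qn_t18 A1 A2 A3 A4 A5) (qn_v18 a1 a2 a3 a4 a5) := enc_sub (h4) (qn_h14 h1 h2 h3 h4 h5)

def qn_t19 (A1 A2 A3 A4 A5 : TM) : TM := tmul S (qn_t18 A1 A2 A3 A4 A5) (qn_t16 A1 A2 A3 A4 A5)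

theorem qn_h19 (h1 : Enc S E A1 a1) (h2 : Enc S E A2 a2) (h3 : Enc S E A3 a3) (h4 : Enc S E A4 a4) (h5 : Enc S E A5 a5) : Enc S E (qn_t19 A1 A2 A3 A4 A5) (qn_v19 a1 a2 a3 a4 a5) := enc_mul hS (qn_h18 h1 h2 h3 h4 h5) (qn_h16 h1 h2 h3 h4 h5)

def qn_t20 (A1 A2 A3 A4 A5 : TM) : TM := tsub (qn_t5 A1 A2 A3 A4 A5) (qn_t7 A1 A2 A3 A4 A5)

theorem qn_h20 (h1 : Enc S E A1 a1) (h2 : Enc S E A2 a2) (h3 : Enc S E A3 a3) (h4 : Enc S E A4 a4) (h5 : Enc S E A5 a5) : Enc S E (qn_t20 A1 A2 A3 A4 A5) (qn_v20 a1 a2 a3 a4 a5) := enc_sub (qn_h5 h1 h2 h3 h4 h5) (qn_h7 h1 h2 h3 h4 h5)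

def qn_t21 (A1 A2 A3 A4 A5 : TM) : TM := tmul S (qn_t20 A1 A2 A3 A4 A5) (A4)

theorem qn_h21 (h1 : Enc S E A1 a1) (h2 : Enc S E A2 a2) (h3 : Enc S E A3 a3) (h4 : Enc S E A4 a4) (h5 : Enc S E A5 a5) : Enc S E (qn_t21 A1 A2 A3 A4 A5) (qn_v21 a1 a2 a3 a4 a5) := enc_mul hS (qn_h20 h1 h2 h3 h4 h5) (h4)

def qn_t22 (A1 A2 A3 A4 A5 : TM) : TM := tsub (qn_t11 A1 A2 A3 A4 A5) (qn_t10 A1 A2 A3 A4 A5)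

theorem qn_h22 (h1 : Enc S E A1 a1) (h2 : Enc S E A2 a2) (h3 : Enc S E A3 a3) (h4 : Enc S E A4 a4) (h5 : Enc S E A5 a5) : Enc S E (qn_t22 A1 A2 A3 A4 A5) (qn_v22 a1 a2 a3 a4 a5) := enc_sub (qn_h11 h1 h2 h3 h4 h5) (qn_h10 h1 h2 h3 h4 h5)

def qn_t23 (A1 A2 A3 A4 A5 : TM) : TM := tmul S (qn_t22 A1 A2 A3 A4 A5) (qn_t13 A1 A2 A3 A4 A5)

theorem qn_h23 (h1 : Enc S E A1 a1) (h2 : Enc S E A2 a2) (h3 : Enc S E A3 a3) (h4 : Enc S E A4 a4) (h5 : Enc S E A5 a5) : Enc S E (qn_t23 A1 A2 A3 A4 A5) (qn_v23 a1 a2 a3 a4 a5) := enc_mul hS (qn_h22 h1 h2 h3 h4 h5) (qn_h13 h1 h2 h3 h4 h5)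

def qn_t24 (A1 A2 A3 A4 A5 : TM) : TM := tmul S (qn_t23 A1 A2 A3 A4 A5) (qn_t7 A1 A2 A3 A4 A5)

theorem qn_h24 (h1 : Enc S E A1 a1) (h2 : Enc S E A2 a2) (h3 : Enc S E A3 a3) (h4 : Enc S E A4 a4) (h5 : Enc S E A5 a5) : Enc S E (qn_t24 A1 A2 A3 A4 A5) (qn_v24 a1 a2 a3 a4 a5) := enc_mul hS (qn_h23 h1 h2 h3 h4 h5) (qn_h7 h1 h2 h3 h4 h5)

def qn_t25 (A1 A2 A3 A4 A5 : TM) : TM := tmul S (qn_t24 A1 A2 A3 A4 A5) (A5)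

theorem qn_h25 (h1 : Enc S E A1 a1) (h2 : Enc S E A2 a2) (h3 : Enc S E A3 a3) (h4 : Enc S E A4 a4) (h5 : Enc S E A5 a5) : Enc S E (qn_t25 A1 A2 A3 A4 A5) (qn_v25 a1 a2 a3 a4 a5) := enc_mul hS (qn_h24 h1 h2 h3 h4 h5) (h5)

def qn_t26 (A1 A2 A3 A4 A5 : TM) : TM := tadd (qn_t21 A1 A2 A3 A4 A5) (qn_t25 A1 A2 A3 A4 A5)

theorem qn_h26 (h1 : Enc S E A1 a1) (h2 : Enc S E A2 a2) (h3 : Enc S E A3 a3) (h4 : Enc S E A4 a4) (h5 : Enc S E A5 a5) : Enc S E (qn_t26 A1 A2 A3 A4 A5) (qn_v26 a1 a2 a3 a4 a5) := enc_add (qn_h21 h1 h2 h3 h4 h5) (qn_h25 h1 h2 h3 h4 h5)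

def qn_t28 (A1 A2 A3 A4 A5 : TM) : TM := tmul S (qn_t26 A1 A2 A3 A4 A5) (qn_t16 A1 A2 A3 A4 A5)

theorem qn_h28 (h1 : Enc S E A1 a1) (h2 : Enc S E A2 a2) (h3 : Enc S E A3 a3) (h4 : Enc S E A4 a4) (h5 : Enc S E A5 a5) : Enc S E (qn_t28 A1 A2 A3 A4 A5) (qn_v28 a1 a2 a3 a4 a5) := enc_mul hS (qn_h26 h1 h2 h3 h4 h5) (qn_h16 h1 h2 h3 h4 h5)

def qn_t30 (A1 A2 A3 A4 A5 : TM) : TM := tadd (qn_t17 A1 A2 A3 A4 A5) (qn_t12 A1 A2 A3 A4 A5)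

theorem qn_h30 (h1 : Enc S E A1 a1) (h2 : Enc S E A2 a2) (h3 : Enc S E A3 a3) (h4 : Enc S E A4 a4) (h5 : Enc S E A5 a5) : Enc S E (qn_t30 A1 A2 A3 A4 A5) (qn_v30 a1 a2 a3 a4 a5) := enc_add (qn_h17 h1 h2 h3 h4 h5) (qn_h12 h1 h2 h3 h4 h5)

def qn_t31 (A1 A2 A3 A4 A5 : TM) : TM := tmul S (qn_t7 A1 A2 A3 A4 A5) (qn_t30 A1 A2 A3 A4 A5)

theorem qn_h31 (h1 : Enc S E A1 a1) (h2 : Enc S E A2 a2) (h3 : Enc S E A3 a3) (h4 : Enc S E A4 a4) (h5 : Enc S E A5 a5) : Enc S E (qn_t31 A1 A2 A3 A4 A5) (qn_v31 a1 a2 a3 a4 a5) := enc_mul hS (qn_h7 h1 h2 h3 h4 h5) (qn_h30 h1 h2 h3 h4 h5)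

def qn_t32 (A1 A2 A3 A4 A5 : TM) : TM := tmul S (qn_t7 A1 A2 A3 A4 A5) (qn_t12 A1 A2 A3 A4 A5)

theorem qn_h32 (h1 : Enc S E A1 a1) (h2 : Enc S E A2 a2) (h3 : Enc S E A3 a3) (h4 : Enc S E A4 a4) (h5 : Enc S E A5 a5) : Enc S E (qn_t32 A1 A2 A3 A4 A5) (qn_v32 a1 a2 a3 a4 a5) := enc_mul hS (qn_h7 h1 h2 h3 h4 h5) (qn_h12 h1 h2 h3 h4 h5)

def qn_t33 (A1 A2 A3 A4 A5 : TM) : TM := tsub (qn_t32 A1 A2 A3 A4 A5) (qn_t28 A1 A2 A3 A4 A5)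

theorem qn_h33 (h1 : Enc S E A1 a1) (h2 : Enc S E A2 a2) (h3 : Enc S E A3 a3) (h4 : Enc S E A4 a4) (h5 : Enc S E A5 a5) : Enc S E (qn_t33 A1 A2 A3 A4 A5) (qn_v33 a1 a2 a3 a4 a5) := enc_sub (qn_h32 h1 h2 h3 h4 h5) (qn_h28 h1 h2 h3 h4 h5)

def qn_t34 (A1 A2 A3 A4 A5 : TM) : TM := tadd (qn_t19 A1 A2 A3 A4 A5) (qn_t12 A1 A2 A3 A4 A5)

theorem qn_h34 (h1 : Enc S E A1 a1) (h2 : Enc S E A2 a2) (h3 : Enc S E A3 a3) (h4 : Enc S E A4 a4) (h5 : Enc S E A5 a5) : Enc S E (qn_t34 A1 A2 A3 A4 A5) (qn_v34 a1 a2 a3 a4 a5) := enc_add (qn_h19 h1 h2 h3 h4 h5) (qn_h12 h1 h2 h3 h4 h5)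

def qn_t35 (A1 A2 A3 A4 A5 : TM) : TM := tmul S (qn_t7 A1 A2 A3 A4 A5) (qn_t34 A1 A2 A3 A4 A5)

theorem qn_h35 (h1 : Enc S E A1 a1) (h2 : Enc S E A2 a2) (h3 : Enc S E A3 a3) (h4 : Enc S E A4 a4) (h5 : Enc S E A5 a5) : Enc S E (qn_t35 A1 A2 A3 A4 A5) (qn_v35 a1 a2 a3 a4 a5) := enc_mul hS (qn_h7 h1 h2 h3 h4 h5) (qn_h34 h1 h2 h3 h4 h5)

def qn_t36 (A1 A2 A3 A4 A5 : TM) : TM := tphi S (qn_t31 A1 A2 A3 A4 A5) (qn_t33 A1 A2 A3 A4 A5)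

theorem qn_h36 (h1 : Enc S E A1 a1) (h2 : Enc S E A2 a2) (h3 : Enc S E A3 a3) (h4 : Enc S E A4 a4) (h5 : Enc S E A5 a5) : Enc S E (qn_t36 A1 A2 A3 A4 A5) (qn_v36 a1 a2 a3 a4 a5) := enc_phi hS (qn_h31 h1 h2 h3 h4 h5) (qn_h33 h1 h2 h3 h4 h5)

def qn_t37 (A1 A2 A3 A4 A5 : TM) : TM := tphi S (qn_t33 A1 A2 A3 A4 A5) (qn_t35 A1 A2 A3 A4 A5)

theorem qn_h37 (h1 : Enc S E A1 a1) (h2 : Enc S E A2 a2) (h3 : Enc S E A3 a3) (h4 : Enc S E A4 a4) (h5 : Enc S E A5 a5) : Enc S E (qn_t37 A1 A2 A3 A4 A5) (qn_v37 a1 a2 a3 a4 a5) := enc_phi hS (qn_h33 h1 h2 h3 h4 h5) (qn_h35 h1 h2 h3 h4 h5)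

def qn_t38 (_A1 _A2 _A3 _A4 _A5 : TM) : TM := tconst (Nat.mul 2 S) 0 0

theorem qn_h38 (_h1 : Enc S E A1 a1) (_h2 : Enc S E A2 a2) (_h3 : Enc S E A3 a3) (_h4 : Enc S E A4 a4) (_h5 : Enc S E A5 a5) : Enc S E (qn_t38 A1 A2 A3 A4 A5) (qn_v38 a1 a2 a3 a4 a5) := enc_nc E 2

def qn_t39 (A1 A2 A3 A4 A5 : TM) : TM := tadd (qn_t38 A1 A2 A3 A4 A5) (qn_t5 A1 A2 A3 A4 A5)

theorem qn_h39 (h1 : Enc S E A1 a1) (h2 : Enc S E A2 a2) (h3 : Enc S E A3 a3) (h4 : Enc S E A4 a4) (h5 : Enc S E A5 a5) : Enc S E (qn_t39 A1 A2 A3 A4 A5) (qn_v39 a1 a2 a3 a4 a5) := enc_add (qn_h38 h1 h2 h3 h4 h5) (qn_h5 h1 h2 h3 h4 h5)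

def qn_t40 (A1 A2 A3 A4 A5 : TM) : TM := tmul S (A3) (qn_t39 A1 A2 A3 A4 A5)

theorem qn_h40 (h1 : Enc S E A1 a1) (h2 : Enc S E A2 a2) (h3 : Enc S E A3 a3) (h4 : Enc S E A4 a4) (h5 : Enc S E A5 a5) : Enc S E (qn_t40 A1 A2 A3 A4 A5) (qn_v40 a1 a2 a3 a4 a5) := enc_mul hS (h3) (qn_h39 h1 h2 h3 h4 h5)

def qn_t41 (A1 A2 A3 A4 A5 : TM) : TM := tscale 1 4 (qn_t40 A1 A2 A3 A4 A5)

theorem qn_h41 (h1 : Enc S E A1 a1) (h2 : Enc S E A2 a2) (h3 : Enc S E A3 a3) (h4 : Enc S E A4 a4) (h5 : Enc S E A5 a5) : Enc S E (qn_t41 A1 A2 A3 A4 A5) (qn_v41 a1 a2 a3 a4 a5) := enc_scale 1 (by norm_num) (qn_h40 h1 h2 h3 h4 h5)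

def qn_t42 (A1 A2 A3 A4 A5 : TM) : TM := tsub (qn_t37 A1 A2 A3 A4 A5) (qn_t36 A1 A2 A3 A4 A5)

theorem qn_h42 (h1 : Enc S E A1 a1) (h2 : Enc S E A2 a2) (h3 : Enc S E A3 a3) (h4 : Enc S E A4 a4) (h5 : Enc S E A5 a5) : Enc S E (qn_t42 A1 A2 A3 A4 A5) (qn_v42 a1 a2 a3 a4 a5) := enc_sub (qn_h37 h1 h2 h3 h4 h5) (qn_h36 h1 h2 h3 h4 h5)

def qn_t43 (A1 A2 A3 A4 A5 : TM) : TM := tmul S (qn_t10 A1 A2 A3 A4 A5) (qn_t42 A1 A2 A3 A4 A5)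

theorem qn_h43 (h1 : Enc S E A1 a1) (h2 : Enc S E A2 a2) (h3 : Enc S E A3 a3) (h4 : Enc S E A4 a4) (h5 : Enc S E A5 a5) : Enc S E (qn_t43 A1 A2 A3 A4 A5) (qn_v43 a1 a2 a3 a4 a5) := enc_mul hS (qn_h10 h1 h2 h3 h4 h5) (qn_h42 h1 h2 h3 h4 h5)

def qn_t44 (A1 A2 A3 A4 A5 : TM) : TM := tadd (qn_t36 A1 A2 A3 A4 A5) (qn_t43 A1 A2 A3 A4 A5)

theorem qn_h44 (h1 : Enc S E A1 a1) (h2 : Enc S E A2 a2) (h3 : Enc S E A3 a3) (h4 : Enc S E A4 a4) (h5 : Enc S E A5 a5) : Enc S E (qn_t44 A1 A2 A3 A4 A5) (qn_v44 a1 a2 a3 a4 a5) := enc_add (qn_h36 h1 h2 h3 h4 h5) (qn_h43 h1 h2 h3 h4 h5)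

def qn_t45 (A1 A2 A3 A4 A5 : TM) : TM := tphi S (qn_t34 A1 A2 A3 A4 A5) (qn_t30 A1 A2 A3 A4 A5)

theorem qn_h45 (h1 : Enc S E A1 a1) (h2 : Enc S E A2 a2) (h3 : Enc S E A3 a3) (h4 : Enc S E A4 a4) (h5 : Enc S E A5 a5) : Enc S E (qn_t45 A1 A2 A3 A4 A5) (qn_v45 a1 a2 a3 a4 a5) := enc_phi hS (qn_h34 h1 h2 h3 h4 h5) (qn_h30 h1 h2 h3 h4 h5)

def qn_t46 (A1 A2 A3 A4 A5 : TM) : TM := tmul S (qn_t13 A1 A2 A3 A4 A5) (qn_t45 A1 A2 A3 A4 A5)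

theorem qn_h46 (h1 : Enc S E A1 a1) (h2 : Enc S E A2 a2) (h3 : Enc S E A3 a3) (h4 : Enc S E A4 a4) (h5 : Enc S E A5 a5) : Enc S E (qn_t46 A1 A2 A3 A4 A5) (qn_v46 a1 a2 a3 a4 a5) := enc_mul hS (qn_h13 h1 h2 h3 h4 h5) (qn_h45 h1 h2 h3 h4 h5)

def qn_t47 (A1 A2 A3 A4 A5 : TM) : TM := tadd (qn_t44 A1 A2 A3 A4 A5) (qn_t46 A1 A2 A3 A4 A5)

theorem qn_h47 (h1 : Enc S E A1 a1) (h2 : Enc S E A2 a2) (h3 : Enc S E A3 a3) (h4 : Enc S E A4 a4) (h5 : Enc S E A5 a5) : Enc S E (qn_t47 A1 A2 A3 A4 A5) (qn_v47 a1 a2 a3 a4 a5) := enc_add (qn_h44 h1 h2 h3 h4 h5) (qn_h46 h1 h2 h3 h4 h5)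

def qn_t48 (A1 A2 A3 A4 A5 : TM) : TM := tscale 19 20 (qn_t47 A1 A2 A3 A4 A5)

theorem qn_h48 (h1 : Enc S E A1 a1) (h2 : Enc S E A2 a2) (h3 : Enc S E A3 a3) (h4 : Enc S E A4 a4) (h5 : Enc S E A5 a5) : Enc S E (qn_t48 A1 A2 A3 A4 A5) (qn_v48 a1 a2 a3 a4 a5) := enc_scale 19 (by norm_num) (qn_h47 h1 h2 h3 h4 h5)

def qn_t49 (A1 A2 A3 A4 A5 : TM) : TM := tsub (qn_t41 A1 A2 A3 A4 A5) (qn_t48 A1 A2 A3 A4 A5)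

theorem qn_h49 (h1 : Enc S E A1 a1) (h2 : Enc S E A2 a2) (h3 : Enc S E A3 a3) (h4 : Enc S E A4 a4) (h5 : Enc S E A5 a5) : Enc S E (qn_t49 A1 A2 A3 A4 A5) (qn_v49 a1 a2 a3 a4 a5) := enc_sub (qn_h41 h1 h2 h3 h4 h5) (qn_h48 h1 h2 h3 h4 h5)

def qn_t (A1 A2 A3 A4 A5 : TM) : TM := qn_t49 A1 A2 A3 A4 A5

theorem qn_enc (h1 : Enc S E A1 a1) (h2 : Enc S E A2 a2) (h3 : Enc S E A3 a3) (h4 : Enc S E A4 a4) (h5 : Enc S E A5 a5) : Enc S E (qn_t A1 A2 A3 A4 A5) (qn_v a1 a2 a3 a4 a5) := qn_h49 h1 h2 h3 h4 h5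

def qw_t7 (_A1 _A2 _A3 A4 _A5 _A6 _A7 : TM) : TM := tscale 10 19 (A4)

theorem qw_h7 (_h1 : Enc S E A1 a1) (_h2 : Enc S E A2 a2) (_h3 : Enc S E A3 a3) (h4 : Enc S E A4 a4) (_h5 : Enc S E A5 a5) (_h6 : Enc S E A6 a6) (_h7 : Enc S E A7 a7) : Enc S E (qw_t7 A1 A2 A3 A4 A5 A6 A7) (qw_v7 a1 a2 a3 a4 a5 a6 a7) := enc_scale 10 (by norm_num) (h4)

def qw_t8 (_A1 _A2 _A3 _A4 A5 A6 _A7 : TM) : TM := tadd (A5) (A6)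

theorem qw_h8 (_h1 : Enc S E A1 a1) (_h2 : Enc S E A2 a2) (_h3 : Enc S E A3 a3) (_h4 : Enc S E A4 a4) (h5 : Enc S E A5 a5) (h6 : Enc S E A6 a6) (_h7 : Enc S E A7 a7) : Enc S E (qw_t8 A1 A2 A3 A4 A5 A6 A7) (qw_v8 a1 a2 a3 a4 a5 a6 a7) := enc_add (h5) (h6)

def qw_t9 (A1 A2 A3 A4 A5 A6 A7 : TM) : TM := tsub (qw_t8 A1 A2 A3 A4 A5 A6 A7) (A7)

theorem qw_h9 (h1 : Enc S E A1 a1) (h2 : Enc S E A2 a2) (h3 : Enc S E A3 a3) (h4 : Enc S E A4 a4) (h5 : Enc S E A5 a5) (h6 : Enc S E A6 a6) (h7 : Enc S E A7 a7) : Enc S E (qw_t9 A1 A2 A3 A4 A5 A6 A7) (qw_v9 a1 a2 a3 a4 a5 a6 a7) := enc_sub (qw_h8 h1 h2 h3 h4 h5 h6 h7) (h7)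

def qw_t10 (_A1 _A2 _A3 _A4 _A5 _A6 _A7 : TM) : TM := tconst 1859775393 0 1

theorem qw_h10 (_h1 : Enc S E A1 a1) (_h2 : Enc S E A2 a2) (_h3 : Enc S E A3 a3) (_h4 : Enc S E A4 a4) (_h5 : Enc S E A5 a5) (_h6 : Enc S E A6 a6) (_h7 : Enc S E A7 a7) : Enc S E (qw_t10 A1 A2 A3 A4 A5 A6 A7) (qw_v10 a1 a2 a3 a4 a5 a6 a7) := enc_sqrtn E (by decide) (by decide)

def qw_t11 (A1 A2 A3 A4 A5 A6 A7 : TM) : TM := tinv S (qw_t10 A1 A2 A3 A4 A5 A6 A7)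

theorem qw_h11 (h1 : Enc S E A1 a1) (h2 : Enc S E A2 a2) (h3 : Enc S E A3 a3) (h4 : Enc S E A4 a4) (h5 : Enc S E A5 a5) (h6 : Enc S E A6 a6) (h7 : Enc S E A7 a7) : Enc S E (qw_t11 A1 A2 A3 A4 A5 A6 A7) (qw_v11 a1 a2 a3 a4 a5 a6 a7) := enc_inv hS (qw_h10 h1 h2 h3 h4 h5 h6 h7)

def qw_t12 (A1 A2 A3 A4 A5 A6 A7 : TM) : TM := tmul S (qw_t9 A1 A2 A3 A4 A5 A6 A7) (qw_t11 A1 A2 A3 A4 A5 A6 A7)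

theorem qw_h12 (h1 : Enc S E A1 a1) (h2 : Enc S E A2 a2) (h3 : Enc S E A3 a3) (h4 : Enc S E A4 a4) (h5 : Enc S E A5 a5) (h6 : Enc S E A6 a6) (h7 : Enc S E A7 a7) : Enc S E (qw_t12 A1 A2 A3 A4 A5 A6 A7) (qw_v12 a1 a2 a3 a4 a5 a6 a7) := enc_mul hS (qw_h9 h1 h2 h3 h4 h5 h6 h7) (qw_h11 h1 h2 h3 h4 h5 h6 h7)

def qw_t13 (A1 A2 A3 A4 A5 A6 A7 : TM) : TM := tadd (qw_t12 A1 A2 A3 A4 A5 A6 A7) (qw_t7 A1 A2 A3 A4 A5 A6 A7)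

theorem qw_h13 (h1 : Enc S E A1 a1) (h2 : Enc S E A2 a2) (h3 : Enc S E A3 a3) (h4 : Enc S E A4 a4) (h5 : Enc S E A5 a5) (h6 : Enc S E A6 a6) (h7 : Enc S E A7 a7) : Enc S E (qw_t13 A1 A2 A3 A4 A5 A6 A7) (qw_v13 a1 a2 a3 a4 a5 a6 a7) := enc_add (qw_h12 h1 h2 h3 h4 h5 h6 h7) (qw_h7 h1 h2 h3 h4 h5 h6 h7)

def qw_t14 (_A1 _A2 _A3 _A4 _A5 A6 A7 : TM) : TM := tadd (A6) (A7)

theorem qw_h14 (_h1 : Enc S E A1 a1) (_h2 : Enc S E A2 a2) (_h3 : Enc S E A3 a3) (_h4 : Enc S E A4 a4) (_h5 : Enc S E A5 a5) (h6 : Enc S E A6 a6) (h7 : Enc S E A7 a7) : Enc S E (qw_t14 A1 A2 A3 A4 A5 A6 A7) (qw_v14 a1 a2 a3 a4 a5 a6 a7) := enc_add (h6) (h7)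

def qw_t15 (A1 A2 A3 A4 A5 A6 A7 : TM) : TM := tsub (qw_t14 A1 A2 A3 A4 A5 A6 A7) (A5)

theorem qw_h15 (h1 : Enc S E A1 a1) (h2 : Enc S E A2 a2) (h3 : Enc S E A3 a3) (h4 : Enc S E A4 a4) (h5 : Enc S E A5 a5) (h6 : Enc S E A6 a6) (h7 : Enc S E A7 a7) : Enc S E (qw_t15 A1 A2 A3 A4 A5 A6 A7) (qw_v15 a1 a2 a3 a4 a5 a6 a7) := enc_sub (qw_h14 h1 h2 h3 h4 h5 h6 h7) (h5)

def qw_t16 (A1 A2 A3 A4 A5 A6 A7 : TM) : TM := tmul S (qw_t15 A1 A2 A3 A4 A5 A6 A7) (qw_t11 A1 A2 A3 A4 A5 A6 A7)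

theorem qw_h16 (h1 : Enc S E A1 a1) (h2 : Enc S E A2 a2) (h3 : Enc S E A3 a3) (h4 : Enc S E A4 a4) (h5 : Enc S E A5 a5) (h6 : Enc S E A6 a6) (h7 : Enc S E A7 a7) : Enc S E (qw_t16 A1 A2 A3 A4 A5 A6 A7) (qw_v16 a1 a2 a3 a4 a5 a6 a7) := enc_mul hS (qw_h15 h1 h2 h3 h4 h5 h6 h7) (qw_h11 h1 h2 h3 h4 h5 h6 h7)

def qw_t17 (A1 A2 A3 A4 A5 A6 A7 : TM) : TM := tadd (qw_t16 A1 A2 A3 A4 A5 A6 A7) (qw_t7 A1 A2 A3 A4 A5 A6 A7)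

theorem qw_h17 (h1 : Enc S E A1 a1) (h2 : Enc S E A2 a2) (h3 : Enc S E A3 a3) (h4 : Enc S E A4 a4) (h5 : Enc S E A5 a5) (h6 : Enc S E A6 a6) (h7 : Enc S E A7 a7) : Enc S E (qw_t17 A1 A2 A3 A4 A5 A6 A7) (qw_v17 a1 a2 a3 a4 a5 a6 a7) := enc_add (qw_h16 h1 h2 h3 h4 h5 h6 h7) (qw_h7 h1 h2 h3 h4 h5 h6 h7)

def qw_t18 (_A1 _A2 _A3 _A4 A5 _A6 A7 : TM) : TM := tadd (A7) (A5)

theorem qw_h18 (_h1 : Enc S E A1 a1) (_h2 : Enc S E A2 a2) (_h3 : Enc S E A3 a3) (_h4 : Enc S E A4 a4) (h5 : Enc S E A5 a5) (_h6 : Enc S E A6 a6) (h7 : Enc S E A7 a7) : Enc S E (qw_t18 A1 A2 A3 A4 A5 A6 A7) (qw_v18 a1 a2 a3 a4 a5 a6 a7) := enc_add (h7) (h5)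

def qw_t19 (A1 A2 A3 A4 A5 A6 A7 : TM) : TM := tsub (qw_t18 A1 A2 A3 A4 A5 A6 A7) (A6)

theorem qw_h19 (h1 : Enc S E A1 a1) (h2 : Enc S E A2 a2) (h3 : Enc S E A3 a3) (h4 : Enc S E A4 a4) (h5 : Enc S E A5 a5) (h6 : Enc S E A6 a6) (h7 : Enc S E A7 a7) : Enc S E (qw_t19 A1 A2 A3 A4 A5 A6 A7) (qw_v19 a1 a2 a3 a4 a5 a6 a7) := enc_sub (qw_h18 h1 h2 h3 h4 h5 h6 h7) (h6)

def qw_t20 (A1 A2 A3 A4 A5 A6 A7 : TM) : TM := tmul S (qw_t19 A1 A2 A3 A4 A5 A6 A7) (qw_t11 A1 A2 A3 A4 A5 A6 A7)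

theorem qw_h20 (h1 : Enc S E A1 a1) (h2 : Enc S E A2 a2) (h3 : Enc S E A3 a3) (h4 : Enc S E A4 a4) (h5 : Enc S E A5 a5) (h6 : Enc S E A6 a6) (h7 : Enc S E A7 a7) : Enc S E (qw_t20 A1 A2 A3 A4 A5 A6 A7) (qw_v20 a1 a2 a3 a4 a5 a6 a7) := enc_mul hS (qw_h19 h1 h2 h3 h4 h5 h6 h7) (qw_h11 h1 h2 h3 h4 h5 h6 h7)

def qw_t21 (A1 A2 A3 A4 A5 A6 A7 : TM) : TM := tadd (qw_t20 A1 A2 A3 A4 A5 A6 A7) (qw_t7 A1 A2 A3 A4 A5 A6 A7)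

theorem qw_h21 (h1 : Enc S E A1 a1) (h2 : Enc S E A2 a2) (h3 : Enc S E A3 a3) (h4 : Enc S E A4 a4) (h5 : Enc S E A5 a5) (h6 : Enc S E A6 a6) (h7 : Enc S E A7 a7) : Enc S E (qw_t21 A1 A2 A3 A4 A5 A6 A7) (qw_v21 a1 a2 a3 a4 a5 a6 a7) := enc_add (qw_h20 h1 h2 h3 h4 h5 h6 h7) (qw_h7 h1 h2 h3 h4 h5 h6 h7)

def qw_t22 (_A1 _A2 _A3 _A4 _A5 _A6 _A7 : TM) : TM := tconst (Nat.mul 2 S) 0 0

theorem qw_h22 (_h1 : Enc S E A1 a1) (_h2 : Enc S E A2 a2) (_h3 : Enc S E A3 a3) (_h4 : Enc S E A4 a4) (_h5 : Enc S E A5 a5) (_h6 : Enc S E A6 a6) (_h7 : Enc S E A7 a7) : Enc S E (qw_t22 A1 A2 A3 A4 A5 A6 A7) (qw_v22 a1 a2 a3 a4 a5 a6 a7) := enc_nc E 2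

def qw_t23 (A1 A2 A3 A4 A5 A6 A7 : TM) : TM := tadd (qw_t22 A1 A2 A3 A4 A5 A6 A7) (qw_t10 A1 A2 A3 A4 A5 A6 A7)

theorem qw_h23 (h1 : Enc S E A1 a1) (h2 : Enc S E A2 a2) (h3 : Enc S E A3 a3) (h4 : Enc S E A4 a4) (h5 : Enc S E A5 a5) (h6 : Enc S E A6 a6) (h7 : Enc S E A7 a7) : Enc S E (qw_t23 A1 A2 A3 A4 A5 A6 A7) (qw_v23 a1 a2 a3 a4 a5 a6 a7) := enc_add (qw_h22 h1 h2 h3 h4 h5 h6 h7) (qw_h10 h1 h2 h3 h4 h5 h6 h7)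

def qw_t24 (A1 A2 A3 A4 A5 A6 A7 : TM) : TM := tmul S (A4) (qw_t23 A1 A2 A3 A4 A5 A6 A7)

theorem qw_h24 (h1 : Enc S E A1 a1) (h2 : Enc S E A2 a2) (h3 : Enc S E A3 a3) (h4 : Enc S E A4 a4) (h5 : Enc S E A5 a5) (h6 : Enc S E A6 a6) (h7 : Enc S E A7 a7) : Enc S E (qw_t24 A1 A2 A3 A4 A5 A6 A7) (qw_v24 a1 a2 a3 a4 a5 a6 a7) := enc_mul hS (h4) (qw_h23 h1 h2 h3 h4 h5 h6 h7)

def qw_t25 (A1 A2 A3 A4 A5 A6 A7 : TM) : TM := tscale 1 4 (qw_t24 A1 A2 A3 A4 A5 A6 A7)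

theorem qw_h25 (h1 : Enc S E A1 a1) (h2 : Enc S E A2 a2) (h3 : Enc S E A3 a3) (h4 : Enc S E A4 a4) (h5 : Enc S E A5 a5) (h6 : Enc S E A6 a6) (h7 : Enc S E A7 a7) : Enc S E (qw_t25 A1 A2 A3 A4 A5 A6 A7) (qw_v25 a1 a2 a3 a4 a5 a6 a7) := enc_scale 1 (by norm_num) (qw_h24 h1 h2 h3 h4 h5 h6 h7)

def qw_t26 (A1 A2 A3 A4 A5 A6 A7 : TM) : TM := tphi S (qw_t13 A1 A2 A3 A4 A5 A6 A7) (qw_t17 A1 A2 A3 A4 A5 A6 A7)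

theorem qw_h26 (h1 : Enc S E A1 a1) (h2 : Enc S E A2 a2) (h3 : Enc S E A3 a3) (h4 : Enc S E A4 a4) (h5 : Enc S E A5 a5) (h6 : Enc S E A6 a6) (h7 : Enc S E A7 a7) : Enc S E (qw_t26 A1 A2 A3 A4 A5 A6 A7) (qw_v26 a1 a2 a3 a4 a5 a6 a7) := enc_phi hS (qw_h13 h1 h2 h3 h4 h5 h6 h7) (qw_h17 h1 h2 h3 h4 h5 h6 h7)

def qw_t27 (A1 A2 A3 A4 A5 A6 A7 : TM) : TM := tmul S (A1) (qw_t26 A1 A2 A3 A4 A5 A6 A7)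

theorem qw_h27 (h1 : Enc S E A1 a1) (h2 : Enc S E A2 a2) (h3 : Enc S E A3 a3) (h4 : Enc S E A4 a4) (h5 : Enc S E A5 a5) (h6 : Enc S E A6 a6) (h7 : Enc S E A7 a7) : Enc S E (qw_t27 A1 A2 A3 A4 A5 A6 A7) (qw_v27 a1 a2 a3 a4 a5 a6 a7) := enc_mul hS (h1) (qw_h26 h1 h2 h3 h4 h5 h6 h7)

def qw_t28 (A1 A2 A3 A4 A5 A6 A7 : TM) : TM := tphi S (qw_t17 A1 A2 A3 A4 A5 A6 A7) (qw_t21 A1 A2 A3 A4 A5 A6 A7)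

theorem qw_h28 (h1 : Enc S E A1 a1) (h2 : Enc S E A2 a2) (h3 : Enc S E A3 a3) (h4 : Enc S E A4 a4) (h5 : Enc S E A5 a5) (h6 : Enc S E A6 a6) (h7 : Enc S E A7 a7) : Enc S E (qw_t28 A1 A2 A3 A4 A5 A6 A7) (qw_v28 a1 a2 a3 a4 a5 a6 a7) := enc_phi hS (qw_h17 h1 h2 h3 h4 h5 h6 h7) (qw_h21 h1 h2 h3 h4 h5 h6 h7)

def qw_t29 (A1 A2 A3 A4 A5 A6 A7 : TM) : TM := tmul S (A2) (qw_t28 A1 A2 A3 A4 A5 A6 A7)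

theorem qw_h29 (h1 : Enc S E A1 a1) (h2 : Enc S E A2 a2) (h3 : Enc S E A3 a3) (h4 : Enc S E A4 a4) (h5 : Enc S E A5 a5) (h6 : Enc S E A6 a6) (h7 : Enc S E A7 a7) : Enc S E (qw_t29 A1 A2 A3 A4 A5 A6 A7) (qw_v29 a1 a2 a3 a4 a5 a6 a7) := enc_mul hS (h2) (qw_h28 h1 h2 h3 h4 h5 h6 h7)

def qw_t30 (A1 A2 A3 A4 A5 A6 A7 : TM) : TM := tadd (qw_t27 A1 A2 A3 A4 A5 A6 A7) (qw_t29 A1 A2 A3 A4 A5 A6 A7)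

theorem qw_h30 (h1 : Enc S E A1 a1) (h2 : Enc S E A2 a2) (h3 : Enc S E A3 a3) (h4 : Enc S E A4 a4) (h5 : Enc S E A5 a5) (h6 : Enc S E A6 a6) (h7 : Enc S E A7 a7) : Enc S E (qw_t30 A1 A2 A3 A4 A5 A6 A7) (qw_v30 a1 a2 a3 a4 a5 a6 a7) := enc_add (qw_h27 h1 h2 h3 h4 h5 h6 h7) (qw_h29 h1 h2 h3 h4 h5 h6 h7)

def qw_t31 (A1 A2 A3 A4 A5 A6 A7 : TM) : TM := tphi S (qw_t21 A1 A2 A3 A4 A5 A6 A7) (qw_t13 A1 A2 A3 A4 A5 A6 A7)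

theorem qw_h31 (h1 : Enc S E A1 a1) (h2 : Enc S E A2 a2) (h3 : Enc S E A3 a3) (h4 : Enc S E A4 a4) (h5 : Enc S E A5 a5) (h6 : Enc S E A6 a6) (h7 : Enc S E A7 a7) : Enc S E (qw_t31 A1 A2 A3 A4 A5 A6 A7) (qw_v31 a1 a2 a3 a4 a5 a6 a7) := enc_phi hS (qw_h21 h1 h2 h3 h4 h5 h6 h7) (qw_h13 h1 h2 h3 h4 h5 h6 h7)

def qw_t32 (A1 A2 A3 A4 A5 A6 A7 : TM) : TM := tmul S (A3) (qw_t31 A1 A2 A3 A4 A5 A6 A7)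

theorem qw_h32 (h1 : Enc S E A1 a1) (h2 : Enc S E A2 a2) (h3 : Enc S E A3 a3) (h4 : Enc S E A4 a4) (h5 : Enc S E A5 a5) (h6 : Enc S E A6 a6) (h7 : Enc S E A7 a7) : Enc S E (qw_t32 A1 A2 A3 A4 A5 A6 A7) (qw_v32 a1 a2 a3 a4 a5 a6 a7) := enc_mul hS (h3) (qw_h31 h1 h2 h3 h4 h5 h6 h7)

def qw_t33 (A1 A2 A3 A4 A5 A6 A7 : TM) : TM := tadd (qw_t30 A1 A2 A3 A4 A5 A6 A7) (qw_t32 A1 A2 A3 A4 A5 A6 A7)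

theorem qw_h33 (h1 : Enc S E A1 a1) (h2 : Enc S E A2 a2) (h3 : Enc S E A3 a3) (h4 : Enc S E A4 a4) (h5 : Enc S E A5 a5) (h6 : Enc S E A6 a6) (h7 : Enc S E A7 a7) : Enc S E (qw_t33 A1 A2 A3 A4 A5 A6 A7) (qw_v33 a1 a2 a3 a4 a5 a6 a7) := enc_add (qw_h30 h1 h2 h3 h4 h5 h6 h7) (qw_h32 h1 h2 h3 h4 h5 h6 h7)

def qw_t34 (A1 A2 A3 A4 A5 A6 A7 : TM) : TM := tscale 19 20 (qw_t33 A1 A2 A3 A4 A5 A6 A7)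

theorem qw_h34 (h1 : Enc S E A1 a1) (h2 : Enc S E A2 a2) (h3 : Enc S E A3 a3) (h4 : Enc S E A4 a4) (h5 : Enc S E A5 a5) (h6 : Enc S E A6 a6) (h7 : Enc S E A7 a7) : Enc S E (qw_t34 A1 A2 A3 A4 A5 A6 A7) (qw_v34 a1 a2 a3 a4 a5 a6 a7) := enc_scale 19 (by norm_num) (qw_h33 h1 h2 h3 h4 h5 h6 h7)

def qw_t35 (A1 A2 A3 A4 A5 A6 A7 : TM) : TM := tsub (qw_t25 A1 A2 A3 A4 A5 A6 A7) (qw_t34 A1 A2 A3 A4 A5 A6 A7)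

theorem qw_h35 (h1 : Enc S E A1 a1) (h2 : Enc S E A2 a2) (h3 : Enc S E A3 a3) (h4 : Enc S E A4 a4) (h5 : Enc S E A5 a5) (h6 : Enc S E A6 a6) (h7 : Enc S E A7 a7) : Enc S E (qw_t35 A1 A2 A3 A4 A5 A6 A7) (qw_v35 a1 a2 a3 a4 a5 a6 a7) := enc_sub (qw_h25 h1 h2 h3 h4 h5 h6 h7) (qw_h34 h1 h2 h3 h4 h5 h6 h7)

def qw_t (A1 A2 A3 A4 A5 A6 A7 : TM) : TM := qw_t35 A1 A2 A3 A4 A5 A6 A7

theorem qw_enc (h1 : Enc S E A1 a1) (h2 : Enc S E A2 a2) (h3 : Enc S E A3 a3) (h4 : Enc S E A4 a4) (h5 : Enc S E A5 a5) (h6 : Enc S E A6 a6) (h7 : Enc S E A7 a7) : Enc S E (qw_t A1 A2 A3 A4 A5 A6 A7) (qw_v a1 a2 a3 a4 a5 a6 a7) := qw_h35 h1 h2 h3 h4 h5 h6 h7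

end Pool.Agent.Strip051.LB.Fc.F2
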