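import Pool.Agent.Strip051.LC.Line.Modulus
import Pool.Agent.Strip051.LB.Fn.R

/-! # LINE functions for the tight charts: real functions -/

namespace Pool.Agent.Strip051.LB.Fc

open Pool.Agent.Strip051.LB.Fn

noncomputable def sgq0_v1 (a1 : ℝ) : ℝ := v2q0_v (a1)

noncomputable def sgq0_v2 (a1 : ℝ) : ℝ := v1q0_v (a1)

noncomputable def sgq0_v3 (a1 : ℝ) : ℝ := sgq0_v1 a1 - sgq0_v2 a1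

noncomputable def sgq0_v5 (a1 : ℝ) : ℝ := f1m_v (a1)

noncomputable def sgq0_v6 (a1 : ℝ) : ℝ := f2m_v (a1)

noncomputable def sgq0_v8 (a1 : ℝ) : ℝ := sgq0_v6 a1 - sgq0_v5 a1

noncomputable def sgq0_v9 (a1 : ℝ) : ℝ := (sgq0_v8 a1)⁻¹

noncomputable def sgq0_v10 (a1 : ℝ) : ℝ := sgq0_v3 a1 * sgq0_v9 a1

noncomputable def sgq0_v (a1 : ℝ) : ℝ := sgq0_v10 a1

noncomputable def sgq1_v1 (a1 : ℝ) : ℝ := v2q1_v (a1)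

noncomputable def sgq1_v2 (a1 : ℝ) : ℝ := v1q1_v (a1)

noncomputable def sgq1_v3 (a1 : ℝ) : ℝ := sgq1_v1 a1 - sgq1_v2 a1

noncomputable def sgq1_v5 (a1 : ℝ) : ℝ := f1m_v (a1)

noncomputable def sgq1_v6 (a1 : ℝ) : ℝ := f2m_v (a1)

noncomputable def sgq1_v8 (a1 : ℝ) : ℝ := sgq1_v6 a1 - sgq1_v5 a1

noncomputable def sgq1_v9 (a1 : ℝ) : ℝ := (sgq1_v8 a1)⁻¹

noncomputable def sgq1_v10 (a1 : ℝ) : ℝ := sgq1_v3 a1 * sgq1_v9 a1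

noncomputable def sgq1_v (a1 : ℝ) : ℝ := sgq1_v10 a1

noncomputable def sgq2_v1 (a1 : ℝ) : ℝ := v2q2_v (a1)

noncomputable def sgq2_v2 (a1 : ℝ) : ℝ := v1q2_v (a1)

noncomputable def sgq2_v3 (a1 : ℝ) : ℝ := sgq2_v1 a1 - sgq2_v2 a1

noncomputable def sgq2_v5 (a1 : ℝ) : ℝ := f1p_v (a1)

noncomputable def sgq2_v6 (a1 : ℝ) : ℝ := f2p_v (a1)

noncomputable def sgq2_v8 (a1 : ℝ) : ℝ := sgq2_v6 a1 - sgq2_v5 a1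

noncomputable def sgq2_v9 (a1 : ℝ) : ℝ := (sgq2_v8 a1)⁻¹

noncomputable def sgq2_v10 (a1 : ℝ) : ℝ := sgq2_v3 a1 * sgq2_v9 a1

noncomputable def sgq2_v (a1 : ℝ) : ℝ := sgq2_v10 a1

noncomputable def sgq3_v1 (a1 : ℝ) : ℝ := v2q3_v (a1)

noncomputable def sgq3_v2 (a1 : ℝ) : ℝ := v1q3_v (a1)

noncomputable def sgq3_v3 (a1 : ℝ) : ℝ := sgq3_v1 a1 - sgq3_v2 a1

noncomputable def sgq3_v5 (a1 : ℝ) : ℝ := f1p_v (a1)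

noncomputable def sgq3_v6 (a1 : ℝ) : ℝ := f2p_v (a1)

noncomputable def sgq3_v8 (a1 : ℝ) : ℝ := sgq3_v6 a1 - sgq3_v5 a1

noncomputable def sgq3_v9 (a1 : ℝ) : ℝ := (sgq3_v8 a1)⁻¹

noncomputable def sgq3_v10 (a1 : ℝ) : ℝ := sgq3_v3 a1 * sgq3_v9 a1

noncomputable def sgq3_v (a1 : ℝ) : ℝ := sgq3_v10 a1

noncomputable def rho0_v1 (a1 : ℝ) : ℝ := c1f_v (a1)

noncomputable def rho0_v5 (a1 : ℝ) : ℝ := b1q0_v (a1)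

noncomputable def rho0_v6 (a1 : ℝ) : ℝ := ((4 : ℕ) : ℝ) * a1

noncomputable def rho0_v7 (_a1 : ℝ) : ℝ := Real.sqrt ((3 : ℕ) : ℝ)

noncomputable def rho0_v8 (a1 : ℝ) : ℝ := ((1 : ℕ) : ℝ) / ((2 : ℕ) : ℝ) * rho0_v7 a1

noncomputable def rho0_v9 (a1 : ℝ) : ℝ := rho0_v6 a1 - rho0_v8 a1

noncomputable def rho0_v12 (a1 : ℝ) : ℝ := ((298 : ℕ) : ℝ) / ((375 : ℕ) : ℝ) * rho0_v7 a1

noncomputable def rho0_v13 (a1 : ℝ) : ℝ := -(rho0_v12 a1)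

noncomputable def rho0_v14 (_a1 : ℝ) : ℝ := ((1 : ℕ) : ℝ)

noncomputable def rho0_v15 (a1 : ℝ) : ℝ := rho0_v5 a1 - rho0_v14 a1

noncomputable def rho0_v16 (a1 : ℝ) : ℝ := (a1)⁻¹

noncomputable def rho0_v17 (a1 : ℝ) : ℝ := rho0_v15 a1 * rho0_v16 a1

noncomputable def rho0_v18 (a1 : ℝ) : ℝ := if rho0_v9 a1 ≤ 0 then rho0_v13 a1 else rho0_v17 a1

noncomputable def rho0_v19 (a1 : ℝ) : ℝ := rho0_v7 a1 - a1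

noncomputable def rho0_v20 (a1 : ℝ) : ℝ := sw_v (a1)

noncomputable def rho0_v21 (_a1 : ℝ) : ℝ := ((1 : ℕ) : ℝ) / ((2 : ℕ) : ℝ)

noncomputable def rho0_v22 (a1 : ℝ) : ℝ := rho0_v20 a1 + rho0_v21 a1

noncomputable def rho0_v23 (a1 : ℝ) : ℝ := (rho0_v22 a1)⁻¹

noncomputable def rho0_v24 (a1 : ℝ) : ℝ := rho0_v19 a1 * rho0_v23 a1

noncomputable def rho0_v25 (a1 : ℝ) : ℝ := rho0_v14 a1 + rho0_v1 a1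

noncomputable def rho0_v26 (a1 : ℝ) : ℝ := (rho0_v25 a1)⁻¹

noncomputable def rho0_v27 (a1 : ℝ) : ℝ := a1 * rho0_v26 a1

noncomputable def rho0_v28 (a1 : ℝ) : ℝ := rho0_v24 a1 + rho0_v27 a1

noncomputable def rho0_v29 (a1 : ℝ) : ℝ := ((1 : ℕ) : ℝ) / ((2 : ℕ) : ℝ) * rho0_v28 a1

noncomputable def rho0_v30 (a1 : ℝ) : ℝ := rho0_v1 a1 * rho0_v18 a1

noncomputable def rho0_v31 (a1 : ℝ) : ℝ := rho0_v7 a1 * a1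

noncomputable def rho0_v32 (a1 : ℝ) : ℝ := rho0_v25 a1 - rho0_v31 a1

noncomputable def rho0_v33 (a1 : ℝ) : ℝ := (rho0_v32 a1)⁻¹

noncomputable def rho0_v34 (a1 : ℝ) : ℝ := rho0_v7 a1 * rho0_v33 a1

noncomputable def rho0_v35 (a1 : ℝ) : ℝ := rho0_v30 a1 + rho0_v34 a1

noncomputable def rho0_v36 (a1 : ℝ) : ℝ := (rho0_v29 a1)⁻¹

noncomputable def rho0_v37 (a1 : ℝ) : ℝ := rho0_v35 a1 * rho0_v36 a1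

noncomputable def rho0_v38 (a1 : ℝ) : ℝ := rho0_v5 a1 + rho0_v37 a1

noncomputable def rho0_v (a1 : ℝ) : ℝ := rho0_v38 a1

noncomputable def rho1_v1 (a1 : ℝ) : ℝ := v1q1_v (a1)

noncomputable def rho1_v2 (a1 : ℝ) : ℝ := a1q1_v (a1)

noncomputable def rho1_v3 (a1 : ℝ) : ℝ := rho1_v1 a1 - rho1_v2 a1

noncomputable def rho1_v4 (a1 : ℝ) : ℝ := c1f_v (a1)

noncomputable def rho1_v5 (a1 : ℝ) : ℝ := f1m_v (a1)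

noncomputable def rho1_v8 (a1 : ℝ) : ℝ := rho1_v5 a1 - rho1_v4 a1

noncomputable def rho1_v9 (a1 : ℝ) : ℝ := (rho1_v8 a1)⁻¹

noncomputable def rho1_v10 (a1 : ℝ) : ℝ := rho1_v3 a1 * rho1_v9 a1

noncomputable def rho1_v (a1 : ℝ) : ℝ := rho1_v10 a1

noncomputable def kxq0_v2 (_a1 a2 : ℝ) : ℝ := c1f_v (a2)

noncomputable def kxq0_v3 (_a1 a2 : ℝ) : ℝ := f1m_v (a2)

noncomputable def kxq0_v6 (_a1 a2 : ℝ) : ℝ := rho0_v (a2)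

noncomputable def kxq0_v7 (_a1 a2 : ℝ) : ℝ := sgq0_v (a2)

noncomputable def kxq0_v8 (a1 a2 : ℝ) : ℝ := a1 - kxq0_v3 a1 a2

noncomputable def kxq0_v9 (a1 a2 : ℝ) : ℝ := kxq0_v3 a1 a2 - kxq0_v2 a1 a2

noncomputable def kxq0_v10 (a1 a2 : ℝ) : ℝ := a1 - kxq0_v2 a1 a2

noncomputable def kxq0_v11 (a1 a2 : ℝ) : ℝ := min (max (kxq0_v9 a1 a2 * (kxq0_v10 a1 a2)⁻¹) 0) 1

noncomputable def kxq0_v12 (a1 a2 : ℝ) : ℝ := kxq0_v6 a1 a2 - kxq0_v7 a1 a2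

noncomputable def kxq0_v13 (a1 a2 : ℝ) : ℝ := kxq0_v11 a1 a2 * kxq0_v12 a1 a2

noncomputable def kxq0_v14 (a1 a2 : ℝ) : ℝ := kxq0_v7 a1 a2 + kxq0_v13 a1 a2

noncomputable def kxq0_v15 (a1 a2 : ℝ) : ℝ := if kxq0_v8 a1 a2 ≤ 0 then kxq0_v6 a1 a2 else kxq0_v14 a1 a2

noncomputable def kxq0_v (a1 a2 : ℝ) : ℝ := kxq0_v15 a1 a2

noncomputable def kxq1_v2 (_a1 a2 : ℝ) : ℝ := c1f_v (a2)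

noncomputable def kxq1_v3 (_a1 a2 : ℝ) : ℝ := f1m_v (a2)

noncomputable def kxq1_v6 (_a1 a2 : ℝ) : ℝ := rho1_v (a2)

noncomputable def kxq1_v7 (_a1 a2 : ℝ) : ℝ := sgq1_v (a2)

noncomputable def kxq1_v8 (a1 a2 : ℝ) : ℝ := a1 - kxq1_v3 a1 a2

noncomputable def kxq1_v9 (a1 a2 : ℝ) : ℝ := kxq1_v3 a1 a2 - kxq1_v2 a1 a2

noncomputable def kxq1_v10 (a1 a2 : ℝ) : ℝ := a1 - kxq1_v2 a1 a2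

noncomputable def kxq1_v11 (a1 a2 : ℝ) : ℝ := min (max (kxq1_v9 a1 a2 * (kxq1_v10 a1 a2)⁻¹) 0) 1

noncomputable def kxq1_v12 (a1 a2 : ℝ) : ℝ := kxq1_v6 a1 a2 - kxq1_v7 a1 a2

noncomputable def kxq1_v13 (a1 a2 : ℝ) : ℝ := kxq1_v11 a1 a2 * kxq1_v12 a1 a2

noncomputable def kxq1_v14 (a1 a2 : ℝ) : ℝ := kxq1_v7 a1 a2 + kxq1_v13 a1 a2

noncomputable def kxq1_v15 (a1 a2 : ℝ) : ℝ := if kxq1_v8 a1 a2 ≤ 0 then kxq1_v6 a1 a2 else kxq1_v14 a1 a2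

noncomputable def kxq1_v (a1 a2 : ℝ) : ℝ := kxq1_v15 a1 a2

noncomputable def kx2p_v2 (_a1 a2 : ℝ) : ℝ := c1f_v (a2)

noncomputable def kx2p_v3 (_a1 a2 : ℝ) : ℝ := f1p_v (a2)

noncomputable def kx2p_v6 (_a1 a2 : ℝ) : ℝ := sgq2_v (a2)

noncomputable def kx2p_v7 (_a1 _a2 : ℝ) : ℝ := ((1 : ℕ) : ℝ)

noncomputable def kx2p_v8 (a1 a2 : ℝ) : ℝ := kx2p_v6 a1 a2 - kx2p_v7 a1 a2

noncomputable def kx2p_v9 (_a1 _a2 : ℝ) : ℝ := Real.sqrt ((3 : ℕ) : ℝ)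

noncomputable def kx2p_v10 (a1 a2 : ℝ) : ℝ := ((1 : ℕ) : ℝ) / ((2 : ℕ) : ℝ) * kx2p_v9 a1 a2

noncomputable def kx2p_v11 (a1 a2 : ℝ) : ℝ := a2 + kx2p_v10 a1 a2

noncomputable def kx2p_v12 (_a1 _a2 : ℝ) : ℝ := ((1 : ℕ) : ℝ) / ((2 : ℕ) : ℝ)

noncomputable def kx2p_v13 (a1 a2 : ℝ) : ℝ := kx2p_v12 a1 a2 + kx2p_v2 a1 a2

noncomputable def kx2p_v14 (a1 a2 : ℝ) : ℝ := (kx2p_v13 a1 a2)⁻¹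

noncomputable def kx2p_v15 (a1 a2 : ℝ) : ℝ := kx2p_v11 a1 a2 * kx2p_v14 a1 a2

noncomputable def kx2p_v16 (a1 a2 : ℝ) : ℝ := a2 - kx2p_v10 a1 a2

noncomputable def kx2p_v17 (_a1 a2 : ℝ) : ℝ := sw_v (a2)

noncomputable def kx2p_v18 (a1 a2 : ℝ) : ℝ := kx2p_v7 a1 a2 + kx2p_v17 a1 a2

noncomputable def kx2p_v19 (a1 a2 : ℝ) : ℝ := (kx2p_v18 a1 a2)⁻¹

noncomputable def kx2p_v20 (a1 a2 : ℝ) : ℝ := kx2p_v16 a1 a2 * kx2p_v19 a1 a2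

noncomputable def kx2p_v21 (a1 a2 : ℝ) : ℝ := kx2p_v15 a1 a2 - kx2p_v20 a1 a2

noncomputable def kx2p_v22 (a1 a2 : ℝ) : ℝ := ((1 : ℕ) : ℝ) / ((2 : ℕ) : ℝ) * kx2p_v21 a1 a2

noncomputable def kx2p_v24 (a1 a2 : ℝ) : ℝ := ((98 : ℕ) : ℝ) / ((375 : ℕ) : ℝ) * kx2p_v9 a1 a2

noncomputable def kx2p_v26 (a1 a2 : ℝ) : ℝ := kx2p_v24 a1 a2 * kx2p_v3 a1 a2

noncomputable def kx2p_v28 (a1 a2 : ℝ) : ℝ := (kx2p_v22 a1 a2)⁻¹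

noncomputable def kx2p_v29 (a1 a2 : ℝ) : ℝ := kx2p_v26 a1 a2 * kx2p_v28 a1 a2

noncomputable def kx2p_v30 (a1 a2 : ℝ) : ℝ := -(kx2p_v29 a1 a2)

noncomputable def kx2p_v31 (a1 a2 : ℝ) : ℝ := a1 - kx2p_v3 a1 a2

noncomputable def kx2p_v32 (a1 a2 : ℝ) : ℝ := kx2p_v3 a1 a2 - kx2p_v2 a1 a2

noncomputable def kx2p_v33 (a1 a2 : ℝ) : ℝ := a1 - kx2p_v2 a1 a2

noncomputable def kx2p_v34 (a1 a2 : ℝ) : ℝ := min (max (kx2p_v32 a1 a2 * (kx2p_v33 a1 a2)⁻¹) 0) 1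

noncomputable def kx2p_v35 (a1 a2 : ℝ) : ℝ := kx2p_v30 a1 a2 - kx2p_v8 a1 a2

noncomputable def kx2p_v36 (a1 a2 : ℝ) : ℝ := kx2p_v34 a1 a2 * kx2p_v35 a1 a2

noncomputable def kx2p_v37 (a1 a2 : ℝ) : ℝ := kx2p_v8 a1 a2 + kx2p_v36 a1 a2

noncomputable def kx2p_v38 (a1 a2 : ℝ) : ℝ := if kx2p_v31 a1 a2 ≤ 0 then kx2p_v30 a1 a2 else kx2p_v37 a1 a2

noncomputable def kx2p_v39 (a1 a2 : ℝ) : ℝ := a1 + kx2p_v2 a1 a2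

noncomputable def kx2p_v40 (a1 a2 : ℝ) : ℝ := (kx2p_v39 a1 a2)⁻¹

noncomputable def kx2p_v41 (a1 a2 : ℝ) : ℝ := kx2p_v38 a1 a2 * kx2p_v40 a1 a2

noncomputable def kx2p_v42 (_a1 a2 : ℝ) : ℝ := b1q2_v (a2)

noncomputable def kx2p_v43 (a1 a2 : ℝ) : ℝ := kx2p_v42 a1 a2 - kx2p_v7 a1 a2

noncomputable def kx2p_v44 (a1 a2 : ℝ) : ℝ := kx2p_v3 a1 a2 * kx2p_v43 a1 a2

noncomputable def kx2p_v45 (a1 a2 : ℝ) : ℝ := (kx2p_v32 a1 a2)⁻¹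

noncomputable def kx2p_v46 (a1 a2 : ℝ) : ℝ := kx2p_v44 a1 a2 * kx2p_v45 a1 a2

noncomputable def kx2p_v47 (a1 a2 : ℝ) : ℝ := ((9 : ℕ) : ℝ) / ((16 : ℕ) : ℝ) * kx2p_v9 a1 a2

noncomputable def kx2p_v48 (a1 a2 : ℝ) : ℝ := kx2p_v7 a1 a2 - kx2p_v47 a1 a2

noncomputable def kx2p_v50 (a1 a2 : ℝ) : ℝ := (kx2p_v48 a1 a2)⁻¹

noncomputable def kx2p_v51 (a1 a2 : ℝ) : ℝ := ((49 : ℕ) : ℝ) / ((1000 : ℕ) : ℝ) * kx2p_v50 a1 a2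

noncomputable def kx2p_v52 (a1 a2 : ℝ) : ℝ := kx2p_v51 a1 a2 * kx2p_v2 a1 a2

noncomputable def kx2p_v53 (a1 a2 : ℝ) : ℝ := min (max (kx2p_v2 a1 a2 * (kx2p_v39 a1 a2)⁻¹) 0) 1

noncomputable def kx2p_v54 (a1 a2 : ℝ) : ℝ := kx2p_v52 a1 a2 * kx2p_v53 a1 a2

noncomputable def kx2p_v55 (a1 a2 : ℝ) : ℝ := kx2p_v54 a1 a2 * kx2p_v3 a1 a2

noncomputable def kx2p_v57 (a1 a2 : ℝ) : ℝ := kx2p_v7 a1 a2 + a2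

noncomputable def kx2p_v58 (a1 a2 : ℝ) : ℝ := kx2p_v57 a1 a2 * kx2p_v32 a1 a2

noncomputable def kx2p_v59 (a1 a2 : ℝ) : ℝ := (kx2p_v58 a1 a2)⁻¹

noncomputable def kx2p_v60 (a1 a2 : ℝ) : ℝ := kx2p_v55 a1 a2 * kx2p_v59 a1 a2

noncomputable def kx2p_v61 (a1 a2 : ℝ) : ℝ := -(kx2p_v60 a1 a2)

noncomputable def kx2p_v62 (a1 a2 : ℝ) : ℝ := kx2p_v46 a1 a2 - kx2p_v8 a1 a2

noncomputable def kx2p_v63 (a1 a2 : ℝ) : ℝ := kx2p_v34 a1 a2 * kx2p_v62 a1 a2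

noncomputable def kx2p_v64 (a1 a2 : ℝ) : ℝ := kx2p_v8 a1 a2 + kx2p_v63 a1 a2

noncomputable def kx2p_v65 (a1 a2 : ℝ) : ℝ := kx2p_v64 a1 a2 * kx2p_v40 a1 a2

noncomputable def kx2p_v66 (a1 a2 : ℝ) : ℝ := if kx2p_v31 a1 a2 ≤ 0 then kx2p_v61 a1 a2 else kx2p_v65 a1 a2

noncomputable def kx2p_v67 (a1 a2 : ℝ) : ℝ := ((3 : ℕ) : ℝ) / ((4 : ℕ) : ℝ) * kx2p_v9 a1 a2

noncomputable def kx2p_v68 (a1 a2 : ℝ) : ℝ := kx2p_v67 a1 a2 - kx2p_v7 a1 a2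

noncomputable def kx2p_v70 (a1 a2 : ℝ) : ℝ := (kx2p_v68 a1 a2)⁻¹

noncomputable def kx2p_v71 (a1 a2 : ℝ) : ℝ := ((1033 : ℕ) : ℝ) / ((1000 : ℕ) : ℝ) * kx2p_v70 a1 a2

noncomputable def kx2p_v72 (a1 _a2 : ℝ) : ℝ := (a1) ^ 2

noncomputable def kx2p_v73 (_a1 a2 : ℝ) : ℝ := (a2) ^ 2

noncomputable def kx2p_v74 (a1 a2 : ℝ) : ℝ := kx2p_v72 a1 a2 + kx2p_v73 a1 a2

noncomputable def kx2p_v75 (a1 a2 : ℝ) : ℝ := kx2p_v74 a1 a2 - kx2p_v7 a1 a2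

noncomputable def kx2p_v76 (a1 a2 : ℝ) : ℝ := kx2p_v71 a1 a2 * a1

noncomputable def kx2p_v77 (a1 a2 : ℝ) : ℝ := kx2p_v73 a1 a2 - kx2p_v7 a1 a2

noncomputable def kx2p_v78 (a1 a2 : ℝ) : ℝ := min (max (kx2p_v77 a1 a2 * (kx2p_v75 a1 a2)⁻¹) 0) 1

noncomputable def kx2p_v79 (a1 a2 : ℝ) : ℝ := kx2p_v76 a1 a2 * kx2p_v78 a1 a2

noncomputable def kx2p_v81 (a1 a2 : ℝ) : ℝ := (kx2p_v57 a1 a2)⁻¹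

noncomputable def kx2p_v82 (a1 a2 : ℝ) : ℝ := kx2p_v79 a1 a2 * kx2p_v81 a1 a2

noncomputable def kx2p_v83 (a1 a2 : ℝ) : ℝ := -(kx2p_v82 a1 a2)

noncomputable def kx2p_v84 (a1 a2 : ℝ) : ℝ := kx2p_v3 a1 a2 * kx2p_v42 a1 a2

noncomputable def kx2p_v85 (a1 a2 : ℝ) : ℝ := kx2p_v8 a1 a2 + kx2p_v7 a1 a2

noncomputable def kx2p_v86 (a1 a2 : ℝ) : ℝ := kx2p_v31 a1 a2 * kx2p_v85 a1 a2

noncomputable def kx2p_v87 (a1 a2 : ℝ) : ℝ := kx2p_v84 a1 a2 + kx2p_v86 a1 a2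

noncomputable def kx2p_v88 (a1 a2 : ℝ) : ℝ := kx2p_v87 a1 a2 - a1

noncomputable def kx2p_v89 (a1 a2 : ℝ) : ℝ := (kx2p_v75 a1 a2)⁻¹

noncomputable def kx2p_v90 (a1 a2 : ℝ) : ℝ := kx2p_v88 a1 a2 * kx2p_v89 a1 a2

noncomputable def kx2p_v91 (a1 a2 : ℝ) : ℝ := if kx2p_v31 a1 a2 ≤ 0 then kx2p_v83 a1 a2 else kx2p_v90 a1 a2

noncomputable def kx2p_v92 (a1 a2 : ℝ) : ℝ := a2 - kx2p_v7 a1 a2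

noncomputable def kx2p_v93 (a1 a2 : ℝ) : ℝ := a2 - kx2p_v47 a1 a2

noncomputable def kx2p_v94 (a1 a2 : ℝ) : ℝ := if kx2p_v93 a1 a2 ≤ 0 then kx2p_v41 a1 a2 else kx2p_v66 a1 a2

noncomputable def kx2p_v95 (a1 a2 : ℝ) : ℝ := if kx2p_v92 a1 a2 ≤ 0 then kx2p_v94 a1 a2 else kx2p_v91 a1 a2

noncomputable def kx2p_v (a1 a2 : ℝ) : ℝ := kx2p_v95 a1 a2

noncomputable def kx2_v2 (a1 _a2 : ℝ) : ℝ := -(a1)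

noncomputable def kx2_v3 (a1 a2 : ℝ) : ℝ := kx2p_v (kx2_v2 a1 a2) (a2)

noncomputable def kx2_v4 (a1 a2 : ℝ) : ℝ := -(kx2_v3 a1 a2)

noncomputable def kx2_v5 (a1 a2 : ℝ) : ℝ := kx2p_v (a1) (a2)

noncomputable def kx2_v6 (a1 a2 : ℝ) : ℝ := if a1 ≤ 0 then kx2_v4 a1 a2 else kx2_v5 a1 a2

noncomputable def kx2_v (a1 a2 : ℝ) : ℝ := kx2_v6 a1 a2

noncomputable def s3q0_v1 (a1 : ℝ) : ℝ := a3q0_v (a1)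

noncomputable def s3q0_v2 (a1 : ℝ) : ℝ := v2q0_v (a1)

noncomputable def s3q0_v3 (a1 : ℝ) : ℝ := s3q0_v1 a1 - s3q0_v2 a1

noncomputable def s3q0_v6 (a1 : ℝ) : ℝ := f2m_v (a1)

noncomputable def s3q0_v7 (a1 : ℝ) : ℝ := c3f_v (a1)

noncomputable def s3q0_v8 (a1 : ℝ) : ℝ := s3q0_v7 a1 - s3q0_v6 a1

noncomputable def s3q0_v9 (a1 : ℝ) : ℝ := (s3q0_v8 a1)⁻¹

noncomputable def s3q0_v10 (a1 : ℝ) : ℝ := s3q0_v3 a1 * s3q0_v9 a1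

noncomputable def s3q0_v (a1 : ℝ) : ℝ := s3q0_v10 a1

noncomputable def s3q1_v4 (a1 : ℝ) : ℝ := c3f_v (a1)

noncomputable def s3q1_v5 (_a1 : ℝ) : ℝ := Real.sqrt ((3 : ℕ) : ℝ)

noncomputable def s3q1_v6 (a1 : ℝ) : ℝ := ((1 : ℕ) : ℝ) / ((2 : ℕ) : ℝ) * s3q1_v5 a1

noncomputable def s3q1_v7 (a1 : ℝ) : ℝ := b2q1_v (a1)

noncomputable def s3q1_v8 (a1 : ℝ) : ℝ := s3q1_v6 a1 + a1

noncomputable def s3q1_v9 (_a1 : ℝ) : ℝ := ((3 : ℕ) : ℝ) / ((2 : ℕ) : ℝ)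

noncomputable def s3q1_v10 (a1 : ℝ) : ℝ := s3q1_v4 a1 + s3q1_v9 a1

noncomputable def s3q1_v11 (a1 : ℝ) : ℝ := (s3q1_v10 a1)⁻¹

noncomputable def s3q1_v12 (a1 : ℝ) : ℝ := s3q1_v8 a1 * s3q1_v11 a1

noncomputable def s3q1_v13 (a1 : ℝ) : ℝ := s3q1_v6 a1 - a1

noncomputable def s3q1_v14 (a1 : ℝ) : ℝ := sw_v (a1)

noncomputable def s3q1_v15 (_a1 : ℝ) : ℝ := ((1 : ℕ) : ℝ)

noncomputable def s3q1_v16 (a1 : ℝ) : ℝ := s3q1_v15 a1 + s3q1_v14 a1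

noncomputable def s3q1_v17 (a1 : ℝ) : ℝ := (s3q1_v16 a1)⁻¹

noncomputable def s3q1_v18 (a1 : ℝ) : ℝ := s3q1_v13 a1 * s3q1_v17 a1

noncomputable def s3q1_v19 (a1 : ℝ) : ℝ := s3q1_v12 a1 + s3q1_v18 a1

noncomputable def s3q1_v20 (a1 : ℝ) : ℝ := ((1 : ℕ) : ℝ) / ((2 : ℕ) : ℝ) * s3q1_v19 a1

noncomputable def s3q1_v21 (a1 : ℝ) : ℝ := s3q1_v6 a1 * s3q1_v8 a1

noncomputable def s3q1_v22 (a1 : ℝ) : ℝ := s3q1_v21 a1 * s3q1_v11 a1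

noncomputable def s3q1_v23 (a1 : ℝ) : ℝ := s3q1_v9 a1 + s3q1_v22 a1

noncomputable def s3q1_v24 (a1 : ℝ) : ℝ := a1 + s3q1_v6 a1

noncomputable def s3q1_v25 (a1 : ℝ) : ℝ := (s3q1_v24 a1)⁻¹

noncomputable def s3q1_v26 (a1 : ℝ) : ℝ := s3q1_v23 a1 * s3q1_v25 a1

noncomputable def s3q1_v28 (a1 : ℝ) : ℝ := ((167 : ℕ) : ℝ) / ((250 : ℕ) : ℝ) * s3q1_v4 a1

noncomputable def s3q1_v29 (a1 : ℝ) : ℝ := (s3q1_v6 a1)⁻¹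

noncomputable def s3q1_v30 (a1 : ℝ) : ℝ := s3q1_v28 a1 * s3q1_v29 a1

noncomputable def s3q1_v31 (a1 : ℝ) : ℝ := s3q1_v30 a1 - s3q1_v26 a1

noncomputable def s3q1_v32 (a1 : ℝ) : ℝ := (s3q1_v20 a1)⁻¹

noncomputable def s3q1_v33 (a1 : ℝ) : ℝ := s3q1_v31 a1 * s3q1_v32 a1

noncomputable def s3q1_v34 (a1 : ℝ) : ℝ := s3q1_v7 a1 + s3q1_v33 a1

noncomputable def s3q1_v (a1 : ℝ) : ℝ := s3q1_v34 a1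

noncomputable def s3q2_v1 (a1 : ℝ) : ℝ := a3q2_v (a1)

noncomputable def s3q2_v2 (a1 : ℝ) : ℝ := v2q2_v (a1)

noncomputable def s3q2_v3 (a1 : ℝ) : ℝ := s3q2_v1 a1 - s3q2_v2 a1

noncomputable def s3q2_v6 (a1 : ℝ) : ℝ := f2p_v (a1)

noncomputable def s3q2_v7 (a1 : ℝ) : ℝ := c3f_v (a1)

noncomputable def s3q2_v8 (a1 : ℝ) : ℝ := s3q2_v7 a1 - s3q2_v6 a1

noncomputable def s3q2_v9 (a1 : ℝ) : ℝ := (s3q2_v8 a1)⁻¹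

noncomputable def s3q2_v10 (a1 : ℝ) : ℝ := s3q2_v3 a1 * s3q2_v9 a1

noncomputable def s3q2_v (a1 : ℝ) : ℝ := s3q2_v10 a1

noncomputable def s3q3_v1 (a1 : ℝ) : ℝ := a3q3_v (a1)

noncomputable def s3q3_v2 (a1 : ℝ) : ℝ := v2q3_v (a1)

noncomputable def s3q3_v3 (a1 : ℝ) : ℝ := s3q3_v1 a1 - s3q3_v2 a1

noncomputable def s3q3_v6 (a1 : ℝ) : ℝ := f2p_v (a1)

noncomputable def s3q3_v7 (a1 : ℝ) : ℝ := c3f_v (a1)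

noncomputable def s3q3_v8 (a1 : ℝ) : ℝ := s3q3_v7 a1 - s3q3_v6 a1

noncomputable def s3q3_v9 (a1 : ℝ) : ℝ := (s3q3_v8 a1)⁻¹

noncomputable def s3q3_v10 (a1 : ℝ) : ℝ := s3q3_v3 a1 * s3q3_v9 a1

noncomputable def s3q3_v (a1 : ℝ) : ℝ := s3q3_v10 a1

noncomputable def kyq0_v4 (_a1 a2 : ℝ) : ℝ := f2m_v (a2)

noncomputable def kyq0_v5 (_a1 a2 : ℝ) : ℝ := c3f_v (a2)

noncomputable def kyq0_v6 (_a1 a2 : ℝ) : ℝ := s3q0_v (a2)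

noncomputable def kyq0_v7 (_a1 a2 : ℝ) : ℝ := sgq0_v (a2)

noncomputable def kyq0_v8 (a1 a2 : ℝ) : ℝ := kyq0_v4 a1 a2 - a1

noncomputable def kyq0_v9 (a1 a2 : ℝ) : ℝ := kyq0_v5 a1 a2 - kyq0_v4 a1 a2

noncomputable def kyq0_v10 (a1 a2 : ℝ) : ℝ := kyq0_v5 a1 a2 - a1

noncomputable def kyq0_v11 (a1 a2 : ℝ) : ℝ := min (max (kyq0_v9 a1 a2 * (kyq0_v10 a1 a2)⁻¹) 0) 1

noncomputable def kyq0_v12 (a1 a2 : ℝ) : ℝ := kyq0_v6 a1 a2 - kyq0_v7 a1 a2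

noncomputable def kyq0_v13 (a1 a2 : ℝ) : ℝ := kyq0_v11 a1 a2 * kyq0_v12 a1 a2

noncomputable def kyq0_v14 (a1 a2 : ℝ) : ℝ := kyq0_v7 a1 a2 + kyq0_v13 a1 a2

noncomputable def kyq0_v15 (a1 a2 : ℝ) : ℝ := if kyq0_v8 a1 a2 ≤ 0 then kyq0_v6 a1 a2 else kyq0_v14 a1 a2

noncomputable def kyq0_v (a1 a2 : ℝ) : ℝ := kyq0_v15 a1 a2

noncomputable def kyq1_v4 (_a1 a2 : ℝ) : ℝ := f2m_v (a2)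

noncomputable def kyq1_v5 (_a1 a2 : ℝ) : ℝ := c3f_v (a2)

noncomputable def kyq1_v6 (_a1 a2 : ℝ) : ℝ := s3q1_v (a2)

noncomputable def kyq1_v7 (_a1 a2 : ℝ) : ℝ := sgq1_v (a2)

noncomputable def kyq1_v8 (a1 a2 : ℝ) : ℝ := kyq1_v4 a1 a2 - a1

noncomputable def kyq1_v9 (a1 a2 : ℝ) : ℝ := kyq1_v5 a1 a2 - kyq1_v4 a1 a2

noncomputable def kyq1_v10 (a1 a2 : ℝ) : ℝ := kyq1_v5 a1 a2 - a1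

noncomputable def kyq1_v11 (a1 a2 : ℝ) : ℝ := min (max (kyq1_v9 a1 a2 * (kyq1_v10 a1 a2)⁻¹) 0) 1

noncomputable def kyq1_v12 (a1 a2 : ℝ) : ℝ := kyq1_v6 a1 a2 - kyq1_v7 a1 a2

noncomputable def kyq1_v13 (a1 a2 : ℝ) : ℝ := kyq1_v11 a1 a2 * kyq1_v12 a1 a2

noncomputable def kyq1_v14 (a1 a2 : ℝ) : ℝ := kyq1_v7 a1 a2 + kyq1_v13 a1 a2

noncomputable def kyq1_v15 (a1 a2 : ℝ) : ℝ := if kyq1_v8 a1 a2 ≤ 0 then kyq1_v6 a1 a2 else kyq1_v14 a1 a2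

noncomputable def kyq1_v (a1 a2 : ℝ) : ℝ := kyq1_v15 a1 a2

noncomputable def kyq2_v4 (_a1 a2 : ℝ) : ℝ := f2p_v (a2)

noncomputable def kyq2_v5 (_a1 a2 : ℝ) : ℝ := c3f_v (a2)

noncomputable def kyq2_v6 (_a1 a2 : ℝ) : ℝ := s3q2_v (a2)

noncomputable def kyq2_v7 (_a1 a2 : ℝ) : ℝ := sgq2_v (a2)

noncomputable def kyq2_v8 (a1 a2 : ℝ) : ℝ := kyq2_v4 a1 a2 - a1

noncomputable def kyq2_v9 (a1 a2 : ℝ) : ℝ := kyq2_v5 a1 a2 - kyq2_v4 a1 a2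

noncomputable def kyq2_v10 (a1 a2 : ℝ) : ℝ := kyq2_v5 a1 a2 - a1

noncomputable def kyq2_v11 (a1 a2 : ℝ) : ℝ := min (max (kyq2_v9 a1 a2 * (kyq2_v10 a1 a2)⁻¹) 0) 1

noncomputable def kyq2_v12 (a1 a2 : ℝ) : ℝ := kyq2_v6 a1 a2 - kyq2_v7 a1 a2

noncomputable def kyq2_v13 (a1 a2 : ℝ) : ℝ := kyq2_v11 a1 a2 * kyq2_v12 a1 a2

noncomputable def kyq2_v14 (a1 a2 : ℝ) : ℝ := kyq2_v7 a1 a2 + kyq2_v13 a1 a2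

noncomputable def kyq2_v15 (a1 a2 : ℝ) : ℝ := if kyq2_v8 a1 a2 ≤ 0 then kyq2_v6 a1 a2 else kyq2_v14 a1 a2

noncomputable def kyq2_v (a1 a2 : ℝ) : ℝ := kyq2_v15 a1 a2

noncomputable def kyq3_v4 (_a1 a2 : ℝ) : ℝ := f2p_v (a2)

noncomputable def kyq3_v5 (_a1 a2 : ℝ) : ℝ := c3f_v (a2)

noncomputable def kyq3_v6 (_a1 a2 : ℝ) : ℝ := s3q3_v (a2)

noncomputable def kyq3_v7 (_a1 a2 : ℝ) : ℝ := sgq3_v (a2)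

noncomputable def kyq3_v8 (a1 a2 : ℝ) : ℝ := kyq3_v4 a1 a2 - a1

noncomputable def kyq3_v9 (a1 a2 : ℝ) : ℝ := kyq3_v5 a1 a2 - kyq3_v4 a1 a2

noncomputable def kyq3_v10 (a1 a2 : ℝ) : ℝ := kyq3_v5 a1 a2 - a1

noncomputable def kyq3_v11 (a1 a2 : ℝ) : ℝ := min (max (kyq3_v9 a1 a2 * (kyq3_v10 a1 a2)⁻¹) 0) 1

noncomputable def kyq3_v12 (a1 a2 : ℝ) : ℝ := kyq3_v6 a1 a2 - kyq3_v7 a1 a2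

noncomputable def kyq3_v13 (a1 a2 : ℝ) : ℝ := kyq3_v11 a1 a2 * kyq3_v12 a1 a2

noncomputable def kyq3_v14 (a1 a2 : ℝ) : ℝ := kyq3_v7 a1 a2 + kyq3_v13 a1 a2

noncomputable def kyq3_v15 (a1 a2 : ℝ) : ℝ := if kyq3_v8 a1 a2 ≤ 0 then kyq3_v6 a1 a2 else kyq3_v14 a1 a2

noncomputable def kyq3_v (a1 a2 : ℝ) : ℝ := kyq3_v15 a1 a2

noncomputable def kx3_v4 (_a1 a2 : ℝ) : ℝ := f2p_v (a2)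

noncomputable def kx3_v5 (_a1 a2 : ℝ) : ℝ := c3f_v (a2)

noncomputable def kx3_v6 (_a1 _a2 : ℝ) : ℝ := Real.sqrt ((3 : ℕ) : ℝ)

noncomputable def kx3_v7 (a1 a2 : ℝ) : ℝ := ((1 : ℕ) : ℝ) / ((2 : ℕ) : ℝ) * kx3_v6 a1 a2

noncomputable def kx3_v8 (a1 a2 : ℝ) : ℝ := (kx3_v6 a1 a2)⁻¹

noncomputable def kx3_v9 (a1 a2 : ℝ) : ℝ := a2 * kx3_v8 a1 a2

noncomputable def kx3_v10 (_a1 _a2 : ℝ) : ℝ := ((1 : ℕ) : ℝ)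

noncomputable def kx3_v11 (a1 a2 : ℝ) : ℝ := kx3_v10 a1 a2 + kx3_v9 a1 a2

noncomputable def kx3_v12 (a1 a2 : ℝ) : ℝ := kx3_v5 a1 a2 + a1

noncomputable def kx3_v13 (a1 a2 : ℝ) : ℝ := min (max (a1 * (kx3_v12 a1 a2)⁻¹) 0) 1

noncomputable def kx3_v14 (a1 a2 : ℝ) : ℝ := kx3_v10 a1 a2 - kx3_v13 a1 a2

noncomputable def kx3_v15 (a1 a2 : ℝ) : ℝ := kx3_v6 a1 a2 + a2

noncomputable def kx3_v16 (_a1 a2 : ℝ) : ℝ := sw_v (a2)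

noncomputable def kx3_v17 (_a1 _a2 : ℝ) : ℝ := ((1 : ℕ) : ℝ) / ((2 : ℕ) : ℝ)

noncomputable def kx3_v18 (a1 a2 : ℝ) : ℝ := kx3_v16 a1 a2 + kx3_v17 a1 a2

noncomputable def kx3_v19 (a1 a2 : ℝ) : ℝ := kx3_v15 a1 a2 * kx3_v18 a1 a2

noncomputable def kx3_v20 (a1 a2 : ℝ) : ℝ := (kx3_v19 a1 a2)⁻¹

noncomputable def kx3_v21 (a1 a2 : ℝ) : ℝ := a2 * kx3_v20 a1 a2

noncomputable def kx3_v22 (a1 a2 : ℝ) : ℝ := kx3_v6 a1 a2 * kx3_v15 a1 a2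

noncomputable def kx3_v23 (a1 a2 : ℝ) : ℝ := (kx3_v22 a1 a2)⁻¹

noncomputable def kx3_v24 (a1 a2 : ℝ) : ℝ := kx3_v5 a1 a2 * kx3_v23 a1 a2

noncomputable def kx3_v25 (a1 a2 : ℝ) : ℝ := kx3_v10 a1 a2 + kx3_v24 a1 a2

noncomputable def kx3_v26 (a1 a2 : ℝ) : ℝ := kx3_v11 a1 a2 - kx3_v5 a1 a2

noncomputable def kx3_v27 (a1 a2 : ℝ) : ℝ := ((2 : ℕ) : ℝ) * kx3_v26 a1 a2

noncomputable def kx3_v28 (a1 a2 : ℝ) : ℝ := (kx3_v27 a1 a2)⁻¹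

noncomputable def kx3_v29 (a1 a2 : ℝ) : ℝ := kx3_v25 a1 a2 * kx3_v28 a1 a2

noncomputable def kx3_v30 (a1 a2 : ℝ) : ℝ := ((489 : ℕ) : ℝ) / ((250 : ℕ) : ℝ) * kx3_v5 a1 a2

noncomputable def kx3_v31 (a1 a2 : ℝ) : ℝ := kx3_v7 a1 a2 * kx3_v15 a1 a2

noncomputable def kx3_v32 (a1 a2 : ℝ) : ℝ := (kx3_v31 a1 a2)⁻¹

noncomputable def kx3_v33 (a1 a2 : ℝ) : ℝ := kx3_v30 a1 a2 * kx3_v32 a1 a2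

noncomputable def kx3_v34 (a1 a2 : ℝ) : ℝ := kx3_v29 a1 a2 - kx3_v33 a1 a2

noncomputable def kx3_v35 (a1 a2 : ℝ) : ℝ := kx3_v11 a1 a2 - a1

noncomputable def kx3_v36 (a1 a2 : ℝ) : ℝ := kx3_v26 a1 a2 * kx3_v35 a1 a2

noncomputable def kx3_v37 (a1 a2 : ℝ) : ℝ := (kx3_v36 a1 a2)⁻¹

noncomputable def kx3_v38 (a1 a2 : ℝ) : ℝ := kx3_v13 a1 a2 * kx3_v37 a1 a2

noncomputable def kx3_v40 (a1 a2 : ℝ) : ℝ := kx3_v14 a1 a2 * kx3_v34 a1 a2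

noncomputable def kx3_v41 (a1 a2 : ℝ) : ℝ := kx3_v5 a1 a2 * kx3_v21 a1 a2

noncomputable def kx3_v42 (a1 a2 : ℝ) : ℝ := kx3_v10 a1 a2 + kx3_v41 a1 a2

noncomputable def kx3_v43 (a1 a2 : ℝ) : ℝ := kx3_v40 a1 a2 * kx3_v42 a1 a2

noncomputable def kx3_v44 (a1 a2 : ℝ) : ℝ := kx3_v10 a1 a2 - kx3_v41 a1 a2

noncomputable def kx3_v45 (a1 a2 : ℝ) : ℝ := (kx3_v44 a1 a2)⁻¹

noncomputable def kx3_v46 (a1 a2 : ℝ) : ℝ := kx3_v43 a1 a2 * kx3_v45 a1 a2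

noncomputable def kx3_v47 (a1 a2 : ℝ) : ℝ := kx3_v46 a1 a2 - kx3_v38 a1 a2

noncomputable def kx3_v48 (_a1 a2 : ℝ) : ℝ := b1q3_v (a2)

noncomputable def kx3_v49 (_a1 a2 : ℝ) : ℝ := b2q3_v (a2)

noncomputable def kx3_v50 (a1 a2 : ℝ) : ℝ := kx3_v11 a1 a2 * kx3_v5 a1 a2

noncomputable def kx3_v51 (a1 a2 : ℝ) : ℝ := kx3_v50 a1 a2 * kx3_v14 a1 a2

noncomputable def kx3_v52 (a1 a2 : ℝ) : ℝ := kx3_v51 a1 a2 * kx3_v23 a1 a2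

noncomputable def kx3_v53 (a1 a2 : ℝ) : ℝ := kx3_v52 a1 a2 + kx3_v11 a1 a2

noncomputable def kx3_v54 (a1 a2 : ℝ) : ℝ := kx3_v5 a1 a2 * kx3_v13 a1 a2

noncomputable def kx3_v55 (a1 a2 : ℝ) : ℝ := kx3_v53 a1 a2 - kx3_v54 a1 a2

noncomputable def kx3_v56 (a1 a2 : ℝ) : ℝ := kx3_v27 a1 a2 * kx3_v35 a1 a2

noncomputable def kx3_v57 (a1 a2 : ℝ) : ℝ := (kx3_v56 a1 a2)⁻¹

noncomputable def kx3_v58 (a1 a2 : ℝ) : ℝ := kx3_v55 a1 a2 * kx3_v57 a1 a2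

noncomputable def kx3_v60 (a1 a2 : ℝ) : ℝ := kx3_v30 a1 a2 * kx3_v14 a1 a2

noncomputable def kx3_v61 (a1 a2 : ℝ) : ℝ := kx3_v60 a1 a2 * kx3_v32 a1 a2

noncomputable def kx3_v62 (a1 a2 : ℝ) : ℝ := kx3_v61 a1 a2 - kx3_v58 a1 a2

noncomputable def kx3_v63 (a1 a2 : ℝ) : ℝ := kx3_v14 a1 a2 * kx3_v21 a1 a2

noncomputable def kx3_v64 (a1 a2 : ℝ) : ℝ := kx3_v49 a1 a2 - kx3_v48 a1 a2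

noncomputable def kx3_v65 (a1 a2 : ℝ) : ℝ := kx3_v63 a1 a2 * kx3_v64 a1 a2

noncomputable def kx3_v66 (a1 a2 : ℝ) : ℝ := kx3_v62 a1 a2 - kx3_v65 a1 a2

noncomputable def kx3_v67 (a1 a2 : ℝ) : ℝ := kx3_v5 a1 a2 - kx3_v4 a1 a2

noncomputable def kx3_v68 (a1 a2 : ℝ) : ℝ := kx3_v5 a1 a2 - a1

noncomputable def kx3_v69 (a1 a2 : ℝ) : ℝ := min (max (kx3_v67 a1 a2 * (kx3_v68 a1 a2)⁻¹) 0) 1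

noncomputable def kx3_v70 (a1 a2 : ℝ) : ℝ := kx3_v4 a1 a2 - a1

noncomputable def kx3_v71 (a1 a2 : ℝ) : ℝ := kx3_v10 a1 a2 - kx3_v69 a1 a2

noncomputable def kx3_v72 (a1 a2 : ℝ) : ℝ := kx3_v71 a1 a2 * kx3_v66 a1 a2

noncomputable def kx3_v73 (a1 a2 : ℝ) : ℝ := kx3_v69 a1 a2 * kx3_v47 a1 a2

noncomputable def kx3_v74 (a1 a2 : ℝ) : ℝ := kx3_v72 a1 a2 + kx3_v73 a1 a2

noncomputable def kx3_v75 (a1 a2 : ℝ) : ℝ := if kx3_v70 a1 a2 ≤ 0 then kx3_v47 a1 a2 else kx3_v74 a1 a2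

noncomputable def kx3_v (a1 a2 : ℝ) : ℝ := kx3_v75 a1 a2

noncomputable def qn_v5 (_a1 _a2 _a3 _a4 _a5 : ℝ) : ℝ := Real.sqrt ((3 : ℕ) : ℝ)

noncomputable def qn_v6 (a1 a2 a3 a4 a5 : ℝ) : ℝ := ((1 : ℕ) : ℝ) / ((2 : ℕ) : ℝ) * qn_v5 a1 a2 a3 a4 a5

noncomputable def qn_v7 (a1 a2 _a3 _a4 _a5 : ℝ) : ℝ := a1 + a2

noncomputable def qn_v8 (a1 a2 a3 a4 a5 : ℝ) : ℝ := min (max (a1 * (qn_v7 a1 a2 a3 a4 a5)⁻¹) 0) 1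

noncomputable def qn_v9 (_a1 _a2 _a3 _a4 _a5 : ℝ) : ℝ := ((1 : ℕ) : ℝ)

noncomputable def qn_v10 (a1 a2 a3 a4 a5 : ℝ) : ℝ := qn_v9 a1 a2 a3 a4 a5 - qn_v8 a1 a2 a3 a4 a5

noncomputable def qn_v11 (a1 a2 a3 a4 a5 : ℝ) : ℝ := qn_v9 a1 a2 a3 a4 a5 - qn_v10 a1 a2 a3 a4 a5

noncomputable def qn_v12 (_a1 _a2 a3 _a4 _a5 : ℝ) : ℝ := ((10 : ℕ) : ℝ) / ((19 : ℕ) : ℝ) * a3

noncomputable def qn_v13 (a1 a2 a3 a4 a5 : ℝ) : ℝ := qn_v6 a1 a2 a3 a4 a5 - qn_v7 a1 a2 a3 a4 a5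

noncomputable def qn_v14 (a1 a2 a3 a4 a5 : ℝ) : ℝ := qn_v13 a1 a2 a3 a4 a5 * a5

noncomputable def qn_v15 (a1 a2 a3 a4 a5 : ℝ) : ℝ := a4 + qn_v14 a1 a2 a3 a4 a5

noncomputable def qn_v16 (a1 a2 a3 a4 a5 : ℝ) : ℝ := (qn_v5 a1 a2 a3 a4 a5)⁻¹

noncomputable def qn_v17 (a1 a2 a3 a4 a5 : ℝ) : ℝ := qn_v15 a1 a2 a3 a4 a5 * qn_v16 a1 a2 a3 a4 a5

noncomputable def qn_v18 (a1 a2 a3 a4 a5 : ℝ) : ℝ := a4 - qn_v14 a1 a2 a3 a4 a5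

noncomputable def qn_v19 (a1 a2 a3 a4 a5 : ℝ) : ℝ := qn_v18 a1 a2 a3 a4 a5 * qn_v16 a1 a2 a3 a4 a5

noncomputable def qn_v20 (a1 a2 a3 a4 a5 : ℝ) : ℝ := qn_v5 a1 a2 a3 a4 a5 - qn_v7 a1 a2 a3 a4 a5

noncomputable def qn_v21 (a1 a2 a3 a4 a5 : ℝ) : ℝ := qn_v20 a1 a2 a3 a4 a5 * a4

noncomputable def qn_v22 (a1 a2 a3 a4 a5 : ℝ) : ℝ := qn_v11 a1 a2 a3 a4 a5 - qn_v10 a1 a2 a3 a4 a5

noncomputable def qn_v23 (a1 a2 a3 a4 a5 : ℝ) : ℝ := qn_v22 a1 a2 a3 a4 a5 * qn_v13 a1 a2 a3 a4 a5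

noncomputable def qn_v24 (a1 a2 a3 a4 a5 : ℝ) : ℝ := qn_v23 a1 a2 a3 a4 a5 * qn_v7 a1 a2 a3 a4 a5

noncomputable def qn_v25 (a1 a2 a3 a4 a5 : ℝ) : ℝ := qn_v24 a1 a2 a3 a4 a5 * a5

noncomputable def qn_v26 (a1 a2 a3 a4 a5 : ℝ) : ℝ := qn_v21 a1 a2 a3 a4 a5 + qn_v25 a1 a2 a3 a4 a5

noncomputable def qn_v28 (a1 a2 a3 a4 a5 : ℝ) : ℝ := qn_v26 a1 a2 a3 a4 a5 * qn_v16 a1 a2 a3 a4 a5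

noncomputable def qn_v30 (a1 a2 a3 a4 a5 : ℝ) : ℝ := qn_v17 a1 a2 a3 a4 a5 + qn_v12 a1 a2 a3 a4 a5

noncomputable def qn_v31 (a1 a2 a3 a4 a5 : ℝ) : ℝ := qn_v7 a1 a2 a3 a4 a5 * qn_v30 a1 a2 a3 a4 a5

noncomputable def qn_v32 (a1 a2 a3 a4 a5 : ℝ) : ℝ := qn_v7 a1 a2 a3 a4 a5 * qn_v12 a1 a2 a3 a4 a5

noncomputable def qn_v33 (a1 a2 a3 a4 a5 : ℝ) : ℝ := qn_v32 a1 a2 a3 a4 a5 - qn_v28 a1 a2 a3 a4 a5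

noncomputable def qn_v34 (a1 a2 a3 a4 a5 : ℝ) : ℝ := qn_v19 a1 a2 a3 a4 a5 + qn_v12 a1 a2 a3 a4 a5

noncomputable def qn_v35 (a1 a2 a3 a4 a5 : ℝ) : ℝ := qn_v7 a1 a2 a3 a4 a5 * qn_v34 a1 a2 a3 a4 a5

noncomputable def qn_v36 (a1 a2 a3 a4 a5 : ℝ) : ℝ := Pool.Agent.Strip051.LC.Line.phi (qn_v31 a1 a2 a3 a4 a5) (qn_v33 a1 a2 a3 a4 a5)

noncomputable def qn_v37 (a1 a2 a3 a4 a5 : ℝ) : ℝ := Pool.Agent.Strip051.LC.Line.phi (qn_v33 a1 a2 a3 a4 a5) (qn_v35 a1 a2 a3 a4 a5)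

noncomputable def qn_v38 (_a1 _a2 _a3 _a4 _a5 : ℝ) : ℝ := ((2 : ℕ) : ℝ)

noncomputable def qn_v39 (a1 a2 a3 a4 a5 : ℝ) : ℝ := qn_v38 a1 a2 a3 a4 a5 + qn_v5 a1 a2 a3 a4 a5

noncomputable def qn_v40 (a1 a2 a3 a4 a5 : ℝ) : ℝ := a3 * qn_v39 a1 a2 a3 a4 a5

noncomputable def qn_v41 (a1 a2 a3 a4 a5 : ℝ) : ℝ := ((1 : ℕ) : ℝ) / ((4 : ℕ) : ℝ) * qn_v40 a1 a2 a3 a4 a5

noncomputable def qn_v42 (a1 a2 a3 a4 a5 : ℝ) : ℝ := qn_v37 a1 a2 a3 a4 a5 - qn_v36 a1 a2 a3 a4 a5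

noncomputable def qn_v43 (a1 a2 a3 a4 a5 : ℝ) : ℝ := qn_v10 a1 a2 a3 a4 a5 * qn_v42 a1 a2 a3 a4 a5

noncomputable def qn_v44 (a1 a2 a3 a4 a5 : ℝ) : ℝ := qn_v36 a1 a2 a3 a4 a5 + qn_v43 a1 a2 a3 a4 a5

noncomputable def qn_v45 (a1 a2 a3 a4 a5 : ℝ) : ℝ := Pool.Agent.Strip051.LC.Line.phi (qn_v34 a1 a2 a3 a4 a5) (qn_v30 a1 a2 a3 a4 a5)

noncomputable def qn_v46 (a1 a2 a3 a4 a5 : ℝ) : ℝ := qn_v13 a1 a2 a3 a4 a5 * qn_v45 a1 a2 a3 a4 a5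

noncomputable def qn_v47 (a1 a2 a3 a4 a5 : ℝ) : ℝ := qn_v44 a1 a2 a3 a4 a5 + qn_v46 a1 a2 a3 a4 a5

noncomputable def qn_v48 (a1 a2 a3 a4 a5 : ℝ) : ℝ := ((19 : ℕ) : ℝ) / ((20 : ℕ) : ℝ) * qn_v47 a1 a2 a3 a4 a5

noncomputable def qn_v49 (a1 a2 a3 a4 a5 : ℝ) : ℝ := qn_v41 a1 a2 a3 a4 a5 - qn_v48 a1 a2 a3 a4 a5

noncomputable def qn_v (a1 a2 a3 a4 a5 : ℝ) : ℝ := qn_v49 a1 a2 a3 a4 a5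

noncomputable def qw_v7 (_a1 _a2 _a3 a4 _a5 _a6 _a7 : ℝ) : ℝ := ((10 : ℕ) : ℝ) / ((19 : ℕ) : ℝ) * a4

noncomputable def qw_v8 (_a1 _a2 _a3 _a4 a5 a6 _a7 : ℝ) : ℝ := a5 + a6

noncomputable def qw_v9 (a1 a2 a3 a4 a5 a6 a7 : ℝ) : ℝ := qw_v8 a1 a2 a3 a4 a5 a6 a7 - a7

noncomputable def qw_v10 (_a1 _a2 _a3 _a4 _a5 _a6 _a7 : ℝ) : ℝ := Real.sqrt ((3 : ℕ) : ℝ)

noncomputable def qw_v11 (a1 a2 a3 a4 a5 a6 a7 : ℝ) : ℝ := (qw_v10 a1 a2 a3 a4 a5 a6 a7)⁻¹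

noncomputable def qw_v12 (a1 a2 a3 a4 a5 a6 a7 : ℝ) : ℝ := qw_v9 a1 a2 a3 a4 a5 a6 a7 * qw_v11 a1 a2 a3 a4 a5 a6 a7

noncomputable def qw_v13 (a1 a2 a3 a4 a5 a6 a7 : ℝ) : ℝ := qw_v12 a1 a2 a3 a4 a5 a6 a7 + qw_v7 a1 a2 a3 a4 a5 a6 a7

noncomputable def qw_v14 (_a1 _a2 _a3 _a4 _a5 a6 a7 : ℝ) : ℝ := a6 + a7

noncomputable def qw_v15 (a1 a2 a3 a4 a5 a6 a7 : ℝ) : ℝ := qw_v14 a1 a2 a3 a4 a5 a6 a7 - a5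

noncomputable def qw_v16 (a1 a2 a3 a4 a5 a6 a7 : ℝ) : ℝ := qw_v15 a1 a2 a3 a4 a5 a6 a7 * qw_v11 a1 a2 a3 a4 a5 a6 a7

noncomputable def qw_v17 (a1 a2 a3 a4 a5 a6 a7 : ℝ) : ℝ := qw_v16 a1 a2 a3 a4 a5 a6 a7 + qw_v7 a1 a2 a3 a4 a5 a6 a7

noncomputable def qw_v18 (_a1 _a2 _a3 _a4 a5 _a6 a7 : ℝ) : ℝ := a7 + a5

noncomputable def qw_v19 (a1 a2 a3 a4 a5 a6 a7 : ℝ) : ℝ := qw_v18 a1 a2 a3 a4 a5 a6 a7 - a6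

noncomputable def qw_v20 (a1 a2 a3 a4 a5 a6 a7 : ℝ) : ℝ := qw_v19 a1 a2 a3 a4 a5 a6 a7 * qw_v11 a1 a2 a3 a4 a5 a6 a7

noncomputable def qw_v21 (a1 a2 a3 a4 a5 a6 a7 : ℝ) : ℝ := qw_v20 a1 a2 a3 a4 a5 a6 a7 + qw_v7 a1 a2 a3 a4 a5 a6 a7

noncomputable def qw_v22 (_a1 _a2 _a3 _a4 _a5 _a6 _a7 : ℝ) : ℝ := ((2 : ℕ) : ℝ)

noncomputable def qw_v23 (a1 a2 a3 a4 a5 a6 a7 : ℝ) : ℝ := qw_v22 a1 a2 a3 a4 a5 a6 a7 + qw_v10 a1 a2 a3 a4 a5 a6 a7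

noncomputable def qw_v24 (a1 a2 a3 a4 a5 a6 a7 : ℝ) : ℝ := a4 * qw_v23 a1 a2 a3 a4 a5 a6 a7

noncomputable def qw_v25 (a1 a2 a3 a4 a5 a6 a7 : ℝ) : ℝ := ((1 : ℕ) : ℝ) / ((4 : ℕ) : ℝ) * qw_v24 a1 a2 a3 a4 a5 a6 a7

noncomputable def qw_v26 (a1 a2 a3 a4 a5 a6 a7 : ℝ) : ℝ := Pool.Agent.Strip051.LC.Line.phi (qw_v13 a1 a2 a3 a4 a5 a6 a7) (qw_v17 a1 a2 a3 a4 a5 a6 a7)

noncomputable def qw_v27 (a1 a2 a3 a4 a5 a6 a7 : ℝ) : ℝ := a1 * qw_v26 a1 a2 a3 a4 a5 a6 a7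

noncomputable def qw_v28 (a1 a2 a3 a4 a5 a6 a7 : ℝ) : ℝ := Pool.Agent.Strip051.LC.Line.phi (qw_v17 a1 a2 a3 a4 a5 a6 a7) (qw_v21 a1 a2 a3 a4 a5 a6 a7)

noncomputable def qw_v29 (a1 a2 a3 a4 a5 a6 a7 : ℝ) : ℝ := a2 * qw_v28 a1 a2 a3 a4 a5 a6 a7

noncomputable def qw_v30 (a1 a2 a3 a4 a5 a6 a7 : ℝ) : ℝ := qw_v27 a1 a2 a3 a4 a5 a6 a7 + qw_v29 a1 a2 a3 a4 a5 a6 a7

noncomputable def qw_v31 (a1 a2 a3 a4 a5 a6 a7 : ℝ) : ℝ := Pool.Agent.Strip051.LC.Line.phi (qw_v21 a1 a2 a3 a4 a5 a6 a7) (qw_v13 a1 a2 a3 a4 a5 a6 a7)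

noncomputable def qw_v32 (a1 a2 a3 a4 a5 a6 a7 : ℝ) : ℝ := a3 * qw_v31 a1 a2 a3 a4 a5 a6 a7

noncomputable def qw_v33 (a1 a2 a3 a4 a5 a6 a7 : ℝ) : ℝ := qw_v30 a1 a2 a3 a4 a5 a6 a7 + qw_v32 a1 a2 a3 a4 a5 a6 a7

noncomputable def qw_v34 (a1 a2 a3 a4 a5 a6 a7 : ℝ) : ℝ := ((19 : ℕ) : ℝ) / ((20 : ℕ) : ℝ) * qw_v33 a1 a2 a3 a4 a5 a6 a7

noncomputable def qw_v35 (a1 a2 a3 a4 a5 a6 a7 : ℝ) : ℝ := qw_v25 a1 a2 a3 a4 a5 a6 a7 - qw_v34 a1 a2 a3 a4 a5 a6 a7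

noncomputable def qw_v (a1 a2 a3 a4 a5 a6 a7 : ℝ) : ℝ := qw_v35 a1 a2 a3 a4 a5 a6 a7

end Pool.Agent.Strip051.LB.Fc
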